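import Pool.Agent.H56.GX.Defs

/-!
Project GY (MP_0575cc_nt, LargeWindowFailure raised): the Good-Churchhouse law fails for suitable
windows `H(X)` of exact order `X / g(X)`, for EVERY nondecreasing `g → ∞` with `g(2X) ≤ 2 g(X)` and
`g(X) ≤ (log log X)^(1-ε)`. Common definitions. `Mz`, `V`, `F`, `K`, `gk`, `SM`, `J`, `Zr`, `r`, `a` are those of
project GX (`Pool/Agent/H56/GX/Defs.lean`).
-/

set_option autoImplicit false

namespace Pool.Agent.H82.GY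

open MeasureTheory Set Complex Filter Topology
open Pool.Agent.H56.GX

/-- mean square bound for `Mz` up to a slowly growing factor (replaces `SBound` of GX) -/
def WB (C : ℝ) : Prop :=
  ∀ X : ℝ, 1 ≤ X → ∫ x in X..2 * X, (Mz x) ^ 2 ≤ C * X ^ 2 * Real.sqrt (1 + Real.log X)

/-- regular functions -/
structure Reg (g : ℝ → ℝ) : Prop where
  mono : Monotone g
  one_le : ∀ X : ℝ, 1 ≤ g X
  dbl : ∀ X : ℝ, g (2 * X) ≤ 2 * g X

/-- the bounds that are refuted: `c H ≤ V(X;H) ≤ B H` for `κ X / g X ≤ H ≤ X / g X`, `X ≥ X₀` -/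
def Hyp (c B κ X₀ : ℝ) (g : ℝ → ℝ) : Prop :=
  ∀ X H : ℝ, X₀ ≤ X → κ * X / g X ≤ H → H ≤ X / g X → c * H ≤ V X H ∧ V X H ≤ B * H

/-- window energies that follow from the upper bound in `Hyp` -/
def WinG (B κ Y₀ : ℝ) (g : ℝ → ℝ) : Prop :=
  ∀ Y k : ℝ, Y₀ ≤ Y → 2 * κ * Y / g Y ≤ k → k ≤ Y / (2 * g Y) →
    ∫ x in Y..2 * Y, (Mz (x + k) - Mz x) ^ 2 ≤ 2 * B * Y * k

/-- window energies near one scale `X`, for windows near one length `h₀` -/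
def LW (B X h₀ : ℝ) : Prop :=
  ∀ Y k : ℝ, X / 8 ≤ Y → Y ≤ 2 * X → h₀ / 2 ≤ k → k ≤ 2 * h₀ →
    ∫ x in Y..2 * Y, (Mz (x + k) - Mz x) ^ 2 ≤ 2 * B * Y * k

/-- mean squares seen from the scale `X` -/
def MSc (D X : ℝ) : Prop :=
  ∀ Y : ℝ, 0 ≤ Y → ∫ x in (0 : ℝ)..Y, (Mz x) ^ 2 ≤ D * Y ^ 2 * (1 + Y / X)

end Pool.Agent.H82.GY
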