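import Mathlib

/-!
GY module Dir: simultaneous recurrence (Dirichlet), with an explicit bound. Pure Mathlib.

Let `n = S.card`, and for `k = 0, ..., N^n` consider the function `b_k : S → Fin N`,
`b_k γ = ⌊N · fract (k τ₀ γ / (2π))⌋`. There are `N^n + 1` values of `k` and `N^n` functions, so
(`Finset.exists_ne_map_eq_of_card_lt_of_maps_to` or `Fintype.exists_ne_map_eq_of_card_lt`) `b_k = b_l` for some `k < l ≤ N^n`.
Put `τ = (l - k) τ₀`. For `γ ∈ S`: the fractional parts of `l τ₀ γ/(2π)` and `k τ₀ γ/(2π)` differ by at most `1/N`, so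
`γ τ / (2π) = integer + e`, `|e| ≤ 1/N`, and `‖exp(i γ τ) - 1‖ = ‖exp(2π i e) - 1‖ ≤ 2π |e| ≤ 2π/N`
(`Complex.norm_exp_I_mul_ofReal_sub_one_le` or `Real.norm_exp_I_mul_ofReal_sub_one_le` or similar: `‖exp(ix) - 1‖ ≤ |x|`).
-/

set_option autoImplicit false

namespace Pool.Agent.H82.GY

open MeasureTheory Set Complex Filter Topology

private lemma Dir_fract {N : ℕ} (hN : 1 ≤ N) {a b : ℝ}
    (h : ⌊(N : ℝ) * Int.fract a⌋₊ = ⌊(N : ℝ) * Int.fract b⌋₊) :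
    |Int.fract a - Int.fract b| ≤ 1 / N := by
  have hN0 : (0 : ℝ) < N := by exact_mod_cast hN
  have ha0 : 0 ≤ (N : ℝ) * Int.fract a := mul_nonneg hN0.le (Int.fract_nonneg a)
  have hb0 : 0 ≤ (N : ℝ) * Int.fract b := mul_nonneg hN0.le (Int.fract_nonneg b)
  have h1 := Nat.floor_le ha0
  have h2 := Nat.lt_floor_add_one ((N : ℝ) * Int.fract a)
  have h3 := Nat.floor_le hb0
  have h4 := Nat.lt_floor_add_one ((N : ℝ) * Int.fract b)
  rw [h] at h1 h2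
  rw [abs_le]
  have e1 : (N : ℝ) * (1 / N) = 1 := by field_simp
  constructor
  · by_contra hc
    push Not at hc
    have := mul_lt_mul_of_pos_left hc hN0
    nlinarith
  · by_contra hc
    push Not at hc
    have := mul_lt_mul_of_pos_left hc hN0
    nlinarith

theorem dirichlet_recur (S : Finset ℝ) (N : ℕ) (hN : 1 ≤ N) (τ₀ : ℝ) (hτ : 0 < τ₀) :
    ∃ τ : ℝ, τ₀ ≤ τ ∧ τ ≤ (N : ℝ) ^ S.card * τ₀ ∧
      ∀ γ ∈ S, ‖Complex.exp ((γ * τ : ℝ) * I) - 1‖ ≤ 2 * Real.pi / N := by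
  classical
  have hN0 : (0 : ℝ) < N := by exact_mod_cast hN
  have hpi : 0 < Real.pi := Real.pi_pos
  let x : ℕ → ℝ → ℝ := fun k γ => k * τ₀ * γ / (2 * Real.pi)
  have hlt : ∀ (k : ℕ) (γ : ℝ), ⌊(N : ℝ) * Int.fract (x k γ)⌋₊ < N := by
    intro k γ
    rw [Nat.floor_lt (mul_nonneg hN0.le (Int.fract_nonneg _))]
    have := Int.fract_lt_one (x k γ)
    nlinarith
  let f : Fin (N ^ S.card + 1) → (S → Fin N) := fun k γ => ⟨⌊(N : ℝ) * Int.fract (x k γ)⌋₊, hlt k γ⟩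
  obtain ⟨k, l, hkl, hf⟩ : ∃ k l : Fin (N ^ S.card + 1), k ≠ l ∧ f k = f l := by
    apply Fintype.exists_ne_map_eq_of_card_lt
    rw [Fintype.card_fun, Fintype.card_fin, Fintype.card_fin, Fintype.card_coe]
    omega
  obtain ⟨k, l, hkl, hf⟩ : ∃ k l : Fin (N ^ S.card + 1), k < l ∧ f k = f l := by
    rcases lt_or_gt_of_ne hkl with h | h
    · exact ⟨k, l, h, hf⟩
    · exact ⟨l, k, h, hf.symm⟩
  have hkl' : (k : ℕ) < (l : ℕ) := hkl
  have hl : (l : ℕ) ≤ N ^ S.card := by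
    have := l.2
    omega
  refine ⟨((l : ℕ) - (k : ℕ) : ℝ) * τ₀, ?_, ?_, ?_⟩
  · have h1 : (1 : ℝ) ≤ ((l : ℕ) - (k : ℕ) : ℝ) := by
      have : ((k : ℕ) : ℝ) + 1 ≤ ((l : ℕ) : ℝ) := by exact_mod_cast hkl'
      linarith
    nlinarith
  · apply mul_le_mul_of_nonneg_right _ hτ.le
    have h1 : ((l : ℕ) : ℝ) ≤ (N : ℝ) ^ S.card := by exact_mod_cast hl
    have h2 : (0 : ℝ) ≤ ((k : ℕ) : ℝ) := Nat.cast_nonneg _
    linarith
  · intro γ hγ
    have h1 := congrFun hf ⟨γ, hγ⟩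
    have h2 : ⌊(N : ℝ) * Int.fract (x k γ)⌋₊ = ⌊(N : ℝ) * Int.fract (x l γ)⌋₊ := by
      have := congrArg Fin.val h1
      exact this
    have h3 := Dir_fract hN h2
    rw [abs_sub_comm] at h3
    have hx : x l γ - x k γ = (⌊x l γ⌋ - ⌊x k γ⌋ : ℤ) + (Int.fract (x l γ) - Int.fract (x k γ)) := by
      push_cast
      have e1 := Int.floor_add_fract (x l γ)
      have e2 := Int.floor_add_fract (x k γ)
      linarith
    set m : ℤ := ⌊x l γ⌋ - ⌊x k γ⌋ with hm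
    set e : ℝ := Int.fract (x l γ) - Int.fract (x k γ) with he
    have h4 : γ * (((l : ℕ) - (k : ℕ) : ℝ) * τ₀) = 2 * Real.pi * (m + e) := by
      rw [← hx]
      simp only [x]
      field_simp
    have h5 : Complex.exp ((γ * (((l : ℕ) - (k : ℕ) : ℝ) * τ₀) : ℝ) * I) = Complex.exp (((2 * Real.pi * e : ℝ)) * I) := by
      rw [h4, Complex.exp_eq_exp_iff_exists_int]
      refine ⟨m, ?_⟩
      push_cast
      ring
    rw [h5]
    have h6 : ‖Complex.exp (((2 * Real.pi * e : ℝ)) * I) - 1‖ ≤ ‖(2 * Real.pi * e : ℝ)‖ := by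
      rw [mul_comm]
      exact Real.norm_exp_I_mul_ofReal_sub_one_le
    refine h6.trans ?_
    rw [Real.norm_eq_abs, abs_mul, abs_of_pos (by positivity : (0 : ℝ) < 2 * Real.pi), div_eq_mul_one_div]
    exact mul_le_mul_of_nonneg_left h3 (by positivity)

end Pool.Agent.H82.GY
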