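import Pool.Agent.H56.GX.JB

/-!
GY module JBu: `J η x` is bounded uniformly in `0 < η ≤ 1`, `x ≥ 1/4`.

The integrand of `J` has norm `exp(η²(1-t²)/2) x^(-1/2) ‖((-1/2+it) ζ(-1/2+it))⁻¹‖ ≤ e^(1/2) · 2 · C / (1+|t|)²`
(`K_norm` with `σ = -1/2`: `(σ - 1/2)² = 1`; `zeta_left`: `‖ζ(-1/2+it)‖ ≥ c (1+|t|)`; `‖-1/2+it‖ ≥ (1+|t|)/3`), and
`∫ (1+|t|)^(-2) dt < ∞`. See the private lemmas in `GX/JB.lean` (copy what is needed), where `J_bdd` is proved with a constant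
that depends on `η`.
-/

set_option autoImplicit false

namespace Pool.Agent.H82.GY

open MeasureTheory Set Complex Filter Topology
open Pool.Agent.H56.GX

/-- the point `-1/2 + it` -/
private noncomputable def JBu_s (t : ℝ) : ℂ := -(1 / 2) + t * I

private lemma JBu_s_re (t : ℝ) : (JBu_s t).re = -(1 / 2) := by simp [JBu_s]

private lemma JBu_s_im (t : ℝ) : (JBu_s t).im = t := by simp [JBu_s]

private lemma JBu_s_norm (t : ℝ) : 1 + |t| ≤ 3 * ‖JBu_s t‖ := by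
  have h1 := Complex.abs_re_le_norm (JBu_s t)
  have h2 := Complex.abs_im_le_norm (JBu_s t)
  rw [JBu_s_re] at h1
  rw [JBu_s_im] at h2
  have h3 : |(-(1 / 2) : ℝ)| = 1 / 2 := by norm_num
  rw [h3] at h1
  linarith

private lemma JBu_K_norm (η t : ℝ) : ‖K η (JBu_s t)‖ = Real.exp (η ^ 2 * (1 - t ^ 2) / 2) := by
  have h := K_norm η (-(1 / 2)) t
  have e : (((-(1 / 2) : ℝ) : ℂ) + t * I) = JBu_s t := by
    rw [JBu_s]; push_cast; ring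
  rw [e] at h
  rw [h]
  norm_num

private lemma JBu_zeta_inv (c : ℝ) (hc : 0 < c)
    (h : ∀ t : ℝ, c * (1 + |t|) ≤ ‖riemannZeta (-(1 / 2) + t * I)‖) (t : ℝ) :
    riemannZeta (JBu_s t) ≠ 0 ∧ ‖(riemannZeta (JBu_s t))⁻¹‖ ≤ (c * (1 + |t|))⁻¹ := by
  have h1 : c * (1 + |t|) ≤ ‖riemannZeta (JBu_s t)‖ := h t
  have h2 : 0 < c * (1 + |t|) := by positivity
  refine ⟨norm_pos_iff.1 (h2.trans_le h1), ?_⟩
  rw [norm_inv]
  exact inv_anti₀ h2 h1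

private lemma JBu_inv_norm (c : ℝ) (hc : 0 < c)
    (h : ∀ t : ℝ, c * (1 + |t|) ≤ ‖riemannZeta (-(1 / 2) + t * I)‖) (t : ℝ) :
    ‖(JBu_s t * riemannZeta (JBu_s t))⁻¹‖ ≤ 3 / c * (1 + ‖t‖) ^ (-2 : ℝ) := by
  obtain ⟨h0, h1⟩ := JBu_zeta_inv c hc h t
  have h2 := JBu_s_norm t
  have h3 : 0 ≤ |t| := abs_nonneg t
  have h4 : ‖(JBu_s t)⁻¹‖ ≤ 3 * (1 + |t|)⁻¹ := by
    rw [norm_inv]
    have h5 : (3 * (1 + |t|)⁻¹) = ((1 + |t|) / 3)⁻¹ := by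
      rw [inv_div, div_eq_mul_inv]
    rw [h5]
    exact inv_anti₀ (by positivity) (by linarith)
  rw [mul_inv, norm_mul, Real.norm_eq_abs]
  have h6 : (1 + |t|) ^ (-2 : ℝ) = (1 + |t|)⁻¹ * (1 + |t|)⁻¹ := by
    rw [Real.rpow_neg (by positivity), ← mul_inv]
    norm_num [sq]
  rw [h6]
  calc ‖(JBu_s t)⁻¹‖ * ‖(riemannZeta (JBu_s t))⁻¹‖ ≤ (3 * (1 + |t|)⁻¹) * (c * (1 + |t|))⁻¹ :=
        mul_le_mul h4 h1 (norm_nonneg _) (by positivity)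
    _ = 3 / c * ((1 + |t|)⁻¹ * (1 + |t|)⁻¹) := by rw [mul_inv, div_eq_mul_inv]; ring

/-- the integrand of `J` -/
private noncomputable def JBu_G (η x t : ℝ) : ℂ :=
  K η (JBu_s t) * (x : ℂ) ^ (JBu_s t) * (JBu_s t * riemannZeta (JBu_s t))⁻¹

private lemma JBu_J_eq (η x : ℝ) : J η x = (2 * Real.pi : ℂ)⁻¹ * ∫ t : ℝ, JBu_G η x t := rfl

private lemma JBu_two_pi : ‖((2 * Real.pi : ℂ))⁻¹‖ ≤ 1 := by
  rw [norm_inv, norm_mul]
  have h1 : ‖(2 : ℂ)‖ = 2 := by norm_num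
  have h2 : ‖(Real.pi : ℂ)‖ = Real.pi := by
    rw [Complex.norm_real, Real.norm_of_nonneg Real.pi_pos.le]
  rw [h1, h2]
  refine inv_le_one_of_one_le₀ ?_
  linarith [Real.pi_gt_three]

theorem J_bdd_unif : ∃ C : ℝ, 0 < C ∧ ∀ η x : ℝ, 0 < η → η ≤ 1 → 1 / 4 ≤ x → ‖J η x‖ ≤ C := by
  obtain ⟨c, hc, h⟩ := zeta_left
  have hint : Integrable (fun t : ℝ => (1 + ‖t‖) ^ (-2 : ℝ)) := by
    refine integrable_one_add_norm ?_
    rw [Module.finrank_self]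
    norm_num
  set B : ℝ := ∫ t : ℝ, (1 + ‖t‖) ^ (-2 : ℝ) with hB
  have hB0 : 0 ≤ B := integral_nonneg fun t => by positivity
  refine ⟨12 / c * B + 1, by positivity, fun η x hη hη1 hx => ?_⟩
  have hx0 : 0 < x := by linarith
  have h2 : x ^ (-(1 / 2) : ℝ) ≤ 2 := by
    have h3 : x ^ (-(1 / 2) : ℝ) ≤ (1 / 4 : ℝ) ^ (-(1 / 2) : ℝ) :=
      Real.rpow_le_rpow_of_nonpos (by norm_num) hx (by norm_num)
    have h4 : (1 / 4 : ℝ) ^ (-(1 / 2) : ℝ) = 2 := by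
      rw [Real.rpow_neg (by norm_num), ← Real.sqrt_eq_rpow,
        show (1 / 4 : ℝ) = (1 / 2) ^ 2 by norm_num, Real.sqrt_sq (by norm_num)]
      norm_num
    linarith
  have hbd : ∀ t : ℝ, ‖JBu_G η x t‖ ≤ (12 / c) * (1 + ‖t‖) ^ (-2 : ℝ) := by
    intro t
    rw [JBu_G, norm_mul, norm_mul, JBu_K_norm, Complex.norm_cpow_eq_rpow_re_of_pos hx0, JBu_s_re]
    have h1 := JBu_inv_norm c hc h t
    have h5 : Real.exp (η ^ 2 * (1 - t ^ 2) / 2) ≤ 2 := by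
      have h3 : Real.exp (η ^ 2 * (1 - t ^ 2) / 2) ≤ Real.exp (1 / 2) := by
        refine Real.exp_le_exp.2 ?_
        have ha : 0 ≤ η ^ 2 * t ^ 2 := by positivity
        have hb : η ^ 2 ≤ 1 := by nlinarith
        nlinarith
      have h4 : Real.exp (1 / 2) ≤ 2 := by
        have h5 : Real.exp (1 / 2) ^ 2 ≤ 2 ^ 2 := by
          rw [← Real.exp_nat_mul]
          have := Real.exp_one_lt_d9
          norm_num
          linarith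
        exact (sq_le_sq₀ (Real.exp_pos _).le (by norm_num)).1 h5
      exact h3.trans h4
    calc Real.exp (η ^ 2 * (1 - t ^ 2) / 2) * x ^ (-(1 / 2) : ℝ) *
          ‖(JBu_s t * riemannZeta (JBu_s t))⁻¹‖
        ≤ 2 * 2 * (3 / c * (1 + ‖t‖) ^ (-2 : ℝ)) := by
          gcongr
      _ = (12 / c) * (1 + ‖t‖) ^ (-2 : ℝ) := by ring
  have hI : ‖∫ t : ℝ, JBu_G η x t‖ ≤ (12 / c) * B := by
    rw [hB, ← integral_const_mul]
    exact norm_integral_le_of_norm_le (hint.const_mul _) (Filter.Eventually.of_forall hbd)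
  rw [JBu_J_eq, norm_mul]
  calc ‖((2 * Real.pi : ℂ))⁻¹‖ * ‖∫ t : ℝ, JBu_G η x t‖ ≤ 1 * (12 / c * B) :=
        mul_le_mul JBu_two_pi hI (norm_nonneg _) zero_le_one
    _ ≤ 12 / c * B + 1 := by linarith

end Pool.Agent.H82.GY
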