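import Pool.Agent.H82.GY.WSum
import Pool.Agent.H82.GY.Dir

/-!
GY module RecurQ: quantitative recurrence.

Let `D, m` be as in `asum`, `A₀` as in `zcount`. Put `ℓ = log (1/η) ≥ log 2 > 1/2`. Choose a constant `K ≥ 1` with
`K² ℓ²/4 ≥ (m + 2) ℓ + log (4 D)` for all `ℓ ≥ 1/2` and with `K ≥ 4`; `U = K ℓ / η` (so `U ≥ 1`). Then the tail satisfies
`∑_{|γ| > U} ‖a‖ ‖exp(iγτ) - 1‖ ≤ 2 D (1/η)^m exp(-K²ℓ²/4) ≤ η²/2`.
Let `S` be the finite set of `γ ∈ Zr` with `|γ| ≤ U` (`zcount` bounds the cardinality of all its finite subsets, so it is finite;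
or `IsCompact.inter_riemannZetaZeros_finite`), `n = S.card ≤ A₀ U log(2+U)`, and `N = ⌈4 π D (1/η)^(m+2)⌉₊ + 1`. With `τ` from
`dirichlet_recur`: `∑_{γ ∈ S} ‖a‖ ‖exp(iγτ) - 1‖ ≤ (2π/N) D (1/η)^m ≤ η²/2`.
Finally `N^n = exp(n log N)`, `log N ≤ K₁ ℓ` and `log(2+U) ≤ K₂ ℓ` (constants depending on `D, m, K`; `ℓ ≥ log 2`), so
`n log N ≤ A₀ K (ℓ/η) K₂ ℓ K₁ ℓ = D' (1/η) ℓ³`.
(The tsum over `Zr` splits as `∑ (if |γ| ≤ U ...) + ∑ (if U < |γ| ...)`.)
-/

set_option autoImplicit false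

namespace Pool.Agent.H82.GY

open MeasureTheory Set Complex Filter Topology
open Pool.Agent.H56.GX

private lemma RecurQ_finite (A₀ U : ℝ) (hz : ∀ S : Finset ℝ, (∀ γ ∈ S, γ ∈ Zr ∧ |γ| ≤ U) →
    (S.card : ℝ) ≤ A₀ * U * Real.log (2 + U)) : {γ : ℝ | γ ∈ Zr ∧ |γ| ≤ U}.Finite := by
  by_contra hinf
  have hinf' : {γ : ℝ | γ ∈ Zr ∧ |γ| ≤ U}.Infinite := hinf
  obtain ⟨T, hT, hTc⟩ := hinf'.exists_subset_card_eq (⌊A₀ * U * Real.log (2 + U)⌋₊ + 1)
  have h1 := hz T (fun γ hγ => hT hγ)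
  rw [hTc] at h1
  push_cast at h1
  have h2 := Nat.lt_floor_add_one (A₀ * U * Real.log (2 + U))
  linarith

theorem recurQ (A : ℝ) (k : ℕ) (hA : 0 < A) (hr : ∀ γ ∈ Zr, ‖r γ‖ ≤ A * (1 + |γ|) ^ k) :
    ∃ D' : ℝ, 0 < D' ∧ ∀ η τ₀ : ℝ, 0 < η → η ≤ 1 / 2 → 1 ≤ τ₀ →
      ∃ τ : ℝ, τ₀ ≤ τ ∧ τ ≤ τ₀ * Real.exp (D' * (1 / η) * (Real.log (1 / η)) ^ 3) ∧
        ∑' γ : Zr, ‖a η γ‖ * ‖Complex.exp (((γ : ℝ) * τ : ℝ) * I) - 1‖ ≤ η ^ 2 := by
  obtain ⟨D, m, hD, hs⟩ := asum A k hA hr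
  obtain ⟨A₀, hA₀, hz⟩ := zcount
  have hpi := Real.pi_pos
  obtain ⟨K, hKdef⟩ : ∃ K : ℝ, K = 4 + 4 * ((m : ℝ) + 2) + 4 * |Real.log (4 * D)| := ⟨_, rfl⟩
  have hm0 : (0 : ℝ) ≤ (m : ℝ) := Nat.cast_nonneg m
  have habs : 0 ≤ |Real.log (4 * D)| := abs_nonneg _
  have hK4 : 4 ≤ K := by rw [hKdef]; linarith
  obtain ⟨K₁, hK₁⟩ : ∃ K₁ : ℝ, K₁ = 2 * Real.log (4 * Real.pi * D + 2) + ((m : ℝ) + 2) := ⟨_, rfl⟩
  obtain ⟨K₂, hK₂⟩ : ∃ K₂ : ℝ, K₂ = 2 * Real.log (2 * K) + 2 := ⟨_, rfl⟩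
  have hlogD : 0 ≤ Real.log (4 * Real.pi * D + 2) := Real.log_nonneg (by
    have : 0 < 4 * Real.pi * D := by positivity
    linarith)
  have hlogK : 0 ≤ Real.log (2 * K) := Real.log_nonneg (by linarith)
  have hK₁0 : 0 < K₁ := by rw [hK₁]; linarith
  have hK₂0 : 0 < K₂ := by rw [hK₂]; linarith
  have hK0 : 0 < K := by linarith
  refine ⟨A₀ * K * K₂ * K₁, by positivity, ?_⟩
  intro η τ₀ hη hη2 hτ₀
  obtain ⟨l, hl⟩ : ∃ l : ℝ, l = Real.log (1 / η) := ⟨_, rfl⟩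
  have hη1 : η ≤ 1 := by linarith
  have h1η : 2 ≤ 1 / η := by
    rw [le_div_iff₀ hη]
    linarith
  have h1η0 : 0 < 1 / η := by positivity
  have hl2 : 1 / 2 ≤ l := by
    rw [hl]
    have h1 : Real.log 2 ≤ Real.log (1 / η) := Real.log_le_log (by norm_num) h1η
    have h2 := Real.log_two_gt_d9
    linarith
  have hl0 : 0 < l := by linarith
  have hexpl : Real.exp l = 1 / η := by rw [hl, Real.exp_log h1η0]
  have hll : l ≤ 1 / η := by
    rw [← hexpl]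
    have := Real.add_one_le_exp l
    linarith
  obtain ⟨U, hU⟩ : ∃ U : ℝ, U = K * l / η := ⟨_, rfl⟩
  have hU4 : 4 ≤ U := by
    rw [hU, mul_div_assoc, div_eq_mul_one_div l η]
    have h1 : 1 ≤ l * (1 / η) := by nlinarith
    nlinarith
  have hηU : η * U = K * l := by rw [hU]; field_simp
  obtain ⟨hsum, hsumle, htail⟩ := hs η hη hη1
  have htailU := htail U (by linarith)
  rw [hηU] at htailU
  -- powers of `1/η` as exponentials
  have hpow : ∀ j : ℕ, (1 / η) ^ j = Real.exp (j * l) := by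
    intro j
    rw [← hexpl, ← Real.exp_nat_mul]
  -- the tail
  have hKl : ((m : ℝ) + 2) * l + Real.log (4 * D) ≤ (K * l) ^ 2 / 4 := by
    have h1 : Real.log (4 * D) ≤ |Real.log (4 * D)| := le_abs_self _
    have h2 : K * K ≥ 4 * K := by nlinarith
    have h3 : l * l ≥ l / 2 := by nlinarith
    have h4 : (K * l) ^ 2 / 4 = (K * K) * (l * l) / 4 := by ring
    have h5 : (K * K) * (l * l) ≥ 4 * K * (l / 2) :=
      mul_le_mul h2 h3 (by positivity) (by positivity)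
    have h6 : K * l ≥ (2 * ((m : ℝ) + 2) + 4 * |Real.log (4 * D)|) * l := by
      apply mul_le_mul_of_nonneg_right _ hl0.le
      rw [hKdef]
      linarith
    have h7 : |Real.log (4 * D)| * l ≥ |Real.log (4 * D)| * (1 / 2) := mul_le_mul_of_nonneg_left hl2 habs
    rw [h4]
    nlinarith
  have hexpK : Real.exp (-(K * l) ^ 2 / 4) ≤ (Real.exp (((m : ℝ) + 2) * l) * (4 * D))⁻¹ := by
    have h1 : (Real.exp (((m : ℝ) + 2) * l) * (4 * D))⁻¹ = Real.exp (-(((m : ℝ) + 2) * l + Real.log (4 * D))) := by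
      rw [Real.exp_neg, Real.exp_add, Real.exp_log (by positivity)]
    rw [h1]
    apply Real.exp_le_exp.2
    have : -(K * l) ^ 2 / 4 = -((K * l) ^ 2 / 4) := by ring
    rw [this]
    linarith
  have hη2' : Real.exp (2 * l) = (η ^ 2)⁻¹ := by
    have := hpow 2
    push_cast at this
    rw [← this]
    field_simp
  have hexpm2 : Real.exp (((m : ℝ) + 2) * l) = (1 / η) ^ m * (η ^ 2)⁻¹ := by
    rw [hpow m, ← hη2', ← Real.exp_add]
    ring_nf
  have hηm : 0 < (1 / η) ^ m := by positivity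
  have htail2 : D * (1 / η) ^ m * Real.exp (-(K * l) ^ 2 / 4) ≤ η ^ 2 / 4 := by
    calc D * (1 / η) ^ m * Real.exp (-(K * l) ^ 2 / 4)
        ≤ D * (1 / η) ^ m * (Real.exp (((m : ℝ) + 2) * l) * (4 * D))⁻¹ :=
          mul_le_mul_of_nonneg_left hexpK (by positivity)
      _ = η ^ 2 / 4 := by
          rw [hexpm2]
          field_simp
  -- the modulus of the recurrence
  obtain ⟨N, hN⟩ : ∃ N : ℕ, N = ⌈4 * Real.pi * D * (1 / η) ^ (m + 2)⌉₊ + 1 := ⟨_, rfl⟩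
  have hN1 : 1 ≤ N := by omega
  have hN0 : (0 : ℝ) < N := by exact_mod_cast hN1
  have hNge : 4 * Real.pi * D * (1 / η) ^ (m + 2) ≤ N := by
    rw [hN]
    push_cast
    have := Nat.le_ceil (4 * Real.pi * D * (1 / η) ^ (m + 2))
    linarith
  have hone : 1 ≤ (1 / η) ^ (m + 2) := one_le_pow₀ (by linarith)
  have hNle : (N : ℝ) ≤ (4 * Real.pi * D + 2) * (1 / η) ^ (m + 2) := by
    rw [hN]
    push_cast
    have h1 : 0 ≤ 4 * Real.pi * D * (1 / η) ^ (m + 2) := by positivity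
    have := Nat.ceil_lt_add_one h1
    nlinarith
  have hlogN : Real.log N ≤ K₁ * l := by
    have h1 : Real.log N ≤ Real.log ((4 * Real.pi * D + 2) * (1 / η) ^ (m + 2)) := Real.log_le_log hN0 hNle
    rw [Real.log_mul (by positivity) (by positivity), Real.log_pow, ← hl] at h1
    push_cast at h1
    rw [hK₁]
    nlinarith
  have hlogN0 : 0 ≤ Real.log N := Real.log_nonneg (by exact_mod_cast hN1)
  have hfin := RecurQ_finite A₀ U (fun S hS => hz U S (by linarith) hS)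
  have hcard : (hfin.toFinset.card : ℝ) ≤ A₀ * U * Real.log (2 + U) :=
    hz U _ (by linarith) (fun γ hγ => (hfin.mem_toFinset).1 hγ)
  have hlogU : Real.log (2 + U) ≤ K₂ * l := by
    have h1 : 2 + U ≤ 2 * K * (1 / η) ^ 2 := by
      have h2 : U ≤ K * (1 / η) ^ 2 := by
        rw [hU, mul_div_assoc, div_eq_mul_one_div l η, pow_two]
        apply mul_le_mul_of_nonneg_left _ hK0.le
        exact mul_le_mul_of_nonneg_right hll h1η0.le
      nlinarith
    have h2 := Real.log_le_log (by linarith) h1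
    rw [Real.log_mul (by positivity) (by positivity), Real.log_pow, ← hl] at h2
    push_cast at h2
    rw [hK₂]
    nlinarith
  obtain ⟨τ, hτ1, hτ2, hτ3⟩ := dirichlet_recur hfin.toFinset N hN1 τ₀ (by linarith)
  refine ⟨τ, hτ1, ?_, ?_⟩
  · have h1 : (N : ℝ) ^ hfin.toFinset.card ≤ Real.exp (A₀ * K * K₂ * K₁ * (1 / η) * l ^ 3) := by
      have h2 : (N : ℝ) ^ hfin.toFinset.card = Real.exp (hfin.toFinset.card * Real.log N) := by
        rw [Real.exp_nat_mul, Real.exp_log hN0]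
      rw [h2]
      apply Real.exp_le_exp.2
      calc (hfin.toFinset.card : ℝ) * Real.log N ≤ (A₀ * U * Real.log (2 + U)) * (K₁ * l) :=
            mul_le_mul hcard hlogN hlogN0 ((Nat.cast_nonneg _).trans hcard)
        _ ≤ (A₀ * U * (K₂ * l)) * (K₁ * l) := by
            apply mul_le_mul_of_nonneg_right _ (by positivity)
            apply mul_le_mul_of_nonneg_left hlogU
            have : 0 < U := by linarith
            positivity
        _ = A₀ * K * K₂ * K₁ * (1 / η) * l ^ 3 := by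
            rw [hU]
            field_simp
    rw [← hl]
    have h3 := mul_le_mul_of_nonneg_right h1 (by linarith : (0 : ℝ) ≤ τ₀)
    linarith
  · -- the sum
    have hsumt : Summable (fun γ : Zr => if U < |(γ : ℝ)| then ‖a η γ‖ else 0) := by
      refine Summable.of_nonneg_of_le (fun γ => ?_) (fun γ => ?_) hsum
      · split_ifs
        · exact norm_nonneg _
        · exact le_rfl
      · split_ifs
        · exact le_rfl
        · exact norm_nonneg _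
    have hpt : ∀ γ : Zr, ‖a η γ‖ * ‖Complex.exp (((γ : ℝ) * τ : ℝ) * I) - 1‖ ≤
        2 * Real.pi / N * ‖a η γ‖ + 2 * (if U < |(γ : ℝ)| then ‖a η γ‖ else 0) := by
      intro γ
      have h0 : 0 ≤ ‖a η γ‖ := norm_nonneg _
      by_cases hγ : U < |(γ : ℝ)|
      · rw [if_pos hγ]
        have h1 : ‖Complex.exp (((γ : ℝ) * τ : ℝ) * I) - 1‖ ≤ 2 := by
          refine (norm_sub_le _ _).trans ?_
          rw [Complex.norm_exp_ofReal_mul_I, norm_one]
          norm_num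
        have h2 := mul_le_mul_of_nonneg_left h1 h0
        have h3 : 0 ≤ 2 * Real.pi / N * ‖a η γ‖ := by positivity
        linarith
      · rw [if_neg hγ]
        have h1 := hτ3 (γ : ℝ) ((hfin.mem_toFinset).2 ⟨γ.2, not_lt.1 hγ⟩)
        have h2 := mul_le_mul_of_nonneg_left h1 h0
        linarith
    have hsR : Summable (fun γ : Zr => 2 * Real.pi / N * ‖a η γ‖ +
        2 * (if U < |(γ : ℝ)| then ‖a η γ‖ else 0)) := (hsum.mul_left _).add (hsumt.mul_left _)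
    have hsL : Summable (fun γ : Zr => ‖a η γ‖ * ‖Complex.exp (((γ : ℝ) * τ : ℝ) * I) - 1‖) :=
      Summable.of_nonneg_of_le (fun γ => mul_nonneg (norm_nonneg _) (norm_nonneg _)) hpt hsR
    have h1 := hsL.tsum_le_tsum hpt hsR
    rw [(hsum.mul_left _).tsum_add (hsumt.mul_left _), tsum_mul_left, tsum_mul_left] at h1
    have h2 : 2 * Real.pi / N * ∑' γ : Zr, ‖a η γ‖ ≤ η ^ 2 / 2 := by
      have h3 : 2 * Real.pi / N * ∑' γ : Zr, ‖a η γ‖ ≤ 2 * Real.pi / N * (D * (1 / η) ^ m) :=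
        mul_le_mul_of_nonneg_left hsumle (by positivity)
      have h4 : 2 * Real.pi / N * (D * (1 / η) ^ m) ≤ η ^ 2 / 2 := by
        rw [div_mul_eq_mul_div, div_le_iff₀ hN0]
        have h5 : 2 * Real.pi * (D * (1 / η) ^ m) = η ^ 2 / 2 * (4 * Real.pi * D * (1 / η) ^ (m + 2)) := by
          rw [pow_add]
          field_simp
          ring
        rw [h5]
        exact mul_le_mul_of_nonneg_left hNge (by positivity)
      exact h3.trans h4
    have h5 : 2 * ∑' γ : Zr, (if U < |(γ : ℝ)| then ‖a η γ‖ else 0) ≤ η ^ 2 / 2 := by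
      linarith
    linarith

end Pool.Agent.H82.GY
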