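import Pool.Agent.H82.GY.Defs
import Pool.Agent.H56.GX.MzB

/-!
GY module SBY: the window bounds imply mean square bounds for `Mz`. (Adapt `GX/SB.lean`, 229 lines.)

(1) `sb`. Write `b X = ∫_X^{2X} Mz²`. Let `X ≥ 4 Y₀`, `G = g X`, `k₀ = ⌈4 G⌉₊` (so `4 G ≤ k₀ ≤ 5 G`, as `G ≥ 1`),
`h = X / (2 k₀)`. For every `Y ∈ [X/2, 2X]`: `G/2 ≤ g (X/2) ≤ g Y ≤ g (2X) ≤ 2 G` (`dbl`, `mono`), so
`Y / (2 g Y) ≥ (X/2)/(4G) = X/(8G) ≥ h` and `2 κ Y / g Y ≤ 4 κ X / (G/2) = 8 κ X / G ≤ X / (10 G) ≤ h`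
(`κ ≤ 1/128`). Hence `∫_Y^{2Y} (Mz (x+h) - Mz x)² ≤ 2 B Y h` by `WinG`.
Shifts: for `j < 2 k₀` the function `x ↦ Mz (x + (j+1) h) - Mz (x + j h)` on `[X/2, X]` has
`∫ (...)² = ∫_{X/2 + jh}^{X + jh} (Mz (x+h) - Mz x)² dx ≤ 2 B (3X/2) h = 3 B X h` (the interval is contained in `[Y, 2Y]`
with `Y = X/2 + jh ≤ 3X/2`). With `(u + v)² ≤ (3/2) u² + 3 v²` and Cauchy-Schwarz, for `m ≤ 2 k₀`:
`∫_{X/2}^X Mz (x + m h)² dx ≤ (3/2) b(X/2) + 3 m² · 3 B X h ≤ (3/2) b(X/2) + 3 (2k₀)² 3 B X² / (2k₀)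
 = (3/2) b(X/2) + 18 B k₀ X² ≤ (3/2) b(X/2) + 90 B G X²`. Apply this with `m = k₀` (`mh = X/2`, gives `∫_X^{3X/2} Mz²`)
and `m = 2 k₀` (`mh = X`, gives `∫_{3X/2}^{2X} Mz²`): `b X ≤ 3 b(X/2) + 180 B g(X) X²` for `X ≥ 4 Y₀`.
Trivial bound `b X ≤ 4 X³` (`|Mz x| ≤ x`), so `b X ≤ 16 Y₀ X² ≤ 16 Y₀ X² g X` for `X ≤ 4 Y₀`.
Claim `b X ≤ C X² g X` for `X ≥ 1` with `C = max (16 Y₀) (720 B) + 1` (induction on `n` for `X ≤ 4 Y₀ 2^n`):
`b X ≤ 3 C (X/2)² g(X/2) + 180 B g(X) X² ≤ (3/4) C X² g X + (1/4) C X² g X`.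
(For `X/2 < 1`: not needed, since `X ≥ 4 Y₀ ≥ 4`.)

(2) `low_int_g`: as `low_int` in `GX/Low.lean` (dyadic blocks; `g (Y/2^k) ≤ g Y`; `Mz = 0` on `(0,1)`, the block that contains
`1` is `≤ Z²`-type as in `low_dyadic` there).

(3) `g_scale`: for `0 < X`: if `Y ≤ X` then `g Y ≤ g X`. Otherwise let `n` be minimal with `Y ≤ 2^n X`; then `2^n ≤ 2 Y / X` and
`g Y ≤ g (2^n X) ≤ 2^n g X ≤ 2 (Y/X) g X` (`dbl` iterated).
(4) `msc_of_sb`: `∫_0^Y Mz² ≤ C Y² g Y ≤ 2 C g(X) Y² (1 + Y/X)`.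
(5) `wb_of_slow`: for `X ≥ max X₁ 3` (say): `g X ≤ (log log X)^θ ≤ max 1 (log log X) ≤ 2 √(1 + log X)` (use
`Real.add_one_le_exp` / `Real.log_le_sub_one_of_pos`: `log y ≤ 2 √y` for `y > 0`); if `log log X < 1` then
`(log log X)^θ ≤ 1` when `log log X ≥ 0` (take `X ≥ e`). For `1 ≤ X ≤ X₂`: `g X ≤ g X₂ ≤ g X₂ √(1 + log X)`.
-/

set_option autoImplicit false

namespace Pool.Agent.H82.GY

open MeasureTheory Set Complex Filter Topology
open Pool.Agent.H56.GX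

private theorem SBY_pointwise (x k : ℝ) (m : ℕ) :
    (Mz (x + m * k)) ^ 2 ≤ 3 / 2 * (Mz x) ^ 2
      + 3 * m * ∑ j ∈ Finset.range m,
        (Mz (x + ((j + 1 : ℕ) : ℝ) * k) - Mz (x + (j : ℝ) * k)) ^ 2 := by
  have h1 := Finset.sum_range_sub (fun j : ℕ => Mz (x + (j : ℝ) * k)) m
  have h2 := sq_sum_le_card_mul_sum_sq (s := Finset.range m)
    (f := fun j : ℕ => Mz (x + ((j + 1 : ℕ) : ℝ) * k) - Mz (x + (j : ℝ) * k))
  rw [h1, Finset.card_range, Nat.cast_zero, zero_mul, add_zero] at h2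
  set u := Mz x
  set w := Mz (x + m * k)
  set S := ∑ j ∈ Finset.range m, (Mz (x + ((j + 1 : ℕ) : ℝ) * k) - Mz (x + (j : ℝ) * k)) ^ 2
  nlinarith [sq_nonneg (u - 2 * (w - u))]

private theorem SBY_shift_int (a b c : ℝ) :
    IntervalIntegrable (fun x => (Mz (x + c)) ^ 2) volume a b := by
  have h := (Mz_sq_intervalIntegrable (a + c) (b + c)).comp_add_right c
  simpa using h

private theorem SBY_trivial (X : ℝ) (hX : 0 ≤ X) : ∫ x in X..2 * X, (Mz x) ^ 2 ≤ 4 * X ^ 3 := by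
  have h1 : ∫ x in X..2 * X, (Mz x) ^ 2 ≤ ∫ x in X..2 * X, (4 * X ^ 2) := by
    apply intervalIntegral.integral_mono_on (by linarith) (Mz_sq_intervalIntegrable _ _)
      intervalIntegrable_const
    intro x hx
    have h2 := Mz_abs_le x (hX.trans hx.1)
    have h3 : |Mz x| ≤ 2 * X := h2.trans hx.2
    rw [← sq_abs]
    nlinarith [abs_nonneg (Mz x)]
  refine h1.trans ?_
  rw [intervalIntegral.integral_const, smul_eq_mul]
  nlinarith

private theorem SBY_rec (B κ Y₀ : ℝ) (g : ℝ → ℝ) (hg : Reg g) (hB : 0 ≤ B) (hκ : 0 < κ)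
    (hκ' : κ ≤ 1 / 128) (hY : 1 ≤ Y₀) (hW : WinG B κ Y₀ g) (X : ℝ) (hX : 4 * Y₀ ≤ X) :
    ∫ x in X..2 * X, (Mz x) ^ 2 ≤
      3 * (∫ x in (X / 2)..X, (Mz x) ^ 2) + 240 * B * g X * X ^ 2 := by
  have hX0 : 0 < X := by linarith
  set G : ℝ := g X with hG
  have hG1 : 1 ≤ G := hg.one_le X
  have hG0 : 0 < G := by linarith
  set k : ℕ := ⌈4 * G⌉₊ with hk
  have hk1 : 4 * G ≤ (k : ℝ) := Nat.le_ceil _
  have hk2 : (k : ℝ) ≤ 5 * G := by
    have := Nat.ceil_lt_add_one (show 0 ≤ 4 * G by linarith)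
    linarith
  have hk0 : (1 : ℝ) ≤ k := by linarith
  have hkpos : (0 : ℝ) < k := by linarith
  set η : ℝ := X / (2 * k) with hη
  have hη0 : 0 < η := by positivity
  have hkη : (k : ℝ) * η = X / 2 := by rw [hη]; field_simp
  have h2kη : ((2 * k : ℕ) : ℝ) * η = X := by
    push_cast
    rw [mul_assoc, hkη]; ring
  have hwin : ∀ j : ℕ, j < 2 * k →
      ∫ x in (X / 2)..X, (Mz (x + ((j + 1 : ℕ) : ℝ) * η) - Mz (x + (j : ℝ) * η)) ^ 2
        ≤ 4 * B * X * η := by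
    intro j hj
    have hjη0 : 0 ≤ (j : ℝ) * η := by positivity
    have hjη : (j : ℝ) * η ≤ X := by
      rw [← h2kη]
      apply mul_le_mul_of_nonneg_right _ hη0.le
      exact_mod_cast hj.le
    have e1 : ∫ x in (X / 2)..X, (Mz (x + ((j + 1 : ℕ) : ℝ) * η) - Mz (x + (j : ℝ) * η)) ^ 2
        = ∫ x in (X / 2 + j * η)..(X + j * η), (Mz (x + η) - Mz x) ^ 2 := by
      rw [← intervalIntegral.integral_comp_add_right (fun x => (Mz (x + η) - Mz x) ^ 2) (j * η)]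
      apply intervalIntegral.integral_congr
      intro x _
      show (Mz (x + ((j + 1 : ℕ) : ℝ) * η) - Mz (x + (j : ℝ) * η)) ^ 2
        = (Mz (x + j * η + η) - Mz (x + j * η)) ^ 2
      congr 3
      push_cast
      ring
    rw [e1]
    have e2 : ∫ x in (X / 2 + j * η)..(X + j * η), (Mz (x + η) - Mz x) ^ 2
        ≤ ∫ x in (X / 2 + j * η)..2 * (X / 2 + j * η), (Mz (x + η) - Mz x) ^ 2 := by
      apply intervalIntegral.integral_mono_interval le_rfl (by linarith) (by linarith)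
      · exact Filter.Eventually.of_forall (fun x => sq_nonneg _)
      · simpa using Mz_diff_sq_intervalIntegrable (X / 2 + j * η) (2 * (X / 2 + j * η)) η 0
    refine e2.trans ?_
    set Y : ℝ := X / 2 + j * η with hYd
    have hY1 : X / 2 ≤ Y := by linarith
    have hY2 : Y ≤ 2 * X := by linarith
    have hYp : 0 < Y := by linarith
    have hgY1 : G / 2 ≤ g Y := by
      have a1 := hg.dbl (X / 2)
      have a2 := hg.mono hY1
      rw [show 2 * (X / 2) = X by ring] at a1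
      linarith
    have hgY2 : g Y ≤ 2 * G := (hg.mono hY2).trans (hg.dbl X)
    have hgYp : 0 < g Y := by linarith
    have e3 := hW Y η (by linarith) ?_ ?_
    · refine e3.trans ?_
      have : Y * η ≤ 2 * X * η := mul_le_mul_of_nonneg_right hY2 hη0.le
      nlinarith
    · -- `2 κ Y / g Y ≤ η`
      rw [hη, div_le_div_iff₀ hgYp (by positivity)]
      have b1 : κ * Y * (k : ℝ) ≤ 1 / 128 * (2 * X) * (5 * G) := by
        refine mul_le_mul (mul_le_mul hκ' hY2 hYp.le (by norm_num)) hk2 hkpos.le (by positivity)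
      have b2 : X * (G / 2) ≤ X * g Y := mul_le_mul_of_nonneg_left hgY1 hX0.le
      have b3 : 0 ≤ X * G := by positivity
      nlinarith
    · -- `η ≤ Y / (2 g Y)`
      rw [hη, div_le_div_iff₀ (by positivity) (by positivity)]
      have b1 : X * (2 * g Y) ≤ X * (2 * (2 * G)) :=
        mul_le_mul_of_nonneg_left (by linarith) hX0.le
      have b2 : (X / 2) * (2 * (4 * G)) ≤ Y * (2 * k) :=
        mul_le_mul hY1 (by linarith) (by positivity) hYp.le
      nlinarith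
  have hm : ∀ m : ℕ, m ≤ 2 * k →
      ∫ x in (X / 2)..X, (Mz (x + m * η)) ^ 2
        ≤ 3 / 2 * (∫ x in (X / 2)..X, (Mz x) ^ 2) + 120 * B * G * X ^ 2 := by
    intro m hm
    have i1 : ∀ j : ℕ, IntervalIntegrable
        (fun x => (Mz (x + ((j + 1 : ℕ) : ℝ) * η) - Mz (x + (j : ℝ) * η)) ^ 2) volume (X / 2) X :=
      fun j => Mz_diff_sq_intervalIntegrable _ _ _ _
    have i2 : IntervalIntegrable (fun x => 3 * (m : ℝ) * ∑ j ∈ Finset.range m,
        (Mz (x + ((j + 1 : ℕ) : ℝ) * η) - Mz (x + (j : ℝ) * η)) ^ 2) volume (X / 2) X := by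
      apply IntervalIntegrable.const_mul
      have := IntervalIntegrable.sum (Finset.range m) (fun j _ => i1 j)
      simpa [Finset.sum_fn] using this
    have i3 : IntervalIntegrable (fun x => 3 / 2 * (Mz x) ^ 2) volume (X / 2) X :=
      (Mz_sq_intervalIntegrable _ _).const_mul _
    have e1 : ∫ x in (X / 2)..X, (Mz (x + m * η)) ^ 2
        ≤ ∫ x in (X / 2)..X, (3 / 2 * (Mz x) ^ 2 + 3 * (m : ℝ) * ∑ j ∈ Finset.range m,
          (Mz (x + ((j + 1 : ℕ) : ℝ) * η) - Mz (x + (j : ℝ) * η)) ^ 2) := by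
      apply intervalIntegral.integral_mono_on (by linarith) (SBY_shift_int _ _ _) (i3.add i2)
      intro x _
      exact SBY_pointwise x η m
    refine e1.trans ?_
    rw [intervalIntegral.integral_add i3 i2, intervalIntegral.integral_const_mul,
      intervalIntegral.integral_const_mul, intervalIntegral.integral_finsetSum (fun j _ => i1 j)]
    have e2 : ∑ j ∈ Finset.range m, ∫ x in (X / 2)..X,
        (Mz (x + ((j + 1 : ℕ) : ℝ) * η) - Mz (x + (j : ℝ) * η)) ^ 2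
        ≤ m * (4 * B * X * η) := by
      calc _ ≤ ∑ j ∈ Finset.range m, (4 * B * X * η) :=
            Finset.sum_le_sum (fun j hj => hwin j (lt_of_lt_of_le (Finset.mem_range.1 hj) hm))
        _ = m * (4 * B * X * η) := by rw [Finset.sum_const, Finset.card_range, nsmul_eq_mul]
    have hm2 : (m : ℝ) ≤ 2 * k := by exact_mod_cast hm
    have hm0 : (0 : ℝ) ≤ m := Nat.cast_nonneg m
    have e3 : 3 * (m : ℝ) * (m * (4 * B * X * η)) ≤ 120 * B * G * X ^ 2 := by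
      have e4 : (m : ℝ) * m ≤ (2 * k) * (2 * k) := mul_le_mul hm2 hm2 hm0 (by positivity)
      have e5 : 0 ≤ 12 * B * X * η := by positivity
      calc 3 * (m : ℝ) * (m * (4 * B * X * η)) = (m * m) * (12 * B * X * η) := by ring
        _ ≤ ((2 * k) * (2 * k)) * (12 * B * X * η) := mul_le_mul_of_nonneg_right e4 e5
        _ = 48 * B * X * k * (k * η) := by ring
        _ = 24 * B * X ^ 2 * k := by rw [hkη]; ring
        _ ≤ 24 * B * X ^ 2 * (5 * G) := mul_le_mul_of_nonneg_left hk2 (by positivity)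
        _ = 120 * B * G * X ^ 2 := by ring
    have e6 : 3 * (m : ℝ) * ∑ j ∈ Finset.range m, ∫ x in (X / 2)..X,
        (Mz (x + ((j + 1 : ℕ) : ℝ) * η) - Mz (x + (j : ℝ) * η)) ^ 2
        ≤ 3 * (m : ℝ) * (m * (4 * B * X * η)) := mul_le_mul_of_nonneg_left e2 (by positivity)
    linarith
  have s1 : ∫ x in X..2 * X, (Mz x) ^ 2
      = (∫ x in X..(3 / 2 * X), (Mz x) ^ 2) + ∫ x in (3 / 2 * X)..2 * X, (Mz x) ^ 2 :=
    (intervalIntegral.integral_add_adjacent_intervals (Mz_sq_intervalIntegrable _ _)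
      (Mz_sq_intervalIntegrable _ _)).symm
  have s2 : ∫ x in X..(3 / 2 * X), (Mz x) ^ 2 = ∫ x in (X / 2)..X, (Mz (x + k * η)) ^ 2 := by
    rw [intervalIntegral.integral_comp_add_right (fun x => (Mz x) ^ 2) ((k : ℝ) * η), hkη]
    congr 1 <;> ring
  have s3 : ∫ x in (3 / 2 * X)..2 * X, (Mz x) ^ 2
      = ∫ x in (X / 2)..X, (Mz (x + ((2 * k : ℕ) : ℝ) * η)) ^ 2 := by
    rw [intervalIntegral.integral_comp_add_right (fun x => (Mz x) ^ 2) (((2 * k : ℕ) : ℝ) * η),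
      h2kη]
    congr 1 <;> ring
  have t1 := hm k (by omega)
  have t2 := hm (2 * k) le_rfl
  rw [s1, s2, s3]
  linarith

theorem sb (B κ Y₀ : ℝ) (g : ℝ → ℝ) (hg : Reg g) (hB : 0 ≤ B) (hκ : 0 < κ) (hκ' : κ ≤ 1 / 128)
    (hY : 1 ≤ Y₀) (h : WinG B κ Y₀ g) :
    ∃ C : ℝ, 1 ≤ C ∧ ∀ X : ℝ, 1 ≤ X → ∫ x in X..2 * X, (Mz x) ^ 2 ≤ C * X ^ 2 * g X := by
  have hrec := SBY_rec B κ Y₀ g hg hB hκ hκ' hY h
  set C : ℝ := 16 * Y₀ + 960 * B with hC
  have hC1 : 1 ≤ C := by rw [hC]; linarith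
  have hbase : ∀ X : ℝ, 0 ≤ X → X ≤ 4 * Y₀ →
      ∫ x in X..2 * X, (Mz x) ^ 2 ≤ C * X ^ 2 * g X := by
    intro X hX0 hX
    refine (SBY_trivial X hX0).trans ?_
    have h1 : 4 * X ^ 3 ≤ 16 * Y₀ * X ^ 2 := by nlinarith [sq_nonneg X]
    have h2 : 0 ≤ 960 * B * X ^ 2 := by positivity
    have h3 : 4 * X ^ 3 ≤ C * X ^ 2 := by
      rw [hC]
      nlinarith
    have h4 : C * X ^ 2 * 1 ≤ C * X ^ 2 * g X :=
      mul_le_mul_of_nonneg_left (hg.one_le X) (by positivity)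
    linarith
  have hind : ∀ n : ℕ, ∀ X : ℝ, 0 ≤ X → X ≤ 4 * Y₀ * 2 ^ n →
      ∫ x in X..2 * X, (Mz x) ^ 2 ≤ C * X ^ 2 * g X := by
    intro n
    induction n with
    | zero =>
      intro X hX0 hX
      exact hbase X hX0 (by simpa using hX)
    | succ n ih =>
      intro X hX0 hX
      rcases le_total X (4 * Y₀) with hc | hc
      · exact hbase X hX0 hc
      · have h1 := hrec X hc
        have h2 := ih (X / 2) (by linarith) (by rw [pow_succ] at hX; linarith)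
        rw [show 2 * (X / 2) = X by ring] at h2
        have h3 : 960 * B ≤ C := by rw [hC]; linarith
        have hgp : 0 < g X := lt_of_lt_of_le one_pos (hg.one_le X)
        have h4 : 960 * B * (g X * X ^ 2) ≤ C * (g X * X ^ 2) :=
          mul_le_mul_of_nonneg_right h3 (by positivity)
        have h5 : C * (X / 2) ^ 2 * g (X / 2) ≤ C * (X / 2) ^ 2 * g X :=
          mul_le_mul_of_nonneg_left (hg.mono (by linarith)) (by positivity)
        nlinarith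
  refine ⟨C, hC1, ?_⟩
  intro X hX
  obtain ⟨n, hn⟩ := pow_unbounded_of_one_lt X (one_lt_two)
  refine hind n X (by linarith) ?_
  have : (2 : ℝ) ^ n ≤ 4 * Y₀ * 2 ^ n := by
    have : (0 : ℝ) < 2 ^ n := by positivity
    nlinarith
  linarith

private theorem SBY_zero (a b : ℝ) (hab : a ≤ b) (hb : b ≤ 1) :
    ∫ x in a..b, (Mz x) ^ 2 = 0 := by
  apply intervalIntegral.integral_zero_ae
  have h1 : ∀ᵐ x : ℝ, x ≠ b := by
    have : (volume : Measure ℝ) {b} = 0 := by simp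
    have h2 : {x : ℝ | ¬ x ≠ b} = {b} := by
      ext x
      simp
    rw [ae_iff, h2]
    exact this
  filter_upwards [h1] with x hx hx2
  rw [uIoc_of_le hab] at hx2
  have : x < b := lt_of_le_of_ne hx2.2 hx
  rw [Mz_lt_one x (by linarith)]
  simp

private theorem SBY_dyadic (C : ℝ) (hC : 1 ≤ C) (g : ℝ → ℝ) (hg : Reg g)
    (h : ∀ X : ℝ, 1 ≤ X → ∫ x in X..2 * X, (Mz x) ^ 2 ≤ C * X ^ 2 * g X) (Z : ℝ) (hZ : 0 ≤ Z) :
    ∫ x in Z..2 * Z, (Mz x) ^ 2 ≤ C * Z ^ 2 * g Z := by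
  have hgZ := hg.one_le Z
  have hle : C * Z ^ 2 * 1 ≤ C * Z ^ 2 * g Z :=
    mul_le_mul_of_nonneg_left hgZ (by positivity)
  rcases le_or_gt 1 Z with h1 | h1
  · exact h Z h1
  rcases le_or_gt (2 * Z) 1 with h2 | h2
  · rw [SBY_zero Z (2 * Z) (by linarith) h2]
    positivity
  · have h3 : ∫ x in Z..2 * Z, (Mz x) ^ 2 =
        (∫ x in Z..1, (Mz x) ^ 2) + ∫ x in (1 : ℝ)..2 * Z, (Mz x) ^ 2 :=
      (intervalIntegral.integral_add_adjacent_intervals (Mz_sq_intervalIntegrable _ _)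
        (Mz_sq_intervalIntegrable _ _)).symm
    have h4 : ∫ x in (1 : ℝ)..2 * Z, (Mz x) ^ 2 = ∫ x in (1 : ℝ)..2 * Z, (1 : ℝ) := by
      apply intervalIntegral.integral_congr_ae
      apply Filter.Eventually.of_forall
      intro x hx
      rw [uIoc_of_le h2.le] at hx
      have h5 : x < 2 := by
        have := hx.2
        linarith
      rw [Mz_lt_two x hx.1.le h5]
      norm_num
    refine le_trans ?_ hle
    rw [h3, SBY_zero Z 1 h1.le le_rfl, h4, intervalIntegral.integral_const]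
    simp only [smul_eq_mul, mul_one, zero_add]
    nlinarith [sq_nonneg (Z - 1), sq_nonneg Z]

theorem low_int_g (C : ℝ) (hC : 1 ≤ C) (g : ℝ → ℝ) (hg : Reg g)
    (h : ∀ X : ℝ, 1 ≤ X → ∫ x in X..2 * X, (Mz x) ^ 2 ≤ C * X ^ 2 * g X) (Y : ℝ) (hY : 0 ≤ Y) :
    ∫ x in (0 : ℝ)..Y, (Mz x) ^ 2 ≤ C * Y ^ 2 * g Y := by
  have hgY := hg.one_le Y
  have key : ∀ n : ℕ, ∫ x in (Y / 2 ^ n)..Y, (Mz x) ^ 2 ≤
      C * Y ^ 2 * g Y * ((1 - (1 / 4) ^ n) / 3) := by
    intro n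
    induction n with
    | zero => simp
    | succ n ih =>
      have h1 : ∫ x in (Y / 2 ^ (n + 1))..Y, (Mz x) ^ 2 =
          (∫ x in (Y / 2 ^ (n + 1))..(Y / 2 ^ n), (Mz x) ^ 2) + ∫ x in (Y / 2 ^ n)..Y, (Mz x) ^ 2 :=
        (intervalIntegral.integral_add_adjacent_intervals (Mz_sq_intervalIntegrable _ _)
          (Mz_sq_intervalIntegrable _ _)).symm
      have h2 := SBY_dyadic C hC g hg h (Y / 2 ^ (n + 1)) (by positivity)
      have hgm : g (Y / 2 ^ (n + 1)) ≤ g Y :=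
        hg.mono (div_le_self hY (one_le_pow₀ (by norm_num)))
      have h2' : C * (Y / 2 ^ (n + 1)) ^ 2 * g (Y / 2 ^ (n + 1)) ≤
          C * (Y / 2 ^ (n + 1)) ^ 2 * g Y := mul_le_mul_of_nonneg_left hgm (by positivity)
      replace h2 := h2.trans h2'
      have h3 : 2 * (Y / 2 ^ (n + 1)) = Y / 2 ^ n := by
        rw [pow_succ]
        field_simp
      rw [h3] at h2
      rw [h1]
      have h4 : C * (Y / 2 ^ (n + 1)) ^ 2 = C * Y ^ 2 * ((1 / 4) ^ n / 4) := by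
        have h5 : ((2 : ℝ) ^ (n + 1)) ^ 2 = 4 * 4 ^ n := by
          rw [← pow_mul, mul_comm, pow_mul]
          norm_num
          ring
        rw [div_pow, h5, one_div, inv_pow]
        field_simp
      rw [h4] at h2
      calc _ ≤ C * Y ^ 2 * ((1 / 4) ^ n / 4) * g Y +
            C * Y ^ 2 * g Y * ((1 - (1 / 4) ^ n) / 3) := add_le_add h2 ih
        _ = C * Y ^ 2 * g Y * ((1 - (1 / 4) ^ (n + 1)) / 3) := by
          rw [pow_succ]
          ring
  obtain ⟨n, hn⟩ : ∃ n : ℕ, Y < 2 ^ n := pow_unbounded_of_one_lt Y (by norm_num)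
  have h1 : Y / 2 ^ n ≤ 1 := by
    rw [div_le_one (by positivity)]
    exact hn.le
  have h2 : ∫ x in (0 : ℝ)..Y, (Mz x) ^ 2 =
      (∫ x in (0 : ℝ)..(Y / 2 ^ n), (Mz x) ^ 2) + ∫ x in (Y / 2 ^ n)..Y, (Mz x) ^ 2 :=
    (intervalIntegral.integral_add_adjacent_intervals (Mz_sq_intervalIntegrable _ _)
      (Mz_sq_intervalIntegrable _ _)).symm
  rw [h2, SBY_zero 0 (Y / 2 ^ n) (by positivity) h1, zero_add]
  refine (key n).trans ?_
  have h3 : (1 - (1 / 4 : ℝ) ^ n) / 3 ≤ 1 := by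
    have : 0 ≤ (1 / 4 : ℝ) ^ n := by positivity
    linarith
  have h4 : 0 ≤ C * Y ^ 2 * g Y := by positivity
  calc C * Y ^ 2 * g Y * ((1 - (1 / 4) ^ n) / 3) ≤ C * Y ^ 2 * g Y * 1 :=
        mul_le_mul_of_nonneg_left h3 h4
    _ = C * Y ^ 2 * g Y := mul_one _

private theorem SBY_iter (g : ℝ → ℝ) (hg : Reg g) (X : ℝ) (n : ℕ) :
    g (2 ^ n * X) ≤ 2 ^ n * g X := by
  induction n with
  | zero => simp
  | succ n ih =>
    have h1 := hg.dbl (2 ^ n * X)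
    have h2 : (2 : ℝ) ^ (n + 1) * X = 2 * (2 ^ n * X) := by rw [pow_succ]; ring
    rw [h2]
    calc g (2 * (2 ^ n * X)) ≤ 2 * g (2 ^ n * X) := h1
      _ ≤ 2 * (2 ^ n * g X) := by linarith
      _ = 2 ^ (n + 1) * g X := by rw [pow_succ]; ring

theorem g_scale (g : ℝ → ℝ) (hg : Reg g) (X Y : ℝ) (hX : 0 < X) (hY : 0 ≤ Y) :
    g Y ≤ 2 * g X * (1 + Y / X) := by
  have hgX := hg.one_le X
  have hYX : 0 ≤ Y / X := div_nonneg hY hX.le
  rcases le_total Y X with h | h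
  · have h1 := hg.mono h
    nlinarith
  · have h1 : 1 ≤ Y / X := by rwa [le_div_iff₀ hX, one_mul]
    obtain ⟨n, hn1, hn2⟩ := exists_nat_pow_near h1 (one_lt_two : (1 : ℝ) < 2)
    have h2 : Y ≤ 2 ^ (n + 1) * X := by
      rw [div_lt_iff₀ hX] at hn2
      exact hn2.le
    have h3 := (hg.mono h2).trans (SBY_iter g hg X (n + 1))
    have h4 : (2 : ℝ) ^ (n + 1) * g X ≤ 2 * (Y / X) * g X := by
      refine mul_le_mul_of_nonneg_right ?_ (by linarith)
      rw [pow_succ]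
      linarith
    nlinarith

theorem msc_of_sb (C : ℝ) (hC : 1 ≤ C) (g : ℝ → ℝ) (hg : Reg g)
    (h : ∀ X : ℝ, 1 ≤ X → ∫ x in X..2 * X, (Mz x) ^ 2 ≤ C * X ^ 2 * g X) (X : ℝ) (hX : 0 < X) :
    MSc (2 * C * g X) X := by
  intro Y hY
  refine (low_int_g C hC g hg h Y hY).trans ?_
  calc C * Y ^ 2 * g Y ≤ C * Y ^ 2 * (2 * g X * (1 + Y / X)) :=
        mul_le_mul_of_nonneg_left (g_scale g hg X Y hX hY) (by positivity)
    _ = 2 * C * g X * Y ^ 2 * (1 + Y / X) := by ring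

theorem wb_of_slow (C : ℝ) (hC : 1 ≤ C) (g : ℝ → ℝ) (hg : Reg g)
    (h : ∀ X : ℝ, 1 ≤ X → ∫ x in X..2 * X, (Mz x) ^ 2 ≤ C * X ^ 2 * g X) (θ X₁ : ℝ) (hθ : 0 ≤ θ)
    (hθ1 : θ ≤ 1) (hs : ∀ X : ℝ, X₁ ≤ X → g X ≤ (Real.log (Real.log X)) ^ θ) :
    ∃ C' : ℝ, 1 ≤ C' ∧ WB C' := by
  set X₂ : ℝ := max X₁ 3 with hX₂
  have hg2 := hg.one_le X₂
  have hgp : 0 ≤ g X₂ := by linarith
  have hbound : ∀ X : ℝ, 1 ≤ X → g X ≤ (2 + g X₂) * Real.sqrt (1 + Real.log X) := by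
    intro X hX
    have hlog : 0 ≤ Real.log X := Real.log_nonneg hX
    have hsq : 1 ≤ Real.sqrt (1 + Real.log X) := by
      rw [Real.one_le_sqrt]
      linarith
    rcases le_total X X₂ with h1 | h1
    · have h2 := hg.mono h1
      nlinarith
    · have hX1 : X₁ ≤ X := (le_max_left _ _).trans h1
      have hX3 : 3 ≤ X := (le_max_right _ _).trans h1
      have hy : 1 ≤ Real.log X := by
        rw [Real.le_log_iff_exp_le (by linarith)]
        have := Real.exp_one_lt_d9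
        linarith
      have hyp : 0 < Real.log X := by linarith
      have hll : 0 ≤ Real.log (Real.log X) := Real.log_nonneg hy
      have h2 : Real.log (Real.log X) ≤ 2 * Real.sqrt (1 + Real.log X) := by
        have h3 : Real.log (Real.log X) ≤ 2 * Real.sqrt (Real.log X) := by
          have h4 := Real.log_le_sub_one_of_pos (Real.sqrt_pos.2 hyp)
          rw [Real.log_sqrt hyp.le] at h4
          linarith
        have h5 : Real.sqrt (Real.log X) ≤ Real.sqrt (1 + Real.log X) :=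
          Real.sqrt_le_sqrt (by linarith)
        linarith
      have h6 : (Real.log (Real.log X)) ^ θ ≤ 2 * Real.sqrt (1 + Real.log X) := by
        rcases le_total (Real.log (Real.log X)) 1 with h7 | h7
        · have := Real.rpow_le_one hll h7 hθ
          linarith
        · have h8 : (Real.log (Real.log X)) ^ θ ≤ (Real.log (Real.log X)) ^ (1 : ℝ) :=
            Real.rpow_le_rpow_of_exponent_le h7 hθ1
          rw [Real.rpow_one] at h8
          linarith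
      have h9 := hs X hX1
      nlinarith
  refine ⟨C * (2 + g X₂), by nlinarith, fun X hX => ?_⟩
  refine (h X hX).trans ?_
  calc C * X ^ 2 * g X ≤ C * X ^ 2 * ((2 + g X₂) * Real.sqrt (1 + Real.log X)) :=
        mul_le_mul_of_nonneg_left (hbound X hX) (by positivity)
    _ = C * (2 + g X₂) * X ^ 2 * Real.sqrt (1 + Real.log X) := by ring

end Pool.Agent.H82.GY
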