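import Mathlib

/-!
GY module Sel: a slowly growing monotone function is nearly constant on suitable long intervals. Pure Mathlib.

Suppose not: for all `y ≥ y₀`, `G (y + A (2 G y)^θ) > 2 G y`. We may assume `y₀ ≥ max y₁ 1`. Define `y_{k+1} = y_k + A (2 G y_k)^θ`,
`G_k = G y_k`. Then `G_{k+1} > 2 G_k`, so `G_k ≥ 2^k`, and for `j ≤ k`: `G_j ≤ 2^(j-k) G_k`. Hence
`y_{k+1} ≤ y₀ + A ∑_{j ≤ k} (2 G_j)^θ ≤ y₀ + A (2 G_k)^θ ∑_{i ≥ 0} 2^(-iθ) ≤ y₀ + 2 A (2 G_k)^θ` (`θ ≥ 1`)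
`≤ (y₀ + 2 A 2^θ) G_k^θ =: L G_k^θ` (`G_k ≥ 1`), with `L ≥ 1`. So `2 G_k < G_{k+1} = G y_{k+1} ≤ (y_{k+1})^θ' ≤ L^θ' G_k^(θ θ')`, i.e.
`2 G_k^(1 - θθ') < L^θ'` for all `k`, while `G_k ≥ 2^k → ∞` and `1 - θθ' > 0`: contradiction.
(It is convenient to prove by induction the invariant `y_{k} ≤ y₀ + 2 A (2 G_{k-1})^θ`, i.e. `y_{k+1} - y₀ ≤ 2 A (2 G_k)^θ`:
`y_{k+2} - y₀ ≤ 2A (2G_k)^θ + A (2 G_{k+1})^θ ≤ 2 A (G_{k+1})^θ + A (2 G_{k+1})^θ ≤ 2 A (2 G_{k+1})^θ`, as `2 ≤ 2^θ`.)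
-/

set_option autoImplicit false

namespace Pool.Agent.H82.GY

open MeasureTheory Set Filter Topology

theorem select (G : ℝ → ℝ) (hG : Monotone G) (hG1 : ∀ y : ℝ, 1 ≤ G y) (θ θ' A y₁ : ℝ) (hθ : 1 ≤ θ)
    (hθ' : 0 ≤ θ') (hθθ : θ * θ' < 1) (hA : 0 < A) (hslow : ∀ y : ℝ, y₁ ≤ y → G y ≤ y ^ θ') (y₀ : ℝ) :
    ∃ y : ℝ, y₀ ≤ y ∧ G (y + A * (2 * G y) ^ θ) ≤ 2 * G y := by
  classical
  by_contra hcon
  push Not at hcon
  set Y : ℝ := max y₀ (max y₁ 1) with hYdef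
  have hY0 : y₀ ≤ Y := le_max_left _ _
  have hY1 : y₁ ≤ Y := (le_max_left _ _).trans (le_max_right _ _)
  have hY2 : 1 ≤ Y := (le_max_right _ _).trans (le_max_right _ _)
  let y : ℕ → ℝ := fun k => Nat.rec Y (fun _ z => z + A * (2 * G z) ^ θ) k
  have hy0 : y 0 = Y := rfl
  have hys : ∀ k, y (k + 1) = y k + A * (2 * G (y k)) ^ θ := fun k => rfl
  have hpos : ∀ z : ℝ, 0 < A * (2 * G z) ^ θ := fun z => by
    have : 0 < 2 * G z := by linarith [hG1 z]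
    positivity
  have hyY : ∀ k, Y ≤ y k := by
    intro k
    induction k with
    | zero => exact le_of_eq hy0.symm
    | succ k ih => rw [hys]; linarith [hpos (y k)]
  have hg : ∀ k, 2 * G (y k) < G (y (k + 1)) := fun k => by
    rw [hys]
    exact hcon (y k) (hY0.trans (hyY k))
  have hg2 : ∀ k, (2 : ℝ) ^ k ≤ G (y k) := by
    intro k
    induction k with
    | zero => rw [pow_zero]; exact hG1 _
    | succ k ih => rw [pow_succ]; linarith [hg k]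
  have hθ0 : 0 ≤ θ := by linarith
  have h2θ : (2 : ℝ) ≤ 2 ^ θ := by
    calc (2 : ℝ) = 2 ^ (1 : ℝ) := (Real.rpow_one 2).symm
      _ ≤ 2 ^ θ := Real.rpow_le_rpow_of_exponent_le (by norm_num) hθ
  have hinv : ∀ k, y (k + 1) - Y ≤ 2 * A * (2 * G (y k)) ^ θ := by
    intro k
    induction k with
    | zero =>
      rw [hys, hy0]
      have := hpos Y
      nlinarith
    | succ k ih =>
      rw [hys (k + 1)]
      have h1 : (2 * G (y k)) ^ θ ≤ (G (y (k + 1))) ^ θ :=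
        Real.rpow_le_rpow (by linarith [hG1 (y k)]) (hg k).le hθ0
      have h2 : (2 * G (y (k + 1))) ^ θ = 2 ^ θ * (G (y (k + 1))) ^ θ :=
        Real.mul_rpow (by norm_num) (by linarith [hG1 (y (k + 1))])
      have h3 : 0 ≤ (G (y (k + 1))) ^ θ := Real.rpow_nonneg (by linarith [hG1 (y (k + 1))]) _
      have h4 : 2 * A * (2 * G (y k)) ^ θ ≤ 2 * A * (G (y (k + 1))) ^ θ :=
        mul_le_mul_of_nonneg_left h1 (by positivity)
      have h5 : A * (2 * (G (y (k + 1))) ^ θ) ≤ A * (2 ^ θ * (G (y (k + 1))) ^ θ) :=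
        mul_le_mul_of_nonneg_left (mul_le_mul_of_nonneg_right h2θ h3) hA.le
      rw [h2]
      nlinarith
  set L : ℝ := Y + 2 * A * 2 ^ θ with hL
  have hLpos : 0 < L := by positivity
  have hyL : ∀ k, y (k + 1) ≤ L * (G (y k)) ^ θ := by
    intro k
    have h1 := hinv k
    have h2 : (2 * G (y k)) ^ θ = 2 ^ θ * (G (y k)) ^ θ :=
      Real.mul_rpow (by norm_num) (by linarith [hG1 (y k)])
    have h3 : 1 ≤ (G (y k)) ^ θ := Real.one_le_rpow (hG1 _) hθ0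
    rw [h2] at h1
    have h4 : Y ≤ Y * (G (y k)) ^ θ := le_mul_of_one_le_right (by linarith) h3
    rw [hL]
    nlinarith
  have hfin : ∀ k : ℕ, ((2 : ℝ) ^ (1 - θ * θ')) ^ k ≤ L ^ θ' := by
    intro k
    have hgk : 0 < G (y k) := by linarith [hG1 (y k)]
    have h1 : G (y (k + 1)) ≤ L ^ θ' * (G (y k)) ^ (θ * θ') := by
      calc G (y (k + 1)) ≤ (y (k + 1)) ^ θ' := hslow (y (k + 1)) (hY1.trans (hyY (k + 1)))
        _ ≤ (L * (G (y k)) ^ θ) ^ θ' :=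
            Real.rpow_le_rpow (by linarith [hyY (k + 1)]) (hyL k) hθ'
        _ = L ^ θ' * (G (y k)) ^ (θ * θ') := by
            rw [Real.mul_rpow hLpos.le (by positivity), ← Real.rpow_mul hgk.le]
    have h2 : G (y k) ≤ L ^ θ' * (G (y k)) ^ (θ * θ') := by linarith [hg k]
    have h3 : G (y k) = (G (y k)) ^ (1 - θ * θ') * (G (y k)) ^ (θ * θ') := by
      rw [← Real.rpow_add hgk]
      simp
    have h4 : (G (y k)) ^ (1 - θ * θ') ≤ L ^ θ' := by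
      have h5 : 0 < (G (y k)) ^ (θ * θ') := Real.rpow_pos_of_pos hgk _
      refine le_of_mul_le_mul_right ?_ h5
      rw [← h3]
      exact h2
    calc ((2 : ℝ) ^ (1 - θ * θ')) ^ k = ((2 : ℝ) ^ k) ^ (1 - θ * θ') := by
          rw [← Real.rpow_natCast, ← Real.rpow_natCast, ← Real.rpow_mul (by norm_num),
            ← Real.rpow_mul (by norm_num), mul_comm]
      _ ≤ (G (y k)) ^ (1 - θ * θ') :=
          Real.rpow_le_rpow (by positivity) (hg2 k) (by linarith)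
      _ ≤ L ^ θ' := h4
  have hone : 1 < (2 : ℝ) ^ (1 - θ * θ') := Real.one_lt_rpow (by norm_num) (by linarith)
  obtain ⟨k, hk⟩ := pow_unbounded_of_one_lt (L ^ θ') hone
  exact absurd (hfin k) (not_le.mpr hk)

end Pool.Agent.H82.GY
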