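import Pool.Agent.H82.GY.WChg
import Pool.Agent.H56.GX.Err

/-!
GY module WErr: `∫_{(7/20)X}^{(17/20)X} (Mz - SM η)² ≤ A (B (h₀/X + η² X/h₀) + D η²) X²`.

Copy `GX/Err.lean` (583 lines) with `v₀ = 1/80` instead of `δ₀/8`, and `MSc D X` instead of `SBound C`:
* `Err_E` becomes: for `0 ≤ a ≤ b ≤ X`: `∫_a^b Mz(x e^{-v})² dx = e^v ∫ Mz² ≤ e^v D (b e^{-v})² (1 + b e^{-v}/X)
  ≤ D X² (e^{-v} + e^{-2v})`. For `v = 0`: `∫_a^b Mz² ≤ 2 D X²`.
* `Err_G_le` becomes: `ErrG ≤ 2 ErrD + 2 (1 - e^{v/2})² D X² (e^{-v} + e^{-2v}) ≤ 2 ErrD + 2 D X² |v|² e^{2|v|}`: for `v ≤ 0`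
  `(1 - e^{v/2})² ≤ v²/4` and `e^{-v} + e^{-2v} ≤ 2 e^{2|v|}`; for `v ≥ 0` `(1 - e^{v/2})² ≤ (v²/4) e^v` and `e^{-v} + e^{-2v} ≤ 2 e^{-v}`.
* `Err_D_big`: `ErrD ≤ 4 D X² + 2 D X² (e^{-v} + e^{-2v}) ≤ 8 D X² e^{2|v|}`.
* local part `|v| ≤ 1/80`: `wchg` (twice, for `v > 0` and `v < 0`), as in `err`.
* part `|v| > 1/80`: `ErrD ≤ 8 D X² e^{2|v|} ≤ 8 · 80² D X² |v|² e^{2|v|}`, so both remaining parts are bounded by `gk_moment 2`:
  `≤ C D η² X²`.
-/

set_option autoImplicit false

namespace Pool.Agent.H82.GY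

open MeasureTheory Set Complex Filter Topology
open Pool.Agent.H56.GX

/-- bounded measurable functions on bounded intervals -/
private theorem WErr_ii {f : ℝ → ℝ} (hf : Measurable f) {a b : ℝ} (M : ℝ) (hab : a ≤ b)
    (h : ∀ x ∈ Icc a b, |f x| ≤ M) : IntervalIntegrable f volume a b := by
  rw [intervalIntegrable_iff_integrableOn_Ioc_of_le hab]
  refine Measure.integrableOn_of_bounded (M := M) ?_ hf.aestronglyMeasurable ?_
  · simp
  · filter_upwards [ae_restrict_mem measurableSet_Ioc] with x hx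
    exact h x ⟨hx.1.le, hx.2⟩

private theorem WErr_exp (u : ℝ) : (1 - Real.exp u) ^ 2 ≤ u ^ 2 * Real.exp (2 * |u|) := by
  have h1 : |1 - Real.exp u| ≤ |u| * Real.exp |u| := by
    rcases le_total 0 u with h | h
    · rw [abs_of_nonneg h, abs_sub_comm, abs_of_nonneg (by linarith [Real.add_one_le_exp u])]
      have h2 := Real.add_one_le_exp (-u)
      have h3 : Real.exp u * Real.exp (-u) = 1 := by rw [← Real.exp_add]; simp
      have h4 : 0 < Real.exp u := Real.exp_pos u
      nlinarith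
    · have h2 := Real.add_one_le_exp u
      have h3 : Real.exp u ≤ 1 := Real.exp_le_one_iff.2 h
      rw [abs_of_nonneg (by linarith), abs_of_nonpos h]
      have h4 : 1 ≤ Real.exp (-u) := Real.one_le_exp (by linarith)
      nlinarith
  have h2 : (1 - Real.exp u) ^ 2 ≤ (|u| * Real.exp |u|) ^ 2 := by
    rw [← sq_abs (1 - Real.exp u)]
    exact pow_le_pow_left₀ (abs_nonneg _) h1 2
  refine h2.trans (le_of_eq ?_)
  rw [mul_pow, sq_abs, ← Real.exp_nat_mul]
  norm_num

private theorem WErr_M2 (v : ℝ) : Measurable fun x : ℝ => Mz (x * Real.exp (-v)) :=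
  Mz_measurable.comp (measurable_id.mul_const _)

private theorem WErr_bd {a b x v : ℝ} (ha : 0 ≤ a) (hx : x ∈ Icc a b) :
    |Mz (x * Real.exp (-v))| ≤ b * Real.exp (-v) := by
  have h0 : 0 ≤ x := ha.trans hx.1
  have h1 := Mz_abs_le (x * Real.exp (-v)) (mul_nonneg h0 (Real.exp_pos _).le)
  exact h1.trans (mul_le_mul_of_nonneg_right hx.2 (Real.exp_pos _).le)

private theorem WErr_bd0 {a b x : ℝ} (ha : 0 ≤ a) (hx : x ∈ Icc a b) :
    |Mz x| ≤ b :=
  (Mz_abs_le x (ha.trans hx.1)).trans hx.2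

private theorem WErr_E (D X : ℝ) (hD : 0 ≤ D) (hX : 0 < X) (hS : MSc D X) (a b v : ℝ) (ha : 0 ≤ a)
    (hab : a ≤ b) (hbX : b ≤ X) :
    ∫ x in a..b, (Mz (x * Real.exp (-v))) ^ 2 ≤
      D * X ^ 2 * (Real.exp (-v) + Real.exp (-v) ^ 2) := by
  have he : 0 < Real.exp (-v) := Real.exp_pos _
  rw [intervalIntegral.integral_comp_mul_right (fun y => Mz y ^ 2) he.ne', smul_eq_mul]
  have hb0 : 0 ≤ b := ha.trans hab
  have hb : 0 ≤ b * Real.exp (-v) := mul_nonneg hb0 he.le
  have h1 : ∫ x in (a * Real.exp (-v))..(b * Real.exp (-v)), Mz x ^ 2 ≤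
      ∫ x in (0 : ℝ)..(b * Real.exp (-v)), Mz x ^ 2 := by
    refine intervalIntegral.integral_mono_interval (mul_nonneg ha he.le)
      (mul_le_mul_of_nonneg_right hab he.le) le_rfl ?_ (Mz_sq_intervalIntegrable _ _)
    exact Eventually.of_forall fun x => sq_nonneg _
  have h2 := hS _ hb
  have h3 : b * Real.exp (-v) / X ≤ Real.exp (-v) := by
    rw [div_le_iff₀ hX]
    nlinarith
  have hb2 : b ^ 2 ≤ X ^ 2 := pow_le_pow_left₀ hb0 hbX 2
  calc (Real.exp (-v))⁻¹ * ∫ x in (a * Real.exp (-v))..(b * Real.exp (-v)), Mz x ^ 2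
      ≤ (Real.exp (-v))⁻¹ * (D * (b * Real.exp (-v)) ^ 2 * (1 + b * Real.exp (-v) / X)) :=
        mul_le_mul_of_nonneg_left (h1.trans h2) (inv_nonneg.2 he.le)
    _ ≤ (Real.exp (-v))⁻¹ * (D * (b * Real.exp (-v)) ^ 2 * (1 + Real.exp (-v))) := by
        refine mul_le_mul_of_nonneg_left ?_ (inv_nonneg.2 he.le)
        exact mul_le_mul_of_nonneg_left (by linarith) (by positivity)
    _ = D * b ^ 2 * (Real.exp (-v) + Real.exp (-v) ^ 2) := by
        field_simp
    _ ≤ D * X ^ 2 * (Real.exp (-v) + Real.exp (-v) ^ 2) := by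
        refine mul_le_mul_of_nonneg_right ?_ (by positivity)
        exact mul_le_mul_of_nonneg_left hb2 hD

/-- the mean square of the increment -/
private noncomputable def WErrD (a b v : ℝ) : ℝ :=
  ∫ x in a..b, (Mz x - Mz (x * Real.exp (-v))) ^ 2

private theorem WErr_Dii {a b : ℝ} (v : ℝ) (ha : 0 ≤ a) (hab : a ≤ b) :
    IntervalIntegrable (fun x => (Mz x - Mz (x * Real.exp (-v))) ^ 2) volume a b := by
  refine WErr_ii ((Mz_measurable.sub (WErr_M2 v)).pow_const 2)
    ((b + b * Real.exp (-v)) ^ 2) hab ?_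
  intro x hx
  rw [abs_pow]
  refine pow_le_pow_left₀ (abs_nonneg _) ?_ 2
  exact (abs_sub _ _).trans (add_le_add (WErr_bd0 ha hx) (WErr_bd ha hx))

private theorem WErr_Eii {a b : ℝ} (v : ℝ) (ha : 0 ≤ a) (hab : a ≤ b) :
    IntervalIntegrable (fun x => (Mz (x * Real.exp (-v))) ^ 2) volume a b := by
  refine WErr_ii ((WErr_M2 v).pow_const 2) ((b * Real.exp (-v)) ^ 2) hab ?_
  intro x hx
  rw [abs_pow]
  exact pow_le_pow_left₀ (abs_nonneg _) (WErr_bd ha hx) 2

private theorem WErr_Gii {a b : ℝ} (v : ℝ) (ha : 0 ≤ a) (hab : a ≤ b) :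
    IntervalIntegrable (fun x => (Mz x - Mz (x * Real.exp (-v)) * Real.exp (v / 2)) ^ 2)
      volume a b := by
  refine WErr_ii ((Mz_measurable.sub ((WErr_M2 v).mul_const _)).pow_const 2)
    ((b + b * Real.exp (-v) * Real.exp (v / 2)) ^ 2) hab ?_
  intro x hx
  rw [abs_pow]
  refine pow_le_pow_left₀ (abs_nonneg _) ?_ 2
  refine (abs_sub _ _).trans (add_le_add (WErr_bd0 ha hx) ?_)
  rw [abs_mul, abs_of_pos (Real.exp_pos (v / 2))]
  exact mul_le_mul_of_nonneg_right (WErr_bd ha hx) (Real.exp_pos _).le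

private theorem WErr_D_nonneg {a b v : ℝ} (hab : a ≤ b) : 0 ≤ WErrD a b v :=
  intervalIntegral.integral_nonneg hab fun _ _ => sq_nonneg _

private theorem WErr_expabs (v : ℝ) : Real.exp (-v) + Real.exp (-v) ^ 2 ≤ 2 * Real.exp (2 * |v|) := by
  have h0 := neg_le_abs v
  have h1 := abs_nonneg v
  have h2 : Real.exp (-v) ≤ Real.exp (2 * |v|) := Real.exp_le_exp.2 (by linarith)
  have h3 : Real.exp (-v) ^ 2 ≤ Real.exp (2 * |v|) := by
    rw [← Real.exp_nat_mul]
    refine Real.exp_le_exp.2 ?_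
    push_cast
    linarith
  linarith

private theorem WErr_D_big (D X : ℝ) (hD : 0 ≤ D) (hX : 0 < X) (hS : MSc D X) (a b v : ℝ)
    (ha : 0 ≤ a) (hab : a ≤ b) (hbX : b ≤ X) :
    WErrD a b v ≤ 8 * D * X ^ 2 * Real.exp (2 * |v|) := by
  unfold WErrD
  have h1 : ∫ x in a..b, (Mz x - Mz (x * Real.exp (-v))) ^ 2 ≤
      ∫ x in a..b, (2 * (Mz x) ^ 2 + 2 * (Mz (x * Real.exp (-v))) ^ 2) := by
    refine intervalIntegral.integral_mono_on hab (WErr_Dii v ha hab)
      (((Mz_sq_intervalIntegrable a b).const_mul 2).add ((WErr_Eii v ha hab).const_mul 2)) ?_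
    intro x _
    nlinarith [sq_nonneg (Mz x + Mz (x * Real.exp (-v)))]
  rw [intervalIntegral.integral_add ((Mz_sq_intervalIntegrable a b).const_mul 2)
    ((WErr_Eii v ha hab).const_mul 2), intervalIntegral.integral_const_mul,
    intervalIntegral.integral_const_mul] at h1
  have h2 := WErr_E D X hD hX hS a b v ha hab hbX
  have h3 : ∫ x in a..b, Mz x ^ 2 ≤ 2 * (D * X ^ 2) := by
    have h4 := WErr_E D X hD hX hS a b 0 ha hab hbX
    have h5 : D * X ^ 2 * (Real.exp (-0) + Real.exp (-0) ^ 2) = 2 * (D * X ^ 2) := by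
      simp only [neg_zero, Real.exp_zero]
      ring
    rw [h5] at h4
    simpa using h4
  have h6 := WErr_expabs v
  have hDX : 0 ≤ D * X ^ 2 := by positivity
  have h7 : D * X ^ 2 * (Real.exp (-v) + Real.exp (-v) ^ 2) ≤
      D * X ^ 2 * (2 * Real.exp (2 * |v|)) := mul_le_mul_of_nonneg_left h6 hDX
  have h8 : D * X ^ 2 ≤ D * X ^ 2 * Real.exp (2 * |v|) :=
    le_mul_of_one_le_right hDX (Real.one_le_exp (by positivity))
  linarith

private theorem WErr_D_mono {a b c v : ℝ} (ha : 0 ≤ a) (hab : a ≤ b) (hbc : b ≤ c) :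
    WErrD a b v ≤ WErrD a c v := by
  unfold WErrD
  refine intervalIntegral.integral_mono_interval le_rfl hab hbc ?_ (WErr_Dii v ha (hab.trans hbc))
  exact Eventually.of_forall fun x => sq_nonneg _

private theorem WErr_D_neg {a b c w : ℝ} (ha : 0 ≤ a) (hab : a ≤ b) (hw : 0 ≤ w)
    (hbc : b * Real.exp w ≤ c) : WErrD a b (-w) ≤ WErrD a c w := by
  unfold WErrD
  have he : 0 < Real.exp w := Real.exp_pos _
  have he1 : 1 ≤ Real.exp w := Real.one_le_exp hw
  have h1 : ∫ x in a..b, (Mz x - Mz (x * Real.exp (-(-w)))) ^ 2 =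
      ∫ x in a..b, (fun y => (Mz y - Mz (y * Real.exp (-w))) ^ 2) (x * Real.exp w) := by
    refine intervalIntegral.integral_congr fun x _ => ?_
    show (Mz x - Mz (x * Real.exp (-(-w)))) ^ 2 =
      (Mz (x * Real.exp w) - Mz (x * Real.exp w * Real.exp (-w))) ^ 2
    have h2 : x * Real.exp w * Real.exp (-w) = x := by
      rw [mul_assoc, ← Real.exp_add]; simp
    rw [h2, neg_neg]
    ring
  rw [h1, intervalIntegral.integral_comp_mul_right
    (fun y => (Mz y - Mz (y * Real.exp (-w))) ^ 2) he.ne', smul_eq_mul]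
  have hac : a ≤ a * Real.exp w := le_mul_of_one_le_right ha he1
  have hab' : a * Real.exp w ≤ b * Real.exp w := mul_le_mul_of_nonneg_right hab he.le
  have h3 : ∫ x in (a * Real.exp w)..(b * Real.exp w), (Mz x - Mz (x * Real.exp (-w))) ^ 2 ≤
      ∫ x in a..c, (Mz x - Mz (x * Real.exp (-w))) ^ 2 := by
    refine intervalIntegral.integral_mono_interval hac hab' hbc ?_
      (WErr_Dii w ha (hac.trans (hab'.trans hbc)))
    exact Eventually.of_forall fun x => sq_nonneg _
  have h4 : 0 ≤ ∫ x in (a * Real.exp w)..(b * Real.exp w),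
      (Mz x - Mz (x * Real.exp (-w))) ^ 2 :=
    intervalIntegral.integral_nonneg hab' fun _ _ => sq_nonneg _
  have h5 : (Real.exp w)⁻¹ ≤ 1 := inv_le_one_of_one_le₀ he1
  calc (Real.exp w)⁻¹ * ∫ x in (a * Real.exp w)..(b * Real.exp w),
        (Mz x - Mz (x * Real.exp (-w))) ^ 2
      ≤ 1 * ∫ x in (a * Real.exp w)..(b * Real.exp w),
        (Mz x - Mz (x * Real.exp (-w))) ^ 2 := mul_le_mul_of_nonneg_right h5 h4
    _ ≤ _ := by rw [one_mul]; exact h3

private theorem WErr_D_meas (a b : ℝ) (hab : a ≤ b) : StronglyMeasurable fun v => WErrD a b v := by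
  have h1 : (fun v => WErrD a b v) =
      fun v => ∫ x in Ioc a b, (Mz x - Mz (x * Real.exp (-v))) ^ 2 := by
    funext v
    unfold WErrD
    rw [intervalIntegral.integral_of_le hab]
  rw [h1]
  refine StronglyMeasurable.integral_prod_left
    (f := fun (x v : ℝ) => (Mz x - Mz (x * Real.exp (-v))) ^ 2) ?_
  have h2 : Measurable (Function.uncurry fun (x v : ℝ) => (Mz x - Mz (x * Real.exp (-v))) ^ 2) := by
    refine Measurable.pow_const (Measurable.sub (Mz_measurable.comp measurable_fst) ?_) 2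
    exact Mz_measurable.comp (measurable_fst.mul (Real.measurable_exp.comp measurable_snd.neg))
  exact h2.stronglyMeasurable

/-- the mean square of the integrand of the error -/
private noncomputable def WErrG (a b v : ℝ) : ℝ :=
  ∫ x in a..b, (Mz x - Mz (x * Real.exp (-v)) * Real.exp (v / 2)) ^ 2

private theorem WErr_expsq (v : ℝ) : (1 - Real.exp (v / 2)) ^ 2 * (Real.exp (-v) + Real.exp (-v) ^ 2) ≤
    |v| ^ 2 / 2 * Real.exp (2 * |v|) := by
  rcases le_total 0 v with hv | hv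
  · -- `v ≥ 0`
    have h3 := WErr_exp (v / 2)
    have h4 : (v / 2) ^ 2 * Real.exp (2 * |v / 2|) = |v| ^ 2 / 4 * Real.exp |v| := by
      rw [abs_div, abs_two, sq_abs]
      have : 2 * (|v| / 2) = |v| := by ring
      rw [this]
      ring
    rw [h4] at h3
    have h5 : Real.exp (-v) ≤ 1 := Real.exp_le_one_iff.2 (by linarith)
    have h6 : 0 < Real.exp (-v) := Real.exp_pos _
    have h7 : Real.exp (-v) + Real.exp (-v) ^ 2 ≤ 2 := by nlinarith
    have h8 : Real.exp |v| ≤ Real.exp (2 * |v|) :=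
      Real.exp_le_exp.2 (by linarith [abs_nonneg v])
    calc (1 - Real.exp (v / 2)) ^ 2 * (Real.exp (-v) + Real.exp (-v) ^ 2)
        ≤ (|v| ^ 2 / 4 * Real.exp |v|) * 2 :=
          mul_le_mul h3 h7 (by positivity) (by positivity)
      _ ≤ (|v| ^ 2 / 4 * Real.exp (2 * |v|)) * 2 := by
          refine mul_le_mul_of_nonneg_right ?_ (by norm_num)
          exact mul_le_mul_of_nonneg_left h8 (by positivity)
      _ = _ := by ring
  · -- `v ≤ 0`
    have h1 : (1 - Real.exp (v / 2)) ^ 2 ≤ |v| ^ 2 / 4 := by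
      have h2 := Real.add_one_le_exp (v / 2)
      have h3 : Real.exp (v / 2) ≤ 1 := Real.exp_le_one_iff.2 (by linarith)
      have h4 : 1 - Real.exp (v / 2) ≤ |v| / 2 := by
        rw [abs_of_nonpos hv]
        linarith
      have h5 : 0 ≤ 1 - Real.exp (v / 2) := by linarith
      have h6 := pow_le_pow_left₀ h5 h4 2
      refine h6.trans (le_of_eq ?_)
      ring
    calc (1 - Real.exp (v / 2)) ^ 2 * (Real.exp (-v) + Real.exp (-v) ^ 2)
        ≤ (|v| ^ 2 / 4) * (2 * Real.exp (2 * |v|)) :=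
          mul_le_mul h1 (WErr_expabs v) (by positivity) (by positivity)
      _ = _ := by ring

private theorem WErr_G_le (D X : ℝ) (hD : 0 ≤ D) (hX : 0 < X) (hS : MSc D X) (a b v : ℝ)
    (ha : 0 ≤ a) (hab : a ≤ b) (hbX : b ≤ X) : WErrG a b v ≤ 2 * WErrD a b v +
      D * X ^ 2 * (|v| ^ 2 * Real.exp (2 * |v|)) := by
  have h1 : WErrG a b v ≤ ∫ x in a..b, (2 * (Mz x - Mz (x * Real.exp (-v))) ^ 2 +
      (2 * (1 - Real.exp (v / 2)) ^ 2) * (Mz (x * Real.exp (-v))) ^ 2) := by
    unfold WErrG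
    refine intervalIntegral.integral_mono_on hab (WErr_Gii v ha hab)
      (((WErr_Dii v ha hab).const_mul 2).add ((WErr_Eii v ha hab).const_mul _)) ?_
    intro x _
    nlinarith [sq_nonneg ((Mz x - Mz (x * Real.exp (-v))) -
      (1 - Real.exp (v / 2)) * Mz (x * Real.exp (-v)))]
  rw [intervalIntegral.integral_add ((WErr_Dii v ha hab).const_mul 2)
    ((WErr_Eii v ha hab).const_mul _), intervalIntegral.integral_const_mul,
    intervalIntegral.integral_const_mul] at h1
  have h2 := WErr_E D X hD hX hS a b v ha hab hbX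
  have h3 := WErr_expsq v
  have hDX : 0 ≤ D * X ^ 2 := by positivity
  have h7 : 2 * (1 - Real.exp (v / 2)) ^ 2 * ∫ x in a..b, (Mz (x * Real.exp (-v))) ^ 2 ≤
      2 * (1 - Real.exp (v / 2)) ^ 2 * (D * X ^ 2 * (Real.exp (-v) + Real.exp (-v) ^ 2)) :=
    mul_le_mul_of_nonneg_left h2 (by positivity)
  have h8 : 2 * (1 - Real.exp (v / 2)) ^ 2 * (D * X ^ 2 * (Real.exp (-v) + Real.exp (-v) ^ 2)) =
      2 * (D * X ^ 2) * ((1 - Real.exp (v / 2)) ^ 2 * (Real.exp (-v) + Real.exp (-v) ^ 2)) := by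
    ring
  have h9 : 2 * (D * X ^ 2) * ((1 - Real.exp (v / 2)) ^ 2 * (Real.exp (-v) + Real.exp (-v) ^ 2)) ≤
      2 * (D * X ^ 2) * (|v| ^ 2 / 2 * Real.exp (2 * |v|)) :=
    mul_le_mul_of_nonneg_left h3 (by positivity)
  have h10 : ∫ x in a..b, (Mz x - Mz (x * Real.exp (-v))) ^ 2 = WErrD a b v := rfl
  rw [h10] at h1
  rw [h8] at h7
  linarith

private theorem WErr_f_bd (x v : ℝ) :
    (Mz x - Mz (x * Real.exp (-v)) * Real.exp (v / 2)) ^ 2 ≤ 4 * x ^ 2 * Real.exp (2 * |v|) := by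
  have h1 : |Mz x| ≤ |x| * Real.exp |v| := by
    refine (Mz_abs_le' x).trans ?_
    exact le_mul_of_one_le_right (abs_nonneg x) (Real.one_le_exp (abs_nonneg v))
  have h2 : |Mz (x * Real.exp (-v)) * Real.exp (v / 2)| ≤ |x| * Real.exp |v| := by
    rw [abs_mul, abs_of_pos (Real.exp_pos (v / 2))]
    have h3 := Mz_abs_le' (x * Real.exp (-v))
    rw [abs_mul, abs_of_pos (Real.exp_pos (-v))] at h3
    calc |Mz (x * Real.exp (-v))| * Real.exp (v / 2)
        ≤ |x| * Real.exp (-v) * Real.exp (v / 2) :=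
          mul_le_mul_of_nonneg_right h3 (Real.exp_pos _).le
      _ = |x| * Real.exp (-v + v / 2) := by rw [mul_assoc, ← Real.exp_add]
      _ ≤ |x| * Real.exp |v| := by
          refine mul_le_mul_of_nonneg_left (Real.exp_le_exp.2 ?_) (abs_nonneg x)
          have := neg_le_abs v
          have := abs_nonneg v
          linarith
  have h3 : |Mz x - Mz (x * Real.exp (-v)) * Real.exp (v / 2)| ≤ 2 * (|x| * Real.exp |v|) :=
    (abs_sub _ _).trans (by linarith)
  have h4 := pow_le_pow_left₀ (abs_nonneg _) h3 2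
  rw [sq_abs] at h4
  refine h4.trans (le_of_eq ?_)
  have : Real.exp (2 * |v|) = Real.exp |v| * Real.exp |v| := by
    rw [← Real.exp_add]; ring_nf
  rw [this, ← sq_abs x]
  ring

private theorem WErr_mom0 (η : ℝ) (hη : 0 < η) (hη1 : η ≤ 1) :
    Integrable fun v : ℝ => Real.exp (2 * |v|) * gk η v := by
  obtain ⟨C, _, hC⟩ := gk_moment 0
  have h := (hC η hη hη1).1
  simpa using h

private theorem WErr_fv_meas (x : ℝ) :
    Measurable fun v : ℝ => Mz (x * Real.exp (-v)) * Real.exp (v / 2) :=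
  (Mz_measurable.comp (measurable_const.mul (Real.measurable_exp.comp measurable_neg))).mul
    (Real.measurable_exp.comp (measurable_id.div_const 2))

private theorem WErr_pt (η : ℝ) (hη : 0 < η) (hη1 : η ≤ 1) (x : ℝ) :
    (Mz x - SM η x) ^ 2 ≤
      ∫ v : ℝ, gk η v * (Mz x - Mz (x * Real.exp (-v)) * Real.exp (v / 2)) ^ 2 := by
  have hm0 := WErr_mom0 η hη hη1
  have hgm : Measurable (gk η) := (gk_continuous η).measurable
  set f : ℝ → ℝ := fun v => Mz x - Mz (x * Real.exp (-v)) * Real.exp (v / 2) with hf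
  have hfm : Measurable f := measurable_const.sub (WErr_fv_meas x)
  have int2 : Integrable fun v => gk η v * f v ^ 2 := by
    refine (hm0.const_mul (4 * x ^ 2)).mono' (hgm.mul (hfm.pow_const 2)).aestronglyMeasurable ?_
    refine Eventually.of_forall fun v => ?_
    rw [Real.norm_eq_abs, abs_mul, abs_of_pos (gk_pos η hη v), abs_of_nonneg (sq_nonneg _)]
    calc gk η v * f v ^ 2 ≤ gk η v * (4 * x ^ 2 * Real.exp (2 * |v|)) :=
          mul_le_mul_of_nonneg_left (WErr_f_bd x v) (gk_pos η hη v).le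
      _ = _ := by ring
  have int1 : Integrable fun v => gk η v * f v := by
    refine ((gk_integrable η hη).add int2).mono' (hgm.mul hfm).aestronglyMeasurable ?_
    refine Eventually.of_forall fun v => ?_
    rw [Real.norm_eq_abs, abs_mul, abs_of_pos (gk_pos η hη v)]
    have h1 : |f v| ≤ 1 + f v ^ 2 := by
      rw [← sq_abs (f v)]
      nlinarith [sq_nonneg (|f v| - 1), abs_nonneg (f v)]
    calc gk η v * |f v| ≤ gk η v * (1 + f v ^ 2) :=
          mul_le_mul_of_nonneg_left h1 (gk_pos η hη v).le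
      _ = _ := by simp only [Pi.add_apply]; ring
  have hS : Mz x - SM η x = ∫ v : ℝ, gk η v * f v := by
    have h1 : ∫ v : ℝ, Mz x * gk η v = Mz x := by
      rw [integral_const_mul, gk_integral η hη, mul_one]
    have h2 : Integrable fun v : ℝ => Mz x * gk η v := (gk_integrable η hη).const_mul _
    have h3 : Integrable fun v : ℝ =>
        Mz (x * Real.exp (-v)) * Real.exp (v / 2) * gk η v := by
      refine (h2.sub int1).congr (Eventually.of_forall fun v => ?_)
      simp only [Pi.sub_apply, hf]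
      ring
    calc Mz x - SM η x = (∫ v : ℝ, Mz x * gk η v) -
          ∫ v : ℝ, Mz (x * Real.exp (-v)) * Real.exp (v / 2) * gk η v := by rw [h1]; rfl
      _ = ∫ v : ℝ, (Mz x * gk η v - Mz (x * Real.exp (-v)) * Real.exp (v / 2) * gk η v) :=
          (integral_sub h2 h3).symm
      _ = _ := by
          refine integral_congr_ae (Eventually.of_forall fun v => ?_)
          simp only [hf]
          ring
  set m : ℝ := ∫ v : ℝ, gk η v * f v with hm
  have h0 : 0 ≤ ∫ v : ℝ, gk η v * (f v - m) ^ 2 :=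
    integral_nonneg fun v => mul_nonneg (gk_pos η hη v).le (sq_nonneg _)
  have h1 : ∫ v : ℝ, gk η v * (f v - m) ^ 2 =
      (∫ v : ℝ, gk η v * f v ^ 2) - 2 * m * m + m ^ 2 := by
    calc ∫ v : ℝ, gk η v * (f v - m) ^ 2
        = ∫ v : ℝ, ((gk η v * f v ^ 2 - 2 * m * (gk η v * f v)) + m ^ 2 * gk η v) := by
          refine integral_congr_ae (Eventually.of_forall fun v => ?_)
          simp only []
          ring
      _ = (∫ v : ℝ, (gk η v * f v ^ 2 - 2 * m * (gk η v * f v))) + ∫ v : ℝ, m ^ 2 * gk η v :=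
          integral_add (int2.sub (int1.const_mul _)) ((gk_integrable η hη).const_mul _)
      _ = _ := by
          rw [integral_sub int2 (int1.const_mul _), integral_const_mul, integral_const_mul,
            gk_integral η hη, mul_one]
  rw [hS]
  rw [h1] at h0
  nlinarith

private theorem WErr_prod (η : ℝ) (hη : 0 < η) (hη1 : η ≤ 1) (a b : ℝ) :
    Integrable (Function.uncurry fun (x v : ℝ) =>
      gk η v * (Mz x - Mz (x * Real.exp (-v)) * Real.exp (v / 2)) ^ 2)
      ((volume.restrict (Ioc a b)).prod volume) := by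
  have h1 : Integrable (fun x : ℝ => 4 * x ^ 2) (volume.restrict (Ioc a b)) := by
    have h2 : Continuous fun x : ℝ => 4 * x ^ 2 := by fun_prop
    exact (h2.integrableOn_Icc (a := a) (b := b)).mono_set Ioc_subset_Icc_self
  have h3 := h1.mul_prod (WErr_mom0 η hη hη1)
  refine h3.mono' ?_ ?_
  · refine Measurable.aestronglyMeasurable ?_
    refine Measurable.mul ((gk_continuous η).measurable.comp measurable_snd) ?_
    refine Measurable.pow_const (Measurable.sub (Mz_measurable.comp measurable_fst) ?_) 2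
    refine Measurable.mul ?_ (Real.measurable_exp.comp (measurable_snd.div_const 2))
    exact Mz_measurable.comp (measurable_fst.mul (Real.measurable_exp.comp measurable_snd.neg))
  · refine Eventually.of_forall fun z => ?_
    rcases z with ⟨x, v⟩
    show ‖gk η v * (Mz x - Mz (x * Real.exp (-v)) * Real.exp (v / 2)) ^ 2‖ ≤
      4 * x ^ 2 * (Real.exp (2 * |v|) * gk η v)
    rw [Real.norm_eq_abs, abs_mul, abs_of_pos (gk_pos η hη v), abs_of_nonneg (sq_nonneg _)]
    calc gk η v * (Mz x - Mz (x * Real.exp (-v)) * Real.exp (v / 2)) ^ 2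
        ≤ gk η v * (4 * x ^ 2 * Real.exp (2 * |v|)) :=
          mul_le_mul_of_nonneg_left (WErr_f_bd x v) (gk_pos η hη v).le
      _ = _ := by ring

private theorem WErr_swap (η : ℝ) (hη : 0 < η) (hη1 : η ≤ 1) (a b : ℝ) (ha : 0 < a)
    (hab : a ≤ b) : ∫ x in a..b, (Mz x - SM η x) ^ 2 ≤ ∫ v : ℝ, gk η v * WErrG a b v := by
  have hp := WErr_prod η hη hη1 a b
  have h1 : IntervalIntegrable (fun x => (Mz x - SM η x) ^ 2) volume a b := by
    have h := err_intervalIntegrable η hη a b 0 (by linarith) (by linarith)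
    simpa using h
  have h2 : IntervalIntegrable (fun x => ∫ v : ℝ,
      gk η v * (Mz x - Mz (x * Real.exp (-v)) * Real.exp (v / 2)) ^ 2) volume a b := by
    rw [intervalIntegrable_iff_integrableOn_Ioc_of_le hab]
    exact hp.integral_prod_left
  have h3 := intervalIntegral.integral_mono_on hab h1 h2 fun x _ => WErr_pt η hη hη1 x
  refine h3.trans (le_of_eq ?_)
  rw [intervalIntegral.integral_of_le hab]
  rw [integral_integral_swap hp]
  refine integral_congr_ae (Eventually.of_forall fun v => ?_)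
  simp only []
  rw [integral_const_mul]
  unfold WErrG
  rw [intervalIntegral.integral_of_le hab]

private theorem WErr_G_int (η : ℝ) (hη : 0 < η) (hη1 : η ≤ 1) (a b : ℝ) (hab : a ≤ b) :
    Integrable fun v : ℝ => gk η v * WErrG a b v := by
  have h := (WErr_prod η hη hη1 a b).integral_prod_right
  refine h.congr (Eventually.of_forall fun v => ?_)
  simp only [Function.uncurry]
  rw [integral_const_mul]
  unfold WErrG
  rw [intervalIntegral.integral_of_le hab]

theorem werr : ∃ A : ℝ, 0 < A ∧ ∀ B X h₀ η D : ℝ, 0 ≤ B → 1 ≤ X → 0 < h₀ → h₀ ≤ X / 160 → LW B X h₀ →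
    0 ≤ D → MSc D X → 0 < η → η ≤ 1 →
    ∫ x in (7 / 20 * X)..(17 / 20 * X), (Mz x - SM η x) ^ 2 ≤
      A * (B * (h₀ / X + η ^ 2 * X / h₀) + D * η ^ 2) * X ^ 2 := by
  obtain ⟨A0, hA0, hchg⟩ := wchg
  obtain ⟨C2, hC2, hm2⟩ := gk_moment 2
  refine ⟨4 * A0 + 102401 * C2, by positivity, ?_⟩
  intro B X h₀ η D hB hX1 hh₀ hh₀X hLW hD hS hη hη1
  have hX0 : 0 < X := by linarith
  have hchgX := hchg B X h₀ η hB hX1 hh₀ hh₀X hLW hη hη1
  have hv0 : (0 : ℝ) < 1 / 80 := by norm_num
  set a : ℝ := 7 / 20 * X with ha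
  set b : ℝ := 17 / 20 * X with hb
  have ha0 : 0 < a := by positivity
  have hab : a ≤ b := by rw [ha, hb]; linarith
  have hbX : b ≤ X := by rw [hb]; linarith
  have haX : a ≤ X := hab.trans hbX
  refine (WErr_swap η hη hη1 a b ha0 hab).trans ?_
  -- the local part
  let g : ℝ → ℝ := fun u => gk η u * WErrD a X u
  let H : ℝ → ℝ := (Iic (1 / 80 : ℝ)).indicator g
  have hgmeas : StronglyMeasurable g :=
    (gk_continuous η).stronglyMeasurable.mul (WErr_D_meas a X haX)
  have hHmeas : StronglyMeasurable H := hgmeas.indicator measurableSet_Iic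
  have hHabs : StronglyMeasurable fun v : ℝ => H |v| :=
    hHmeas.comp_measurable continuous_abs.measurable
  have hHint : Integrable fun v : ℝ => H |v| := by
    refine ((WErr_mom0 η hη hη1).const_mul (8 * D * X ^ 2)).mono' hHabs.aestronglyMeasurable ?_
    refine Eventually.of_forall fun v => ?_
    have hg0 : 0 < gk η v := gk_pos η hη v
    by_cases hv : |v| ≤ 1 / 80
    · have h1 : H |v| = gk η |v| * WErrD a X |v| := indicator_of_mem (mem_Iic.2 hv) g
      have h2 : gk η |v| = gk η v := by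
        rcases abs_choice v with h | h
        · rw [h]
        · rw [h, gk_neg]
      rw [h1, h2, Real.norm_eq_abs, abs_mul, abs_of_pos hg0,
        abs_of_nonneg (WErr_D_nonneg haX)]
      have h3 := WErr_D_big D X hD hX0 hS a X |v| ha0.le haX le_rfl
      rw [abs_abs] at h3
      calc gk η v * WErrD a X |v| ≤ gk η v * (8 * D * X ^ 2 * Real.exp (2 * |v|)) :=
            mul_le_mul_of_nonneg_left h3 hg0.le
        _ = _ := by ring
    · have h1 : H |v| = 0 := indicator_of_notMem (fun h => hv (mem_Iic.1 h)) g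
      rw [h1, norm_zero]
      positivity
  have hHval : ∫ v : ℝ, H |v| ≤ 2 * (A0 * B * (h₀ / X + η ^ 2 * X / h₀) * X ^ 2) := by
    rw [integral_comp_abs (f := H)]
    have h1 : ∫ x in Ioi (0 : ℝ), H x = ∫ v in (0 : ℝ)..(1 / 80), g v := by
      rw [intervalIntegral.integral_of_le hv0.le]
      show ∫ x in Ioi (0 : ℝ), (Iic (1 / 80 : ℝ)).indicator g x = _
      rw [setIntegral_indicator measurableSet_Iic, Ioi_inter_Iic]
    rw [h1]
    exact mul_le_mul_of_nonneg_left hchgX (by norm_num)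
  -- pointwise bound
  have hpt : ∀ v : ℝ, gk η v * WErrG a b v ≤ 2 * H |v| +
      (102401 * (D * X ^ 2)) * (|v| ^ 2 * Real.exp (2 * |v|) * gk η v) := by
    intro v
    have hg0 : 0 < gk η v := gk_pos η hη v
    have h1 := WErr_G_le D X hD hX0 hS a b v ha0.le hab hbX
    have hE : 0 ≤ Real.exp (2 * |v|) := (Real.exp_pos _).le
    have hH0 : 0 ≤ H |v| := by
      refine indicator_nonneg (fun u _ => ?_) _
      exact mul_nonneg (gk_pos η hη u).le (WErr_D_nonneg haX)
    have h3 : gk η v * WErrD a b v ≤ H |v| +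
        (51200 * (D * X ^ 2)) * (|v| ^ 2 * Real.exp (2 * |v|) * gk η v) := by
      by_cases hv : |v| ≤ 1 / 80
      · have h4 : H |v| = gk η |v| * WErrD a X |v| := indicator_of_mem (mem_Iic.2 hv) g
        have h5 : gk η |v| = gk η v := by
          rcases abs_choice v with h | h
          · rw [h]
          · rw [h, gk_neg]
        have h6 : WErrD a b v ≤ WErrD a X |v| := by
          rcases le_total 0 v with h0 | h0
          · rw [abs_of_nonneg h0]
            exact WErr_D_mono ha0.le hab hbX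
          · have h7 : v = -|v| := by rw [abs_of_nonpos h0, neg_neg]
            have h8 : WErrD a b (-|v|) ≤ WErrD a X |v| := by
              refine WErr_D_neg ha0.le hab (abs_nonneg v) ?_
              have h10 := Real.add_one_le_exp (-|v|)
              have h11 : Real.exp |v| * Real.exp (-|v|) = 1 := by
                rw [← Real.exp_add]; simp
              have h12 : 0 < Real.exp |v| := Real.exp_pos _
              have h13 : Real.exp |v| ≤ 80 / 79 := by nlinarith
              rw [hb]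
              nlinarith
            rw [← h7] at h8
            exact h8
        rw [h4, h5]
        have h7 := mul_le_mul_of_nonneg_left h6 hg0.le
        have h8 : 0 ≤ (51200 * (D * X ^ 2)) * (|v| ^ 2 * Real.exp (2 * |v|) * gk η v) := by
          positivity
        linarith
      · push Not at hv
        have h4 := WErr_D_big D X hD hX0 hS a b v ha0.le hab hbX
        have h10 : 1 ≤ 6400 * |v| ^ 2 := by nlinarith
        have h11 : 8 * D * X ^ 2 * Real.exp (2 * |v|) ≤
            8 * D * X ^ 2 * Real.exp (2 * |v|) * (6400 * |v| ^ 2) :=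
          le_mul_of_one_le_right (by positivity) h10
        calc gk η v * WErrD a b v
            ≤ gk η v * (8 * D * X ^ 2 * Real.exp (2 * |v|) * (6400 * |v| ^ 2)) :=
              mul_le_mul_of_nonneg_left (h4.trans h11) hg0.le
          _ = (51200 * (D * X ^ 2)) * (|v| ^ 2 * Real.exp (2 * |v|) * gk η v) := by ring
          _ ≤ _ := by linarith
    calc gk η v * WErrG a b v
        ≤ gk η v * (2 * WErrD a b v + D * X ^ 2 * (|v| ^ 2 * Real.exp (2 * |v|))) :=
          mul_le_mul_of_nonneg_left h1 hg0.le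
      _ = 2 * (gk η v * WErrD a b v) +
          (D * X ^ 2) * (|v| ^ 2 * Real.exp (2 * |v|) * gk η v) := by ring
      _ ≤ 2 * (H |v| +
          (51200 * (D * X ^ 2)) * (|v| ^ 2 * Real.exp (2 * |v|) * gk η v)) +
          (D * X ^ 2) * (|v| ^ 2 * Real.exp (2 * |v|) * gk η v) := by linarith
      _ = _ := by ring
  have hi2 := (hm2 η hη hη1).1
  have hA := hHint.const_mul 2
  have hB2 := hi2.const_mul (102401 * (D * X ^ 2))
  have hfin : ∫ v : ℝ, gk η v * WErrG a b v ≤ ∫ v : ℝ, (2 * H |v| +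
      (102401 * (D * X ^ 2)) * (|v| ^ 2 * Real.exp (2 * |v|) * gk η v)) :=
    integral_mono (WErr_G_int η hη hη1 a b hab) (hA.add hB2) hpt
  refine hfin.trans ?_
  have e1 : ∫ v : ℝ, (2 * H |v| +
      (102401 * (D * X ^ 2)) * (|v| ^ 2 * Real.exp (2 * |v|) * gk η v)) =
      2 * (∫ v : ℝ, H |v|) + 102401 * (D * X ^ 2) *
      ∫ v : ℝ, |v| ^ 2 * Real.exp (2 * |v|) * gk η v := by
    rw [integral_add hA hB2, integral_const_mul, integral_const_mul]
  refine (le_of_eq e1).trans ?_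
  have h2 := (hm2 η hη hη1).2
  have h4 : 102401 * (D * X ^ 2) * (∫ v : ℝ, |v| ^ 2 * Real.exp (2 * |v|) * gk η v) ≤
      102401 * (D * X ^ 2) * (C2 * η ^ 2) := mul_le_mul_of_nonneg_left h2 (by positivity)
  have hq : 0 ≤ B * (h₀ / X + η ^ 2 * X / h₀) := by positivity
  have h5 : 2 * (2 * (A0 * B * (h₀ / X + η ^ 2 * X / h₀) * X ^ 2)) ≤
      (4 * A0 + 102401 * C2) * (B * (h₀ / X + η ^ 2 * X / h₀)) * X ^ 2 := by
    have h6 : 0 ≤ 102401 * C2 * (B * (h₀ / X + η ^ 2 * X / h₀)) * X ^ 2 := by positivity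
    nlinarith
  have h7 : 102401 * (D * X ^ 2) * (C2 * η ^ 2) ≤
      (4 * A0 + 102401 * C2) * (D * η ^ 2) * X ^ 2 := by
    have h8 : 0 ≤ 4 * A0 * (D * η ^ 2) * X ^ 2 := by positivity
    nlinarith
  have h9 : (4 * A0 + 102401 * C2) * (B * (h₀ / X + η ^ 2 * X / h₀) + D * η ^ 2) * X ^ 2 =
      (4 * A0 + 102401 * C2) * (B * (h₀ / X + η ^ 2 * X / h₀)) * X ^ 2 +
      (4 * A0 + 102401 * C2) * (D * η ^ 2) * X ^ 2 := by ring
  rw [h9]
  linarith

end Pool.Agent.H82.GY
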