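import Pool.Agent.H82.GY.ZCount
import Pool.Agent.H56.GX.Gau

/-!
GY module WSum: sums over the zeros on the critical line.

(1) `zsum`: `∑_{γ ∈ Zr} (1+|γ|)^(-3) < ∞`. For a finite set `S ⊂ Zr` split it by the cells `2^j ≤ 1 + |γ| < 2^(j+1)`: by `zcount`
a cell has at most `A 2^(j+1) log(2 + 2^(j+1)) ≤ A' 4^j` elements (or use `S.card ≤ A U log (2+U) ≤ A U (1+U)`), so the sum is
`≤ ∑_j A' 4^j 2^(-3j) < ∞`. (`summable_of_sum_le`.)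
(2) `a_norm`: `‖a η γ‖ = exp(-(η γ)²/2) ‖r γ‖` (`K_norm` in `GX/Gau.lean` with `σ = 1/2`, see `ASum.lean`).
(3) `asum`: suppose `‖r γ‖ ≤ A (1+|γ|)^k` on `Zr`. For `0 < η ≤ 1`: `(1+|γ|)^(k+3) exp(-(ηγ)²/4) ≤ D₁ (1/η)^(k+3)`, because
`1 + |γ| ≤ (1 + η|γ|)/η` and `(1+u)^(k+3) exp(-u²/4)` is bounded on `[0,∞)`. So
`‖a η γ‖ ≤ A D₁ (1/η)^(k+3) (1+|γ|)^(-3)`: summable, and `∑ ‖a η γ‖ ≤ D (1/η)^m` with `m = k+3`; and for `|γ| > U ≥ 0`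
the same with the extra factor `exp(-(ηγ)²/4) ≤ exp(-(ηU)²/4)`.
-/

set_option autoImplicit false

namespace Pool.Agent.H82.GY

open MeasureTheory Set Complex Filter Topology
open Pool.Agent.H56.GX

private theorem wSum_log (U : ℝ) (hU : 1 ≤ U) : Real.log (2 + U) ≤ 2 * U := by
  have := Real.log_le_sub_one_of_pos (show (0 : ℝ) < 2 + U by linarith)
  linarith

private theorem wSum_fiber (A : ℝ) (hA : 0 < A)
    (h : ∀ (U : ℝ) (S : Finset ℝ), 1 ≤ U → (∀ γ ∈ S, γ ∈ Zr ∧ |γ| ≤ U) →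
      (S.card : ℝ) ≤ A * U * Real.log (2 + U)) (S : Finset Zr) (j : ℕ)
    (hS : ∀ γ ∈ S, (2 : ℝ) ^ j ≤ 1 + |(γ : ℝ)| ∧ 1 + |(γ : ℝ)| < 2 ^ (j + 1)) :
    ∑ γ ∈ S, ((1 + |(γ : ℝ)|) ^ 3)⁻¹ ≤ 8 * A * (1 / 2) ^ j := by
  have hp : (0 : ℝ) < 2 ^ j := by positivity
  have h1 : ∑ γ ∈ S, ((1 + |(γ : ℝ)|) ^ 3)⁻¹ ≤ ∑ _γ ∈ S, (((2 : ℝ) ^ j) ^ 3)⁻¹ := by
    refine Finset.sum_le_sum fun γ hγ => ?_
    exact inv_anti₀ (by positivity) (pow_le_pow_left₀ hp.le (hS γ hγ).1 3)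
  rw [Finset.sum_const, nsmul_eq_mul] at h1
  have hU : (1 : ℝ) ≤ 2 ^ (j + 1) := one_le_pow₀ (by norm_num)
  have hcard : (S.card : ℝ) ≤ A * 2 ^ (j + 1) * Real.log (2 + 2 ^ (j + 1)) := by
    have h2 := h (2 ^ (j + 1)) (S.map ⟨Subtype.val, Subtype.val_injective⟩) hU (by
      intro γ hγ
      rw [Finset.mem_map] at hγ
      obtain ⟨g, hg, rfl⟩ := hγ
      refine ⟨g.2, ?_⟩
      have := (hS g hg).2
      show |(g : ℝ)| ≤ _
      linarith)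
    rwa [Finset.card_map] at h2
  have hlog := wSum_log (2 ^ (j + 1)) hU
  have hcard2 : (S.card : ℝ) ≤ 8 * A * ((2 : ℝ) ^ j) ^ 2 := by
    refine hcard.trans ?_
    calc A * 2 ^ (j + 1) * Real.log (2 + 2 ^ (j + 1))
        ≤ A * 2 ^ (j + 1) * (2 * 2 ^ (j + 1)) := mul_le_mul_of_nonneg_left hlog (by positivity)
      _ = 8 * A * ((2 : ℝ) ^ j) ^ 2 := by ring
  refine h1.trans ?_
  calc (S.card : ℝ) * (((2 : ℝ) ^ j) ^ 3)⁻¹
      ≤ (8 * A * ((2 : ℝ) ^ j) ^ 2) * (((2 : ℝ) ^ j) ^ 3)⁻¹ :=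
        mul_le_mul_of_nonneg_right hcard2 (by positivity)
    _ = 8 * A * (1 / 2) ^ j := by
        rw [one_div, inv_pow]
        field_simp

theorem zsum : Summable (fun γ : Zr => ((1 + |(γ : ℝ)|) ^ 3)⁻¹) := by
  classical
  obtain ⟨A, hA, h⟩ := zcount
  refine summable_of_sum_le (c := 16 * A) (fun γ => by positivity) fun S => ?_
  set f : Zr → ℕ := fun γ => Nat.log 2 ⌊1 + |(γ : ℝ)|⌋₊ with hf
  have hfl : ∀ γ : Zr, (2 : ℝ) ^ (f γ) ≤ 1 + |(γ : ℝ)| ∧ 1 + |(γ : ℝ)| < 2 ^ (f γ + 1) := by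
    intro γ
    have h0 : (0 : ℝ) ≤ 1 + |(γ : ℝ)| := by positivity
    have h1 : 1 ≤ ⌊1 + |(γ : ℝ)|⌋₊ := by
      rw [Nat.one_le_floor_iff]
      linarith [abs_nonneg (γ : ℝ)]
    constructor
    · have h2 : 2 ^ (f γ) ≤ ⌊1 + |(γ : ℝ)|⌋₊ := Nat.pow_log_le_self 2 (by omega)
      have h3 : ((2 ^ (f γ) : ℕ) : ℝ) ≤ (⌊1 + |(γ : ℝ)|⌋₊ : ℝ) := by exact_mod_cast h2
      push_cast at h3
      exact h3.trans (Nat.floor_le h0)
    · have h2 : ⌊1 + |(γ : ℝ)|⌋₊ < 2 ^ (f γ + 1) := Nat.lt_pow_succ_log_self (by norm_num) _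
      have h3 : 1 + |(γ : ℝ)| < ((2 ^ (f γ + 1) : ℕ) : ℝ) := by
        rw [← Nat.floor_lt h0]
        exact h2
      push_cast at h3
      exact h3
  set J : ℕ := S.sup f + 1 with hJ
  have hmaps : ∀ γ ∈ S, f γ ∈ Finset.range J := by
    intro γ hγ
    rw [Finset.mem_range, hJ]
    exact Nat.lt_succ_of_le (Finset.le_sup hγ)
  rw [← Finset.sum_fiberwise_of_maps_to hmaps]
  have h1 : ∑ j ∈ Finset.range J, ∑ γ ∈ S with f γ = j, ((1 + |(γ : ℝ)|) ^ 3)⁻¹ ≤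
      ∑ j ∈ Finset.range J, 8 * A * (1 / 2) ^ j := by
    refine Finset.sum_le_sum fun j _ => ?_
    refine wSum_fiber A hA h _ j fun γ hγ => ?_
    rw [Finset.mem_filter] at hγ
    have := hfl γ
    rw [hγ.2] at this
    exact this
  refine h1.trans ?_
  rw [← Finset.mul_sum]
  have h2 : ∑ j ∈ Finset.range J, ((1 : ℝ) / 2) ^ j ≤ 2 := by
    have h3 := (summable_geometric_of_lt_one (by norm_num) (by norm_num :
      (1 : ℝ) / 2 < 1)).sum_le_tsum (Finset.range J) (fun j _ => by positivity)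
    rw [tsum_geometric_of_lt_one (by norm_num) (by norm_num)] at h3
    norm_num at h3 ⊢
    exact h3
  nlinarith

theorem a_norm (η γ : ℝ) : ‖a η γ‖ = Real.exp (-(η * γ) ^ 2 / 2) * ‖r γ‖ := by
  have hK : ‖K η (1 / 2 + γ * I)‖ = Real.exp (-(η * γ) ^ 2 / 2) := by
    have h1 := K_norm η (1 / 2) γ
    rw [sub_self] at h1
    have h2 : ((1 / 2 : ℝ) : ℂ) = 1 / 2 := by push_cast; ring
    rw [h2] at h1
    rw [h1]
    congr 1
    ring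
  unfold a
  rw [norm_mul, hK]

private theorem wSum_poly (K : ℕ) (u : ℝ) (hu : 0 ≤ u) :
    (1 + u) ^ K ≤ (K.factorial * Real.exp 2) * Real.exp (u ^ 2 / 4) := by
  have h1 := Real.pow_div_factorial_le_exp (1 + u) (by linarith) K
  rw [div_le_iff₀ (by positivity)] at h1
  have h2 : Real.exp (1 + u) ≤ Real.exp 2 * Real.exp (u ^ 2 / 4) := by
    rw [← Real.exp_add]
    refine Real.exp_le_exp.2 ?_
    nlinarith [sq_nonneg (u / 2 - 1)]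
  have h3 : (0 : ℝ) ≤ K.factorial := by positivity
  calc (1 + u) ^ K ≤ Real.exp (1 + u) * K.factorial := h1
    _ ≤ (Real.exp 2 * Real.exp (u ^ 2 / 4)) * K.factorial := mul_le_mul_of_nonneg_right h2 h3
    _ = _ := by ring

private theorem wSum_pt (A : ℝ) (k : ℕ) (hA : 0 < A) (η γ : ℝ) (hη : 0 < η) (hη1 : η ≤ 1)
    (hr : ‖r γ‖ ≤ A * (1 + |γ|) ^ k) :
    ‖a η γ‖ ≤ A * ((k + 3).factorial * Real.exp 2) * (1 / η) ^ (k + 3) *
      Real.exp (-(η * γ) ^ 2 / 4) * ((1 + |γ|) ^ 3)⁻¹ := by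
  have hγ0 := abs_nonneg γ
  have hg : (0 : ℝ) < 1 + |γ| := by linarith
  have h1 : 1 + |γ| ≤ (1 / η) * (1 + η * |γ|) := by
    have e1 : 1 ≤ 1 / η := (one_le_div hη).2 hη1
    have e2 : (1 / η) * (1 + η * |γ|) = 1 / η + |γ| := by
      field_simp
    rw [e2]
    linarith
  have h2 : (1 + |γ|) ^ (k + 3) ≤ (1 / η) ^ (k + 3) *
      (((k + 3).factorial * Real.exp 2) * Real.exp ((η * |γ|) ^ 2 / 4)) := by
    calc (1 + |γ|) ^ (k + 3) ≤ ((1 / η) * (1 + η * |γ|)) ^ (k + 3) :=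
          pow_le_pow_left₀ hg.le h1 _
      _ = (1 / η) ^ (k + 3) * (1 + η * |γ|) ^ (k + 3) := mul_pow _ _ _
      _ ≤ _ := mul_le_mul_of_nonneg_left (wSum_poly (k + 3) (η * |γ|) (by positivity))
          (by positivity)
  have h3 : (η * |γ|) ^ 2 = (η * γ) ^ 2 := by
    rw [mul_pow, mul_pow, sq_abs]
  rw [h3] at h2
  have h4 : Real.exp ((η * γ) ^ 2 / 4) * Real.exp (-(η * γ) ^ 2 / 2) =
      Real.exp (-(η * γ) ^ 2 / 4) := by
    rw [← Real.exp_add]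
    congr 1
    ring
  rw [a_norm]
  calc Real.exp (-(η * γ) ^ 2 / 2) * ‖r γ‖
      ≤ Real.exp (-(η * γ) ^ 2 / 2) * (A * (1 + |γ|) ^ k) :=
        mul_le_mul_of_nonneg_left hr (Real.exp_pos _).le
    _ = A * Real.exp (-(η * γ) ^ 2 / 2) * ((1 + |γ|) ^ (k + 3)) * ((1 + |γ|) ^ 3)⁻¹ := by
        rw [pow_add]
        field_simp
    _ ≤ A * Real.exp (-(η * γ) ^ 2 / 2) * ((1 / η) ^ (k + 3) *
      (((k + 3).factorial * Real.exp 2) * Real.exp ((η * γ) ^ 2 / 4))) * ((1 + |γ|) ^ 3)⁻¹ := by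
        refine mul_le_mul_of_nonneg_right (mul_le_mul_of_nonneg_left h2 ?_) (by positivity)
        exact mul_nonneg hA.le (Real.exp_pos _).le
    _ = A * ((k + 3).factorial * Real.exp 2) * (1 / η) ^ (k + 3) *
        (Real.exp ((η * γ) ^ 2 / 4) * Real.exp (-(η * γ) ^ 2 / 2)) * ((1 + |γ|) ^ 3)⁻¹ := by
        ring
    _ = _ := by rw [h4]

theorem asum (A : ℝ) (k : ℕ) (hA : 0 < A) (hr : ∀ γ ∈ Zr, ‖r γ‖ ≤ A * (1 + |γ|) ^ k) :
    ∃ (D : ℝ) (m : ℕ), 0 < D ∧ ∀ η : ℝ, 0 < η → η ≤ 1 →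
      Summable (fun γ : Zr => ‖a η γ‖) ∧ ∑' γ : Zr, ‖a η γ‖ ≤ D * (1 / η) ^ m ∧
      ∀ U : ℝ, 0 ≤ U → ∑' γ : Zr, (if U < |(γ : ℝ)| then ‖a η γ‖ else 0) ≤
        D * (1 / η) ^ m * Real.exp (-(η * U) ^ 2 / 4) := by
  set Z : ℝ := ∑' γ : Zr, ((1 + |(γ : ℝ)|) ^ 3)⁻¹ with hZ
  have hZ0 : 0 ≤ Z := tsum_nonneg fun γ => by positivity
  set D₁ : ℝ := A * ((k + 3).factorial * Real.exp 2) with hD₁
  have hD₁0 : 0 < D₁ := by positivity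
  refine ⟨D₁ * (Z + 1), k + 3, by positivity, fun η hη hη1 => ?_⟩
  have hE : 0 < (1 / η) ^ (k + 3) := by positivity
  have hpt : ∀ γ : Zr, ‖a η γ‖ ≤ D₁ * (1 / η) ^ (k + 3) * Real.exp (-(η * γ) ^ 2 / 4) *
      ((1 + |(γ : ℝ)|) ^ 3)⁻¹ := fun γ => wSum_pt A k hA η γ hη hη1 (hr γ γ.2)
  have hpt1 : ∀ γ : Zr, ‖a η γ‖ ≤ D₁ * (1 / η) ^ (k + 3) * ((1 + |(γ : ℝ)|) ^ 3)⁻¹ := by
    intro γ
    refine (hpt γ).trans (mul_le_mul_of_nonneg_right ?_ (by positivity))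
    refine mul_le_of_le_one_right (by positivity) (Real.exp_le_one_iff.2 ?_)
    have := sq_nonneg (η * (γ : ℝ))
    linarith
  have hs1 : Summable fun γ : Zr => D₁ * (1 / η) ^ (k + 3) * ((1 + |(γ : ℝ)|) ^ 3)⁻¹ :=
    zsum.mul_left _
  have hs : Summable (fun γ : Zr => ‖a η γ‖) :=
    Summable.of_nonneg_of_le (fun γ => norm_nonneg _) hpt1 hs1
  refine ⟨hs, ?_, fun U hU => ?_⟩
  · refine (hs.tsum_le_tsum hpt1 hs1).trans ?_
    rw [tsum_mul_left, ← hZ]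
    nlinarith [mul_pos hD₁0 hE]
  · have hpt2 : ∀ γ : Zr, (if U < |(γ : ℝ)| then ‖a η γ‖ else 0) ≤
        D₁ * (1 / η) ^ (k + 3) * Real.exp (-(η * U) ^ 2 / 4) * ((1 + |(γ : ℝ)|) ^ 3)⁻¹ := by
      intro γ
      split_ifs with h
      · refine (hpt γ).trans (mul_le_mul_of_nonneg_right ?_ (by positivity))
        refine mul_le_mul_of_nonneg_left (Real.exp_le_exp.2 ?_) (by positivity)
        have h1 : (η * U) ^ 2 ≤ (η * (γ : ℝ)) ^ 2 := by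
          rw [mul_pow, mul_pow]
          refine mul_le_mul_of_nonneg_left ?_ (by positivity)
          rw [← sq_abs (γ : ℝ)]
          exact pow_le_pow_left₀ hU h.le 2
        linarith
      · positivity
    have hs2 : Summable fun γ : Zr => D₁ * (1 / η) ^ (k + 3) *
        Real.exp (-(η * U) ^ 2 / 4) * ((1 + |(γ : ℝ)|) ^ 3)⁻¹ := zsum.mul_left _
    have hs3 : Summable (fun γ : Zr => (if U < |(γ : ℝ)| then ‖a η γ‖ else 0)) :=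
      Summable.of_nonneg_of_le (fun γ => by split_ifs <;> positivity) hpt2 hs2
    refine (hs3.tsum_le_tsum hpt2 hs2).trans ?_
    rw [tsum_mul_left, ← hZ]
    have h0 : 0 < D₁ * (1 / η) ^ (k + 3) * Real.exp (-(η * U) ^ 2 / 4) :=
      mul_pos (mul_pos hD₁0 hE) (Real.exp_pos _)
    nlinarith

/-- summability for all `η > 0` (for `η > 1` compare with `η = 1`: `‖a η γ‖ ≤ ‖a 1 γ‖`) -/
theorem asum_summable (A : ℝ) (k : ℕ) (hA : 0 < A) (hr : ∀ γ ∈ Zr, ‖r γ‖ ≤ A * (1 + |γ|) ^ k)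
    (η : ℝ) (hη : 0 < η) : Summable (fun γ : Zr => ‖a η γ‖) := by
  obtain ⟨D, m, -, h⟩ := asum A k hA hr
  rcases le_or_gt η 1 with h1 | h1
  · exact (h η hη h1).1
  · refine Summable.of_nonneg_of_le (fun γ => norm_nonneg _) (fun γ => ?_)
      (h 1 one_pos le_rfl).1
    rw [a_norm, a_norm]
    refine mul_le_mul_of_nonneg_right (Real.exp_le_exp.2 ?_) (norm_nonneg _)
    rw [one_mul, mul_pow]
    have h2 : 1 ≤ η ^ 2 := one_le_pow₀ h1.le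
    nlinarith [sq_nonneg (γ : ℝ)]

end Pool.Agent.H82.GY
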