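import Pool.Agent.H82.GY.WGood
import Pool.Agent.H82.GY.WContour
import Pool.Agent.H82.GY.WSum
import Pool.Agent.H56.GX.Explicit
import Pool.Agent.H56.GX.DiffB

/-!
GY module WExplicit: the smoothed explicit formula and differences of `SM` at the recurrence points, under `WB`.
* `wexplicit`: copy `explicit` of `GX/Explicit.lean` (264 lines), replacing `good_heights`, `contour`, `F_inv`, `a_summable` by
  `wgood_heights`, `wcontour`, `wF_inv`, and `asum_summable` (with `wres_poly`).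
* `wdiff_bound`: copy `a_cpow_summable`, `scale_bound`, `diff_bound` of `GX/DiffB.lean` (160 lines) in the same way.
-/

set_option autoImplicit false

namespace Pool.Agent.H82.GY

open MeasureTheory Set Complex Filter Topology
open Pool.Agent.H56.GX

private theorem WExplicit_rpow_le (x σ : ℝ) (hx : 0 < x) (h1 : -(1 / 2) ≤ σ) (h2 : σ ≤ 2) :
    x ^ σ ≤ x ^ (2 : ℝ) + x ^ (-(1 / 2) : ℝ) := by
  have h3 : 0 < x ^ (2 : ℝ) := Real.rpow_pos_of_pos hx _
  have h4 : 0 < x ^ (-(1 / 2) : ℝ) := Real.rpow_pos_of_pos hx _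
  rcases le_total 1 x with h | h
  · have := Real.rpow_le_rpow_of_exponent_le h h2
    linarith
  · have := Real.rpow_le_rpow_of_exponent_ge hx h h1
    linarith

/-- a horizontal side -/
private theorem WExplicit_side (η x T E : ℝ) (hx : 0 < x) (hT : 0 < |T|)
    (hz : ∀ σ : ℝ, -(1 / 2) ≤ σ → σ ≤ 2 → riemannZeta (σ + T * I) ≠ 0)
    (hE : ∫ σ in (-(1 / 2) : ℝ)..2, ‖((σ + T * I) * riemannZeta (σ + T * I))⁻¹‖ ≤ E) :
    ‖∫ σ in (-(1 / 2) : ℝ)..2, fc η x (σ + T * I)‖ ≤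
      Real.exp (η ^ 2 * (9 / 4 - T ^ 2) / 2) * (x ^ (2 : ℝ) + x ^ (-(1 / 2) : ℝ)) * E := by
  have hT0 : T ≠ 0 := abs_pos.1 hT
  have hne : ∀ σ : ℝ, (σ : ℂ) + T * I ≠ 0 := by
    intro σ h0
    have := congrArg Complex.im h0
    simp at this
    exact hT0 this
  have hne1 : ∀ σ : ℝ, (σ : ℂ) + T * I ≠ 1 := by
    intro σ h0
    have := congrArg Complex.im h0
    simp at this
    exact hT0 this
  have hc : ContinuousOn (fun σ : ℝ => ((σ + T * I) * riemannZeta (σ + T * I))⁻¹)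
      (uIcc (-(1 / 2) : ℝ) 2) := by
    intro σ hσ
    rw [uIcc_of_le (by norm_num)] at hσ
    have h1 : ContinuousAt (fun σ : ℝ => (σ : ℂ) + T * I) σ := by fun_prop
    have h2 : ContinuousAt (fun σ : ℝ => riemannZeta (σ + T * I)) σ := by
      have h3 : ContinuousAt riemannZeta ((σ : ℂ) + T * I) :=
        (differentiableAt_riemannZeta (hne1 σ)).continuousAt
      exact ContinuousAt.comp (f := fun σ : ℝ => (σ : ℂ) + T * I) h3 h1
    exact ((h1.mul h2).inv₀ (mul_ne_zero (hne σ) (hz σ hσ.1 hσ.2))).continuousWithinAt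
  have hi : IntervalIntegrable (fun σ : ℝ => Real.exp (η ^ 2 * (9 / 4 - T ^ 2) / 2) *
      (x ^ (2 : ℝ) + x ^ (-(1 / 2) : ℝ)) * ‖((σ + T * I) * riemannZeta (σ + T * I))⁻¹‖) volume
      (-(1 / 2) : ℝ) 2 := (hc.norm.intervalIntegrable).const_mul _
  refine (intervalIntegral.norm_integral_le_of_norm_le (by norm_num) ?_ hi).trans ?_
  · refine Filter.Eventually.of_forall fun σ hσ => ?_
    unfold fc
    rw [norm_mul, norm_mul, K_norm, Complex.norm_cpow_eq_rpow_re_of_pos hx]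
    have hre : ((σ : ℂ) + T * I).re = σ := by simp
    rw [hre]
    apply mul_le_mul_of_nonneg_right _ (norm_nonneg _)
    apply mul_le_mul _ (WExplicit_rpow_le x σ hx hσ.1.le hσ.2) (Real.rpow_nonneg hx.le _)
      (Real.exp_pos _).le
    apply Real.exp_le_exp.2
    have h1 : (σ - 1 / 2) ^ 2 ≤ 9 / 4 := by nlinarith [hσ.1, hσ.2]
    have h2 : 0 ≤ η ^ 2 := sq_nonneg η
    have h3 : η ^ 2 * ((σ - 1 / 2) ^ 2 - T ^ 2) ≤ η ^ 2 * (9 / 4 - T ^ 2) :=
      mul_le_mul_of_nonneg_left (by linarith) h2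
    linarith
  · rw [intervalIntegral.integral_const_mul]
    apply mul_le_mul_of_nonneg_left hE
    have h3 : 0 < x ^ (2 : ℝ) := Real.rpow_pos_of_pos hx _
    have h4 : 0 < x ^ (-(1 / 2) : ℝ) := Real.rpow_pos_of_pos hx _
    positivity

private theorem WExplicit_lim (η D C₄ : ℝ) (hη : 0 < η) (T : ℕ → ℝ) (hT : ∀ n : ℕ, (n : ℝ) + 1 ≤ T n) :
    Tendsto (fun n : ℕ => Real.exp (η ^ 2 * (9 / 4 - T n ^ 2) / 2) * D *
      Real.exp (C₄ * ((n + 1 : ℕ) + 1))) atTop (𝓝 0) := by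
  have h1 : Tendsto (fun n : ℕ => Real.exp (-(((n : ℝ) + 1) * ((η ^ 2 / 2) * ((n : ℝ) + 1) - 2 * |C₄|)
      - η ^ 2 * (9 / 8)))) atTop (𝓝 0) := by
    apply Real.tendsto_exp_neg_atTop_nhds_zero.comp
    apply tendsto_atTop_add_const_right
    have h2 : Tendsto (fun n : ℕ => (n : ℝ) + 1) atTop atTop :=
      tendsto_atTop_add_const_right _ _ tendsto_natCast_atTop_atTop
    apply Tendsto.atTop_mul_atTop₀ h2
    apply tendsto_atTop_add_const_right
    exact h2.const_mul_atTop (by positivity)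
  have h2 := h1.const_mul |D|
  rw [mul_zero] at h2
  refine squeeze_zero_norm (fun n => ?_) h2
  rw [norm_mul, norm_mul, Real.norm_of_nonneg (Real.exp_pos _).le,
    Real.norm_of_nonneg (Real.exp_pos _).le, Real.norm_eq_abs]
  rw [show Real.exp (η ^ 2 * (9 / 4 - T n ^ 2) / 2) * |D| * Real.exp (C₄ * ((n + 1 : ℕ) + 1)) =
    |D| * (Real.exp (η ^ 2 * (9 / 4 - T n ^ 2) / 2) * Real.exp (C₄ * ((n + 1 : ℕ) + 1))) by ring,
    ← Real.exp_add]
  apply mul_le_mul_of_nonneg_left _ (abs_nonneg _)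
  apply Real.exp_le_exp.2
  have h3 := hT n
  have h4 : (0 : ℝ) ≤ n := by positivity
  have h5 : ((n : ℝ) + 1) ^ 2 ≤ T n ^ 2 := pow_le_pow_left₀ (by positivity) h3 2
  have h6 : C₄ ≤ |C₄| := le_abs_self _
  have h7 : C₄ * (((n + 1 : ℕ) : ℝ) + 1) ≤ 2 * |C₄| * ((n : ℝ) + 1) := by
    push_cast
    have h8 : C₄ * ((n : ℝ) + 1 + 1) ≤ |C₄| * ((n : ℝ) + 1 + 1) :=
      mul_le_mul_of_nonneg_right h6 (by positivity)
    have h9 : |C₄| * ((n : ℝ) + 1 + 1) ≤ |C₄| * (2 * ((n : ℝ) + 1)) :=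
      mul_le_mul_of_nonneg_left (by linarith) (abs_nonneg _)
    linarith
  have h8 : η ^ 2 * ((n : ℝ) + 1) ^ 2 ≤ η ^ 2 * T n ^ 2 :=
    mul_le_mul_of_nonneg_left h5 (sq_nonneg _)
  nlinarith

private theorem WExplicit_sum (C : ℝ) (hC : 1 ≤ C) (h : WB C) (η : ℝ) (hη : 0 < η) :
    Summable (fun γ : Zr => ‖a η γ‖) := by
  obtain ⟨A, k, hA, hr⟩ := wres_poly C hC h
  exact asum_summable A k hA hr η hη

theorem wexplicit (C : ℝ) (hC : 1 ≤ C) (h : WB C) (η x : ℝ) (hη : 0 < η) (hx : 0 < x) :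
    (SM η x : ℂ) = J η x - 2 * K η 0 + ∑' γ : Zr, a η γ * (x : ℂ) ^ (1 / 2 + (γ : ℝ) * I : ℂ) := by
  obtain ⟨C₄, hC₄, hgood⟩ := wgood_heights C hC h
  choose T hT1 hT2 hT3 hT4 hT5 using fun n : ℕ => hgood (n + 1) (by omega)
  have hTn : ∀ n : ℕ, (n : ℝ) + 1 ≤ T n := fun n => by
    have := hT1 n
    push_cast at this
    exact this
  have hTpos : ∀ n : ℕ, 0 < T n := fun n => by
    have h1 := hTn n
    have h2 : (0 : ℝ) ≤ n := by positivity
    linarith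
  have hTtop : Tendsto T atTop atTop :=
    tendsto_atTop_mono hTn (tendsto_atTop_add_const_right _ _ tendsto_natCast_atTop_atTop)
  have hTbot : Tendsto (fun n => -T n) atTop atBot := tendsto_neg_atTop_atBot.comp hTtop
  -- the contour formula
  have hcont : ∀ n : ℕ, Rect (fc η x) (-(1 / 2)) 2 (-T n) (T n) = 2 * Real.pi * I *
      (-2 * K η 0 + ∑ γ ∈ (zr_finite (T n)).toFinset, a η γ * (x : ℂ) ^ (1 / 2 + γ * I : ℂ)) :=
    fun n => wcontour C hC h η x (T n) hη hx (hTpos n) (hT3 n)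
  -- the horizontal sides
  have htop : Tendsto (fun n : ℕ => ∫ σ in (-(1 / 2) : ℝ)..2, fc η x (σ + (T n : ℝ) * I)) atTop
      (𝓝 0) := by
    refine squeeze_zero_norm (fun n => ?_)
      (WExplicit_lim η (x ^ (2 : ℝ) + x ^ (-(1 / 2) : ℝ)) C₄ hη T hTn)
    exact WExplicit_side η x (T n) _ hx (abs_pos.2 (hTpos n).ne') (fun σ h1 h2 => (hT3 n σ h1 h2).1)
      (hT4 n)
  have hbot : Tendsto (fun n : ℕ => ∫ σ in (-(1 / 2) : ℝ)..2, fc η x (σ + ((-T n : ℝ) : ℂ) * I)) atTop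
      (𝓝 0) := by
    refine squeeze_zero_norm (fun n => ?_)
      (WExplicit_lim η (x ^ (2 : ℝ) + x ^ (-(1 / 2) : ℝ)) C₄ hη T hTn)
    have e : ∀ σ : ℝ, (σ : ℂ) + ((-T n : ℝ) : ℂ) * I = σ - T n * I := by
      intro σ
      push_cast
      ring
    have h1 := WExplicit_side η x (-T n) (Real.exp (C₄ * ((n + 1 : ℕ) + 1))) hx
      (abs_pos.2 (neg_ne_zero.2 (hTpos n).ne'))
      (fun σ h1 h2 => by rw [e σ]; exact (hT3 n σ h1 h2).2)
      (by simp only [e]; exact hT5 n)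
    rw [neg_sq] at h1
    exact h1
  -- the right side
  have hF : ∀ t : ℝ, fc η x (2 + t * I) =
      K η (2 + t * I) * (x : ℂ) ^ (2 + t * I : ℂ) * F (2 + t * I) := by
    intro t
    unfold fc
    rw [(wF_inv C hC h (2 + t * I) (by simp; norm_num) (by
      intro h0
      have := congrArg Complex.re h0
      simp at this)).2]
  have hright : Tendsto (fun n : ℕ => ∫ y in (-T n)..(T n), fc η x (2 + y * I)) atTop
      (𝓝 (2 * Real.pi * (SM η x : ℂ))) := by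
    have h1 : Integrable (fun t : ℝ => fc η x (2 + t * I)) := by
      simp only [hF]
      exact sm_line_integrable η x hη hx
    have h2 := intervalIntegral_tendsto_integral h1 hTbot hTtop
    have h3 : ∫ t : ℝ, fc η x (2 + t * I) = 2 * Real.pi * (SM η x : ℂ) := by
      rw [sm_line η x hη hx, ← mul_assoc, mul_inv_cancel₀, one_mul]
      · simp only [hF]
      · have := Real.pi_ne_zero
        simp [this]
    rw [h3] at h2
    exact h2
  -- the left side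
  have hleft : Tendsto (fun n : ℕ => ∫ y in (-T n)..(T n), fc η x (-(1 / 2) + y * I)) atTop
      (𝓝 (2 * Real.pi * J η x)) := by
    have h1 : Integrable (fun t : ℝ => fc η x (-(1 / 2) + t * I)) := J_integrable η x hη hx
    have h2 := intervalIntegral_tendsto_integral h1 hTbot hTtop
    have h3 : ∫ t : ℝ, fc η x (-(1 / 2) + t * I) = 2 * Real.pi * J η x := by
      unfold J
      rw [← mul_assoc, mul_inv_cancel₀, one_mul]
      · rfl
      · have := Real.pi_ne_zero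
        simp [this]
    rw [h3] at h2
    exact h2
  -- the sum
  have hsum : Tendsto (fun n : ℕ => ∑ γ ∈ (zr_finite (T n)).toFinset,
      a η γ * (x : ℂ) ^ (1 / 2 + γ * I : ℂ)) atTop
      (𝓝 (∑' γ : Zr, a η γ * (x : ℂ) ^ (1 / 2 + (γ : ℝ) * I : ℂ))) := by
    classical
    have h1 : Summable (fun γ : Zr => a η γ * (x : ℂ) ^ (1 / 2 + (γ : ℝ) * I : ℂ)) := by
      apply Summable.of_norm
      have h2 := (WExplicit_sum C hC h η hη).mul_right (x ^ (1 / 2 : ℝ))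
      refine h2.congr fun γ => ?_
      rw [norm_mul, Complex.norm_cpow_eq_rpow_re_of_pos hx]
      congr 2
      simp
    have h2 : Tendsto (fun n : ℕ => (zr_finite (T n)).toFinset.subtype (fun γ => γ ∈ Zr)) atTop
        atTop := by
      apply tendsto_atTop_finset_of_monotone
      · apply monotone_nat_of_le_succ
        intro n γ hγ
        rw [Finset.mem_subtype, Set.Finite.mem_toFinset] at hγ ⊢
        refine ⟨hγ.1, hγ.2.trans_le ?_⟩
        have h3 := hT2 n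
        have h4 := hT1 (n + 1)
        push_cast at h3 h4
        linarith
      · intro γ
        obtain ⟨n, hn⟩ := exists_nat_gt |(γ : ℝ)|
        refine ⟨n, ?_⟩
        rw [Finset.mem_subtype, Set.Finite.mem_toFinset]
        refine ⟨γ.2, hn.trans_le ?_⟩
        have := hTn n
        linarith
    have h3 := h1.hasSum.comp h2
    refine h3.congr fun n => ?_
    simp only [Function.comp]
    exact Finset.sum_subtype_of_mem (fun γ : ℝ => a η γ * (x : ℂ) ^ (1 / 2 + γ * I : ℂ))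
      (fun γ hγ => by
        rw [Set.Finite.mem_toFinset] at hγ
        exact hγ.1)
  -- limits
  have hL : Tendsto (fun n : ℕ => Rect (fc η x) (-(1 / 2)) 2 (-T n) (T n)) atTop
      (𝓝 (0 - 0 + I * (2 * Real.pi * (SM η x : ℂ)) - I * (2 * Real.pi * J η x))) := by
    unfold Rect
    have e1 : (((2 : ℝ)) : ℂ) = 2 := by push_cast; rfl
    have e2 : (((-(1 / 2) : ℝ)) : ℂ) = -(1 / 2) := by push_cast; rfl
    simp only [e1, e2]
    exact ((hbot.sub htop).add (hright.const_mul I)).sub (hleft.const_mul I)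
  have hR : Tendsto (fun n : ℕ => Rect (fc η x) (-(1 / 2)) 2 (-T n) (T n)) atTop
      (𝓝 (2 * Real.pi * I *
      (-2 * K η 0 + ∑' γ : Zr, a η γ * (x : ℂ) ^ (1 / 2 + (γ : ℝ) * I : ℂ)))) := by
    simp only [hcont]
    exact (hsum.const_add _).const_mul _
  have hE := tendsto_nhds_unique hL hR
  have hpi : (2 * Real.pi * I : ℂ) ≠ 0 := by
    have := Real.pi_ne_zero
    simp [this]
  have h5 : 2 * Real.pi * I * ((SM η x : ℂ) - J η x) = 2 * Real.pi * I *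
      (-2 * K η 0 + ∑' γ : Zr, a η γ * (x : ℂ) ^ (1 / 2 + (γ : ℝ) * I : ℂ)) := by
    rw [← hE]
    ring
  have h6 := mul_left_cancel₀ hpi h5
  rw [sub_eq_iff_eq_add] at h6
  rw [h6]
  ring

private theorem WExplicit_cpow_summable (C : ℝ) (hC : 1 ≤ C) (h : WB C) (η x : ℝ) (hη : 0 < η) (hx : 0 < x) :
    Summable (fun γ : Zr => a η γ * (x : ℂ) ^ (1 / 2 + (γ : ℝ) * I : ℂ)) := by
  have h1 := (WExplicit_sum C hC h η hη).mul_right (Real.sqrt x)
  refine Summable.of_norm_bounded h1 fun γ => ?_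
  rw [norm_mul, cpow_norm_half x γ hx]

private theorem WExplicit_scale_bound (C : ℝ) (hC : 1 ≤ C) (h : WB C) (η τ u ε : ℝ) (hη : 0 < η) (hu : 0 < u)
    (hu1 : u ≤ 1)
    (hτ : ∑' γ : Zr, ‖a η γ‖ * ‖Complex.exp (((γ : ℝ) * τ : ℝ) * I) - 1‖ ≤ ε) :
    ‖((SM η (Real.exp τ * u) : ℝ) : ℂ) - (Real.sqrt (Real.exp τ) : ℂ) * (SM η u : ℂ) -
        (J η (Real.exp τ * u) - 2 * K η 0) + (Real.sqrt (Real.exp τ) : ℂ) * (J η u - 2 * K η 0)‖ ≤
      Real.sqrt (Real.exp τ) * ε := by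
  have hX : 0 < Real.exp τ := Real.exp_pos τ
  have hXu : 0 < Real.exp τ * u := mul_pos hX hu
  rw [wexplicit C hC h η _ hη hXu, wexplicit C hC h η u hη hu]
  have hs1 := WExplicit_cpow_summable C hC h η _ hη hXu
  have hs2 := WExplicit_cpow_summable C hC h η u hη hu
  have h1 : (J η (Real.exp τ * u) - 2 * K η 0 +
        ∑' γ : Zr, a η γ * ((Real.exp τ * u : ℝ) : ℂ) ^ (1 / 2 + (γ : ℝ) * I : ℂ)) -
      (Real.sqrt (Real.exp τ) : ℂ) * (J η u - 2 * K η 0 +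
        ∑' γ : Zr, a η γ * (u : ℂ) ^ (1 / 2 + (γ : ℝ) * I : ℂ)) -
        (J η (Real.exp τ * u) - 2 * K η 0) + (Real.sqrt (Real.exp τ) : ℂ) * (J η u - 2 * K η 0) =
      ∑' γ : Zr, (a η γ * ((Real.exp τ * u : ℝ) : ℂ) ^ (1 / 2 + (γ : ℝ) * I : ℂ) -
        (Real.sqrt (Real.exp τ) : ℂ) * (a η γ * (u : ℂ) ^ (1 / 2 + (γ : ℝ) * I : ℂ))) := by
    rw [hs1.tsum_sub (hs2.mul_left _), tsum_mul_left]
    ring
  rw [h1]
  have hw : Summable fun γ : Zr => ‖a η γ‖ * ‖Complex.exp (((γ : ℝ) * τ : ℝ) * I) - 1‖ := by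
    refine Summable.of_nonneg_of_le (fun γ => by positivity) (fun γ => ?_)
      ((WExplicit_sum C hC h η hη).mul_right 2)
    refine mul_le_mul_of_nonneg_left ?_ (norm_nonneg _)
    refine (norm_sub_le _ _).trans ?_
    rw [Complex.norm_exp_ofReal_mul_I, norm_one]
    norm_num
  have h2 : ∀ γ : Zr, ‖a η γ * ((Real.exp τ * u : ℝ) : ℂ) ^ (1 / 2 + (γ : ℝ) * I : ℂ) -
        (Real.sqrt (Real.exp τ) : ℂ) * (a η γ * (u : ℂ) ^ (1 / 2 + (γ : ℝ) * I : ℂ))‖ ≤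
      Real.sqrt (Real.exp τ) * (‖a η γ‖ * ‖Complex.exp (((γ : ℝ) * τ : ℝ) * I) - 1‖) := by
    intro γ
    have h3 : a η γ * ((Real.exp τ * u : ℝ) : ℂ) ^ (1 / 2 + (γ : ℝ) * I : ℂ) -
        (Real.sqrt (Real.exp τ) : ℂ) * (a η γ * (u : ℂ) ^ (1 / 2 + (γ : ℝ) * I : ℂ)) =
        a η γ * ((Real.sqrt (Real.exp τ) : ℂ) * (u : ℂ) ^ (1 / 2 + ((γ : ℝ) : ℂ) * I : ℂ) *
          (Complex.exp (((γ : ℝ) * τ : ℝ) * I) - 1)) := by
      rw [← cpow_scale τ u γ hu]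
      ring
    rw [h3, norm_mul, norm_mul, norm_mul, cpow_norm_half u γ hu, Complex.norm_real,
      Real.norm_of_nonneg (Real.sqrt_nonneg _)]
    have h4 : Real.sqrt u ≤ 1 := Real.sqrt_le_one.2 hu1
    have h5 : 0 ≤ Real.sqrt (Real.exp τ) * (‖a η γ‖ * ‖Complex.exp (((γ : ℝ) * τ : ℝ) * I) - 1‖) := by
      positivity
    calc ‖a η γ‖ * (Real.sqrt (Real.exp τ) * Real.sqrt u *
          ‖Complex.exp (((γ : ℝ) * τ : ℝ) * I) - 1‖)
        = Real.sqrt u * (Real.sqrt (Real.exp τ) *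
          (‖a η γ‖ * ‖Complex.exp (((γ : ℝ) * τ : ℝ) * I) - 1‖)) := by ring
      _ ≤ 1 * (Real.sqrt (Real.exp τ) *
          (‖a η γ‖ * ‖Complex.exp (((γ : ℝ) * τ : ℝ) * I) - 1‖)) :=
          mul_le_mul_of_nonneg_right h4 h5
      _ = _ := one_mul _
  calc ‖∑' γ : Zr, (a η γ * ((Real.exp τ * u : ℝ) : ℂ) ^ (1 / 2 + (γ : ℝ) * I : ℂ) -
        (Real.sqrt (Real.exp τ) : ℂ) * (a η γ * (u : ℂ) ^ (1 / 2 + (γ : ℝ) * I : ℂ)))‖
      ≤ ∑' γ : Zr, Real.sqrt (Real.exp τ) *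
          (‖a η γ‖ * ‖Complex.exp (((γ : ℝ) * τ : ℝ) * I) - 1‖) :=
        tsum_of_norm_bounded (hw.mul_left _).hasSum h2
    _ = Real.sqrt (Real.exp τ) * ∑' γ : Zr,
          (‖a η γ‖ * ‖Complex.exp (((γ : ℝ) * τ : ℝ) * I) - 1‖) := tsum_mul_left
    _ ≤ Real.sqrt (Real.exp τ) * ε := mul_le_mul_of_nonneg_left hτ (Real.sqrt_nonneg _)

theorem wdiff_bound (C : ℝ) (hC : 1 ≤ C) (h : WB C) (η τ u u' ε CS CL CJ : ℝ) (hη : 0 < η)
    (hτ0 : 0 ≤ τ)
    (hu : 1 / 4 ≤ u) (hu1 : u ≤ 17 / 20) (hu' : 1 / 4 ≤ u') (hu1' : u' ≤ 17 / 20)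
    (hCS : ∀ y : ℝ, 0 < y → y ≤ 17 / 20 → |SM η y| ≤ CS)
    (hCL : ∀ x y : ℝ, 1 / 4 ≤ x → x ≤ 1 → 1 / 4 ≤ y → y ≤ 1 → ‖J η x - J η y‖ ≤ CL * |x - y|)
    (hCJ : ∀ x : ℝ, 1 / 4 ≤ x → ‖J η x‖ ≤ CJ)
    (hτ : ∑' γ : Zr, ‖a η γ‖ * ‖Complex.exp (((γ : ℝ) * τ : ℝ) * I) - 1‖ ≤ ε) :
    |SM η (Real.exp τ * u) - SM η (Real.exp τ * u')| ≤
      2 * CJ + Real.sqrt (Real.exp τ) * (2 * CS + CL * |u - u'| + 2 * ε) := by
  have hX1 : 1 ≤ Real.exp τ := Real.one_le_exp hτ0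
  have h1 := WExplicit_scale_bound C hC h η τ u ε hη (by linarith) (by linarith) hτ
  have h2 := WExplicit_scale_bound C hC h η τ u' ε hη (by linarith) (by linarith) hτ
  set X := Real.exp τ with hX
  set q := Real.sqrt X with hq
  have hq0 : 0 ≤ q := Real.sqrt_nonneg _
  set E : ℂ := ((SM η (X * u) : ℝ) : ℂ) - (q : ℂ) * (SM η u : ℂ) -
        (J η (X * u) - 2 * K η 0) + (q : ℂ) * (J η u - 2 * K η 0) with hE
  set E' : ℂ := ((SM η (X * u') : ℝ) : ℂ) - (q : ℂ) * (SM η u' : ℂ) -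
        (J η (X * u') - 2 * K η 0) + (q : ℂ) * (J η u' - 2 * K η 0) with hE'
  have h3 : (((SM η (X * u) - SM η (X * u') : ℝ)) : ℂ) =
      (E - E') + (q : ℂ) * ((SM η u - SM η u' : ℝ) : ℂ) + (J η (X * u) - J η (X * u')) -
        (q : ℂ) * (J η u - J η u') := by
    rw [hE, hE']
    push_cast
    ring
  have h4 : |SM η (X * u) - SM η (X * u')| = ‖(((SM η (X * u) - SM η (X * u') : ℝ)) : ℂ)‖ := by
    rw [Complex.norm_real, Real.norm_eq_abs]
  rw [h4, h3]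
  have hXu : 1 / 4 ≤ X * u := by nlinarith
  have hXu' : 1 / 4 ≤ X * u' := by nlinarith
  have b1 : ‖E - E'‖ ≤ 2 * (q * ε) := (norm_sub_le _ _).trans (by linarith)
  have b2 : ‖(q : ℂ) * ((SM η u - SM η u' : ℝ) : ℂ)‖ ≤ q * (2 * CS) := by
    rw [norm_mul, Complex.norm_real, Complex.norm_real, Real.norm_of_nonneg hq0, Real.norm_eq_abs]
    refine mul_le_mul_of_nonneg_left ?_ hq0
    have := abs_sub (SM η u) (SM η u')
    have e1 := hCS u (by linarith) hu1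
    have e2 := hCS u' (by linarith) hu1'
    linarith
  have b3 : ‖J η (X * u) - J η (X * u')‖ ≤ 2 * CJ :=
    (norm_sub_le _ _).trans (by have := hCJ _ hXu; have := hCJ _ hXu'; linarith)
  have b4 : ‖(q : ℂ) * (J η u - J η u')‖ ≤ q * (CL * |u - u'|) := by
    rw [norm_mul, Complex.norm_real, Real.norm_of_nonneg hq0]
    exact mul_le_mul_of_nonneg_left (hCL u u' hu (by linarith) hu' (by linarith)) hq0
  calc ‖(E - E') + (q : ℂ) * ((SM η u - SM η u' : ℝ) : ℂ) + (J η (X * u) - J η (X * u')) -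
        (q : ℂ) * (J η u - J η u')‖
      ≤ ‖E - E'‖ + ‖(q : ℂ) * ((SM η u - SM η u' : ℝ) : ℂ)‖ + ‖J η (X * u) - J η (X * u')‖ +
        ‖(q : ℂ) * (J η u - J η u')‖ := by
        refine (norm_sub_le _ _).trans (add_le_add_left ?_ _)
        exact (norm_add_le _ _).trans (add_le_add_left (norm_add_le _ _) _)
    _ ≤ _ := by
        nlinarith

end Pool.Agent.H82.GY
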