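import Pool.Agent.H82.GY.WinY
import Pool.Agent.H82.GY.SBY
import Pool.Agent.H82.GY.WExplicit
import Pool.Agent.H82.GY.WErr
import Pool.Agent.H82.GY.JBu
import Pool.Agent.H82.GY.RecurQ
import Pool.Agent.H82.GY.Sel
import Pool.Agent.H56.GX.SMSmall
import Pool.Agent.H56.GX.Final

/-!
GY module FinalY: assembly.
-/

set_option autoImplicit false

namespace Pool.Agent.H82.GY

open MeasureTheory Set Complex Filter Topology
open Pool.Agent.H56.GX

/-- slow functions are small compared with `X` -/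
theorem slow_small (g : ℝ → ℝ) (hg : Reg g) (θ X₁ M : ℝ) (hθ1 : θ ≤ 1)
    (hs : ∀ X : ℝ, X₁ ≤ X → g X ≤ (Real.log (Real.log X)) ^ θ) :
    ∃ X₂ : ℝ, ∀ X : ℝ, X₂ ≤ X → M * g X ≤ X := by
  have h1 : ∀ᶠ X : ℝ in atTop, 1 ≤ Real.log (Real.log X) :=
    (Real.tendsto_log_atTop.comp Real.tendsto_log_atTop).eventually_ge_atTop 1
  have h2 : ∀ᶠ X : ℝ in atTop, ‖Real.log X‖ ≤ (1 / (|M| + 1)) * ‖id X‖ :=
    Real.isLittleO_log_id_atTop.bound (by positivity)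
  obtain ⟨X₂, hX₂⟩ := eventually_atTop.1 ((h1.and h2).and (eventually_ge_atTop (max X₁ 1)))
  refine ⟨X₂, fun X hX => ?_⟩
  obtain ⟨⟨e1, e2⟩, e3⟩ := hX₂ X hX
  have e4 : X₁ ≤ X := (le_max_left _ _).trans e3
  have e5 : 1 ≤ X := (le_max_right _ _).trans e3
  have hX0 : 0 < X := by linarith
  have e6 := hs X e4
  have e7 : (Real.log (Real.log X)) ^ θ ≤ Real.log (Real.log X) := by
    have := Real.rpow_le_rpow_of_exponent_le e1 hθ1
    rwa [Real.rpow_one] at this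
  have e8 : 0 < Real.log X := by
    by_contra hcon
    push Not at hcon
    have : Real.log X = 0 := le_antisymm hcon (Real.log_nonneg e5)
    rw [this, Real.log_zero] at e1
    linarith
  have e9 : Real.log (Real.log X) ≤ Real.log X := by
    have := Real.log_le_sub_one_of_pos e8
    linarith
  have e10 : Real.log X ≤ (1 / (|M| + 1)) * X := by
    rw [Real.norm_of_nonneg e8.le, id, Real.norm_of_nonneg hX0.le] at e2
    exact e2
  have hg1 := hg.one_le X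
  have e11 : g X ≤ (1 / (|M| + 1)) * X := by linarith
  have e12 : M * g X ≤ (|M| + 1) * g X := by
    have := le_abs_self M
    nlinarith
  refine e12.trans ?_
  calc (|M| + 1) * g X ≤ (|M| + 1) * ((1 / (|M| + 1)) * X) :=
        mul_le_mul_of_nonneg_left e11 (by positivity)
    _ = X := by
        have : (|M| + 1) ≠ 0 := by positivity
        field_simp

/-- the selected scale -/
theorem scale (g : ℝ → ℝ) (hg : Reg g) (hlim : Tendsto g atTop atTop) (θ' X₁ : ℝ) (hθ0 : 0 ≤ θ')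
    (hs : ∀ X : ℝ, X₁ ≤ X → g X ≤ (Real.log (Real.log X)) ^ θ')
    (Dq ε : ℝ) (hD : 0 < Dq) (hε : 0 < ε) (hεθ : (1 + 2 * ε) * θ' < 1) (T₀ Xm : ℝ)
    (hrec : ∀ η τ₀ : ℝ, 0 < η → η ≤ 1 / 2 → 1 ≤ τ₀ →
      ∃ τ : ℝ, τ₀ ≤ τ ∧ τ ≤ τ₀ * Real.exp (Dq * (1 / η) * (Real.log (1 / η)) ^ 3) ∧
        ∑' γ : Zr, ‖a η γ‖ * ‖Complex.exp (((γ : ℝ) * τ : ℝ) * I) - 1‖ ≤ η ^ 2) :
    ∃ T τ : ℝ, T₀ ≤ T ∧ 2 ≤ T ∧ 0 ≤ τ ∧ Xm ≤ Real.exp τ ∧ T / 2 ≤ g (Real.exp τ) ∧ g (Real.exp τ) ≤ T ∧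
      ∑' γ : Zr, ‖a (T ^ (-(1 + ε))) γ‖ * ‖Complex.exp (((γ : ℝ) * τ : ℝ) * I) - 1‖ ≤
        (T ^ (-(1 + ε))) ^ 2 := by
  set G : ℝ → ℝ := fun y => g (Real.exp (Real.exp y)) with hG
  have hGm : Monotone G := by
    intro y z hyz
    exact hg.mono (Real.exp_le_exp.2 (Real.exp_le_exp.2 hyz))
  have hG1 : ∀ y, 1 ≤ G y := fun y => hg.one_le _
  have hslow : ∀ y : ℝ, X₁ ≤ y → G y ≤ y ^ θ' := by
    intro y hy
    have h1 : y ≤ Real.exp (Real.exp y) := by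
      have e1 := Real.add_one_le_exp y
      have e2 := Real.add_one_le_exp (Real.exp y)
      linarith
    have h2 := hs (Real.exp (Real.exp y)) (hy.trans h1)
    rw [Real.log_exp, Real.log_exp] at h2
    exact h2
  have hGlim : Tendsto G atTop atTop :=
    hlim.comp (Real.tendsto_exp_atTop.comp Real.tendsto_exp_atTop)
  obtain ⟨y₂, hy₂⟩ := eventually_atTop.1 (hGlim.eventually_ge_atTop T₀)
  set A : ℝ := Dq * ((1 + ε) * (3 / ε)) ^ 3 with hA
  have hA0 : 0 < A := by positivity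
  obtain ⟨y, hy, hGy⟩ := select G hGm hG1 (1 + 2 * ε) θ' A X₁ (by linarith) hθ0 hεθ hA0 hslow
    (max y₂ (max Xm 0))
  have hy2 : y₂ ≤ y := (le_max_left _ _).trans hy
  have hyX : Xm ≤ y := ((le_max_left _ _).trans (le_max_right _ _)).trans hy
  have hy0 : 0 ≤ y := ((le_max_right _ _).trans (le_max_right _ _)).trans hy
  set T : ℝ := 2 * G y with hT
  have hT1 : 2 ≤ T := by
    have := hG1 y
    linarith
  have hTT : T₀ ≤ T := by
    have h1 := hy₂ y hy2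
    have h2 := hG1 y
    linarith
  have hT0 : 0 < T := by linarith
  set η : ℝ := T ^ (-(1 + ε)) with hη
  have hη0 : 0 < η := Real.rpow_pos_of_pos hT0 _
  have hηinv : 1 / η = T ^ (1 + ε) := by
    rw [hη, Real.rpow_neg hT0.le, one_div, inv_inv]
  have hη12 : η ≤ 1 / 2 := by
    have h1 : (2 : ℝ) ≤ T ^ (1 + ε) := by
      calc (2 : ℝ) ≤ T := hT1
        _ = T ^ (1 : ℝ) := (Real.rpow_one T).symm
        _ ≤ T ^ (1 + ε) := Real.rpow_le_rpow_of_exponent_le (by linarith) (by linarith)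
    rw [← hηinv] at h1
    rw [le_div_iff₀ hη0] at h1
    linarith
  obtain ⟨τ, hτ1, hτ2, hτ3⟩ := hrec η (Real.exp y) hη0 hη12 (Real.one_le_exp hy0)
  have hτ0 : 0 ≤ τ := (Real.exp_pos y).le.trans hτ1
  refine ⟨T, τ, hTT, hT1, hτ0, ?_, ?_, ?_, hτ3⟩
  · have e1 := Real.add_one_le_exp y
    have e2 := Real.add_one_le_exp τ
    linarith
  · have h1 : G y ≤ g (Real.exp τ) := hg.mono (Real.exp_le_exp.2 hτ1)
    rw [hT]
    linarith
  · have hlog : Real.log (1 / η) = (1 + ε) * Real.log T := by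
      rw [hηinv, Real.log_rpow hT0]
    have hlogT : Real.log T ≤ T ^ (ε / 3) / (ε / 3) := Real.log_le_rpow_div hT0.le (by positivity)
    have hlogT0 : 0 ≤ Real.log T := Real.log_nonneg (by linarith)
    have h1 : (Real.log (1 / η)) ^ 3 ≤ ((1 + ε) * (3 / ε)) ^ 3 * T ^ ε := by
      rw [hlog]
      have h2 : (1 + ε) * Real.log T ≤ (1 + ε) * (3 / ε) * T ^ (ε / 3) := by
        have h3 : T ^ (ε / 3) / (ε / 3) = 3 / ε * T ^ (ε / 3) := by
          field_simp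
        rw [h3] at hlogT
        calc (1 + ε) * Real.log T ≤ (1 + ε) * (3 / ε * T ^ (ε / 3)) :=
              mul_le_mul_of_nonneg_left hlogT (by positivity)
          _ = _ := by ring
      have h4 : ((1 + ε) * Real.log T) ^ 3 ≤ ((1 + ε) * (3 / ε) * T ^ (ε / 3)) ^ 3 :=
        pow_le_pow_left₀ (by positivity) h2 3
      refine h4.trans (le_of_eq ?_)
      rw [mul_pow _ (T ^ (ε / 3)) 3, ← Real.rpow_natCast (T ^ (ε / 3)) 3, ← Real.rpow_mul hT0.le]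
      congr 2
      push_cast
      ring
    have h2 : Dq * (1 / η) * (Real.log (1 / η)) ^ 3 ≤ A * T ^ (1 + 2 * ε) := by
      rw [hηinv]
      rw [hηinv] at h1
      calc Dq * T ^ (1 + ε) * (Real.log (T ^ (1 + ε))) ^ 3
          ≤ Dq * T ^ (1 + ε) * (((1 + ε) * (3 / ε)) ^ 3 * T ^ ε) :=
            mul_le_mul_of_nonneg_left h1 (by positivity)
        _ = A * (T ^ (1 + ε) * T ^ ε) := by rw [hA]; ring
        _ = A * T ^ (1 + 2 * ε) := by
            rw [← Real.rpow_add hT0]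
            congr 2
            ring
    have h3 : τ ≤ Real.exp (y + A * T ^ (1 + 2 * ε)) := by
      refine hτ2.trans ?_
      rw [← Real.exp_add]
      exact Real.exp_le_exp.2 (by linarith)
    have h4 : g (Real.exp τ) ≤ G (y + A * T ^ (1 + 2 * ε)) := hg.mono (Real.exp_le_exp.2 h3)
    exact h4.trans hGy

/-- parameters: powers of `T` beat constants -/
theorem params (ε M₁ M₂ : ℝ) (hε : 0 < ε) : ∃ T₀ : ℝ, 40 ≤ T₀ ∧ ∀ T : ℝ, T₀ ≤ T →
    M₁ ≤ T ^ (2 * ε) ∧ M₂ ≤ T ^ (3 / 8 : ℝ) := by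
  have h1 : Tendsto (fun T : ℝ => T ^ (2 * ε)) atTop atTop := tendsto_rpow_atTop (by positivity)
  have h2 : Tendsto (fun T : ℝ => T ^ (3 / 8 : ℝ)) atTop atTop := tendsto_rpow_atTop (by norm_num)
  obtain ⟨N, hN⟩ := eventually_atTop.1
    ((h1.eventually_ge_atTop M₁).and (h2.eventually_ge_atTop M₂))
  refine ⟨max N 40, le_max_right _ _, fun T hT => hN T ((le_max_left _ _).trans hT)⟩

/-- the size of `Q` -/
theorem final_Qy (c CS CL ε T : ℝ) (hc : 0 < c) (hCS : 0 < CS) (hCL : 0 < CL) (hε : 0 < ε) (hε4 : ε ≤ 1 / 4)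
    (hT : 40 ≤ T) (hM : 120 * (2 * CS + 2 + CL) ^ 2 / c ≤ T ^ (3 / 8 : ℝ)) :
    (2 * (CS * (T ^ (-(1 + ε))) ^ 2) + CL * (T ^ (-(1 + ε))) ^ (-(1 / 4) : ℝ) * (2 / 5 * (1 / T)) +
      2 * (T ^ (-(1 + ε))) ^ 2) ^ 2 ≤ c / (120 * T) := by
  have hT0 : 0 < T := by linarith
  have hT1 : 1 ≤ T := by linarith
  have e1 : (T ^ (-(1 + ε))) ^ 2 ≤ T ^ (-(11 / 16) : ℝ) := by
    rw [← Real.rpow_natCast (T ^ (-(1 + ε))) 2, ← Real.rpow_mul hT0.le]
    apply Real.rpow_le_rpow_of_exponent_le hT1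
    push_cast
    linarith
  have e2 : (T ^ (-(1 + ε))) ^ (-(1 / 4) : ℝ) * (2 / 5 * (1 / T)) ≤ T ^ (-(11 / 16) : ℝ) := by
    rw [← Real.rpow_mul hT0.le]
    have h1 : T ^ (-(1 + ε) * -(1 / 4)) ≤ T ^ (5 / 16 : ℝ) :=
      Real.rpow_le_rpow_of_exponent_le hT1 (by linarith)
    have h2 : T ^ (-(11 / 16) : ℝ) = T ^ (5 / 16 : ℝ) * (1 / T) := by
      have : (-(11 / 16) : ℝ) = 5 / 16 + (-1) := by norm_num
      rw [this, Real.rpow_add hT0, Real.rpow_neg_one, one_div]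
    rw [h2]
    have h3 : 0 < T ^ (5 / 16 : ℝ) := Real.rpow_pos_of_pos hT0 _
    have h4 : 0 < 1 / T := by positivity
    calc T ^ (-(1 + ε) * -(1 / 4)) * (2 / 5 * (1 / T)) ≤ T ^ (5 / 16 : ℝ) * (2 / 5 * (1 / T)) :=
          mul_le_mul_of_nonneg_right h1 (by positivity)
      _ ≤ T ^ (5 / 16 : ℝ) * (1 / T) := by
          apply mul_le_mul_of_nonneg_left _ h3.le
          linarith
  set L : ℝ := 2 * CS + 2 + CL with hL
  have hL0 : 0 < L := by positivity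
  set p : ℝ := T ^ (-(11 / 16) : ℝ) with hp
  have hp0 : 0 < p := Real.rpow_pos_of_pos hT0 _
  have e3 : 2 * (CS * (T ^ (-(1 + ε))) ^ 2) + CL * (T ^ (-(1 + ε))) ^ (-(1 / 4) : ℝ) * (2 / 5 * (1 / T)) +
      2 * (T ^ (-(1 + ε))) ^ 2 ≤ L * p := by
    have h1 := mul_le_mul_of_nonneg_left e1 hCS.le
    have h2 := mul_le_mul_of_nonneg_left e2 hCL.le
    have h3 : CL * (T ^ (-(1 + ε))) ^ (-(1 / 4) : ℝ) * (2 / 5 * (1 / T)) =
        CL * ((T ^ (-(1 + ε))) ^ (-(1 / 4) : ℝ) * (2 / 5 * (1 / T))) := by ring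
    rw [h3, hL]
    nlinarith
  have e4 : 0 ≤ 2 * (CS * (T ^ (-(1 + ε))) ^ 2) +
      CL * (T ^ (-(1 + ε))) ^ (-(1 / 4) : ℝ) * (2 / 5 * (1 / T)) + 2 * (T ^ (-(1 + ε))) ^ 2 := by
    have := Real.rpow_pos_of_pos hT0 (-(1 + ε))
    have := Real.rpow_pos_of_pos this (-(1 / 4) : ℝ)
    positivity
  have e5 := pow_le_pow_left₀ e4 e3 2
  refine e5.trans ?_
  have e6 : p ^ 2 * T ^ (3 / 8 : ℝ) = 1 / T := by
    rw [hp, ← Real.rpow_natCast (T ^ (-(11 / 16) : ℝ)) 2, ← Real.rpow_mul hT0.le,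
      ← Real.rpow_add hT0, one_div, ← Real.rpow_neg_one]
    congr 1
    norm_num
  have e7 : 120 * L ^ 2 ≤ T ^ (3 / 8 : ℝ) * c := by
    rwa [div_le_iff₀ hc] at hM
  have e8 : L ^ 2 * p ^ 2 * 120 ≤ c * (1 / T) := by
    calc L ^ 2 * p ^ 2 * 120 = (120 * L ^ 2) * p ^ 2 := by ring
      _ ≤ (T ^ (3 / 8 : ℝ) * c) * p ^ 2 := mul_le_mul_of_nonneg_right e7 (sq_nonneg _)
      _ = c * (p ^ 2 * T ^ (3 / 8 : ℝ)) := by ring
      _ = c * (1 / T) := by rw [e6]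
  rw [mul_pow]
  have e9 : c / (120 * T) = c * (1 / T) / 120 := by
    field_simp
  rw [e9, le_div_iff₀ (by norm_num)]
  exact e8

/-- the size of the smoothing error -/
theorem final_Ry (B c A₁ C κ₂ ε T X gX : ℝ) (hB : 0 < B) (hA₁ : 0 < A₁) (hC : 1 ≤ C)
    (hκ : 0 < κ₂) (hκc : κ₂ ≤ c / (300 * A₁ * B)) (hT : 40 ≤ T) (hX : 0 < X)
    (hgX : gX ≤ T) (hM : (B / κ₂ + 2 * C) / (B * κ₂) ≤ T ^ (2 * ε)) :
    15 * (A₁ * (B * ((κ₂ * X / T) / X + (T ^ (-(1 + ε))) ^ 2 * X / (κ₂ * X / T)) +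
      (2 * C * gX) * (T ^ (-(1 + ε))) ^ 2) * X ^ 2) / X ≤ c * X / (10 * T) := by
  have hT0 : 0 < T := by linarith
  set η2 : ℝ := (T ^ (-(1 + ε))) ^ 2 with hη2
  have hη20 : 0 < η2 := by
    have := Real.rpow_pos_of_pos hT0 (-(1 + ε))
    positivity
  have e1 : η2 * T * T ^ (2 * ε) = 1 / T := by
    rw [hη2, ← Real.rpow_natCast (T ^ (-(1 + ε))) 2, ← Real.rpow_mul hT0.le]
    nth_rewrite 2 [← Real.rpow_one T]
    rw [← Real.rpow_add hT0, ← Real.rpow_add hT0, one_div, ← Real.rpow_neg_one]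
    congr 1
    push_cast
    ring
  have e2 : (B / κ₂ + 2 * C) * (η2 * T) ≤ B * κ₂ / T := by
    rw [div_le_iff₀ (by positivity)] at hM
    have h1 : 0 < η2 * T := by positivity
    calc (B / κ₂ + 2 * C) * (η2 * T) ≤ (T ^ (2 * ε) * (B * κ₂)) * (η2 * T) :=
          mul_le_mul_of_nonneg_right hM h1.le
      _ = (η2 * T * T ^ (2 * ε)) * (B * κ₂) := by ring
      _ = B * κ₂ / T := by rw [e1]; ring
  have e3 : B * ((κ₂ * X / T) / X + η2 * X / (κ₂ * X / T)) + (2 * C * gX) * η2 ≤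
      2 * (B * κ₂ / T) := by
    have h1 : (κ₂ * X / T) / X = κ₂ / T := by field_simp
    have h2 : η2 * X / (κ₂ * X / T) = η2 * T / κ₂ := by field_simp
    have h3 : (2 * C * gX) * η2 ≤ 2 * C * (η2 * T) := by
      have : 2 * C * η2 * gX ≤ 2 * C * η2 * T := mul_le_mul_of_nonneg_left hgX (by positivity)
      linarith
    rw [h1, h2]
    have h4 : B * (κ₂ / T + η2 * T / κ₂) = B * κ₂ / T + (B / κ₂) * (η2 * T) := by
      field_simp
    rw [h4]
    linarith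
  have e4 : 15 * (A₁ * (B * ((κ₂ * X / T) / X + η2 * X / (κ₂ * X / T)) +
      (2 * C * gX) * η2) * X ^ 2) / X ≤ 15 * (A₁ * (2 * (B * κ₂ / T)) * X ^ 2) / X := by
    apply div_le_div_of_nonneg_right _ hX.le
    apply mul_le_mul_of_nonneg_left _ (by norm_num)
    apply mul_le_mul_of_nonneg_right _ (by positivity)
    exact mul_le_mul_of_nonneg_left e3 hA₁.le
  refine e4.trans ?_
  have e5 : κ₂ * (300 * A₁ * B) ≤ c := by
    rwa [le_div_iff₀ (by positivity)] at hκc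
  have e6 : 15 * (A₁ * (2 * (B * κ₂ / T)) * X ^ 2) / X = (κ₂ * (300 * A₁ * B)) * X / (10 * T) := by
    field_simp
    ring
  rw [e6]
  apply div_le_div_of_nonneg_right _ (by positivity)
  exact mul_le_mul_of_nonneg_right e5 hX.le

theorem no_hyp (c B : ℝ) (hc : 0 < c) (hB : 0 < B) : ∃ κ : ℝ, 0 < κ ∧ κ ≤ 1 / 128 ∧
    ∀ (g : ℝ → ℝ) (θ' X₁ : ℝ), Reg g → Tendsto g atTop atTop → 0 ≤ θ' → θ' < 1 →
      (∀ X : ℝ, X₁ ≤ X → g X ≤ (Real.log (Real.log X)) ^ θ') → ∀ X₀ : ℝ, ¬ Hyp c B κ X₀ g := by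
  obtain ⟨A₁, hA₁, herr⟩ := werr
  obtain ⟨CS, hCS0, hCS⟩ := SM_small
  obtain ⟨CL, hCL0, hCL⟩ := J_lip
  obtain ⟨CJ, hCJ0, hCJ⟩ := J_bdd_unif
  set κ₂ : ℝ := min (1 / 160) (c / (300 * A₁ * B)) with hκ₂
  have hκ₂0 : 0 < κ₂ := lt_min (by norm_num) (by positivity)
  have hκ₂a : κ₂ ≤ 1 / 160 := min_le_left _ _
  have hκ₂b : κ₂ ≤ c / (300 * A₁ * B) := min_le_right _ _
  refine ⟨κ₂ / 128, by positivity, by linarith, ?_⟩
  intro g θ' X₁ hg hlim hθ0 hθ1 hs X₀ hyp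
  have hw := win_of_hyp c B (κ₂ / 128) X₀ g hg hB.le (by positivity) hyp
  obtain ⟨C, hC, hS⟩ := sb B (κ₂ / 128) (max X₀ 1) g hg hB.le (by positivity) (by linarith)
    (le_max_right _ _) hw
  obtain ⟨C', hC', hWB⟩ := wb_of_slow C hC g hg hS θ' X₁ hθ0 hθ1.le hs
  obtain ⟨A₂, k, hA₂, hr⟩ := wres_poly C' hC' hWB
  obtain ⟨Dq, hDq, hrec⟩ := recurQ A₂ k hA₂ hr
  set ε : ℝ := (1 - θ') / 4 with hε
  have hε0 : 0 < ε := by
    rw [hε]
    linarith
  have hε4 : ε ≤ 1 / 4 := by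
    rw [hε]
    linarith
  have hεθ : (1 + 2 * ε) * θ' < 1 := by
    rw [hε]
    nlinarith
  obtain ⟨T₀, hT₀, hpar⟩ := params ε ((B / κ₂ + 2 * C) / (B * κ₂))
    (120 * (2 * CS + 2 + CL) ^ 2 / c) hε0
  obtain ⟨X₂, hX₂⟩ := slow_small g hg θ' X₁ (960 * CJ ^ 2 / c) hθ1.le hs
  obtain ⟨T, τ, hTT, hT2, hτ0, hXm, hg1, hg2, hrecT⟩ := scale g hg hlim θ' X₁ hθ0 hs Dq ε hDq hε0 hεθ T₀
    (max (8 * max X₀ 1) X₂) hrec
  obtain ⟨hM₁, hM₂⟩ := hpar T hTT
  have hT40 : 40 ≤ T := hT₀.trans hTT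
  have hT0 : 0 < T := by linarith
  set X : ℝ := Real.exp τ with hX
  have hX0 : 0 < X := Real.exp_pos τ
  have hX8 : 8 * max X₀ 1 ≤ X := (le_max_left _ _).trans hXm
  have hXX₂ : X₂ ≤ X := (le_max_right _ _).trans hXm
  have hm1 : 1 ≤ max X₀ 1 := le_max_right _ _
  have hX1 : 1 ≤ X := by linarith
  set η : ℝ := T ^ (-(1 + ε)) with hη
  have hη0 : 0 < η := Real.rpow_pos_of_pos hT0 _
  have hη1 : η ≤ 1 := by
    rw [hη]
    apply Real.rpow_le_one_of_one_le_of_nonpos (by linarith)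
    linarith
  -- values of g near X
  have hgY : ∀ Y : ℝ, X / 8 ≤ Y → Y ≤ 2 * X → T / 16 ≤ g Y ∧ g Y ≤ 2 * T := by
    intro Y hY1 hY2
    have e1 := hg.mono hY1
    have e2 := hg.mono hY2
    have e3 := hg.dbl X
    have e4 := hg.dbl (X / 8)
    have e5 := hg.dbl (2 * (X / 8))
    have e6 := hg.dbl (2 * (2 * (X / 8)))
    have e7 : 2 * (2 * (2 * (X / 8))) = X := by ring
    rw [e7] at e6
    constructor
    · linarith
    · linarith
  set h₀ : ℝ := κ₂ * X / T with hh₀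
  have hh0 : 0 < h₀ := by positivity
  have hh160 : h₀ ≤ X / 160 := by
    rw [hh₀, div_le_div_iff₀ hT0 (by norm_num)]
    have e1 := mul_le_mul_of_nonneg_right hκ₂a hX0.le
    have e2 := mul_le_mul_of_nonneg_left hT40 hX0.le
    linarith
  have hLW : LW B X h₀ := by
    intro Y u hY1 hY2 hu1 hu2
    obtain ⟨g1, g2⟩ := hgY Y hY1 hY2
    have hgY0 : 0 < g Y := by linarith
    have hY0 : 0 < Y := by linarith
    refine hw Y u (by linarith) ?_ ?_
    · refine le_trans ?_ hu1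
      rw [hh₀, div_le_iff₀ hgY0]
      have e1 : κ₂ * X / T / 2 * (T / 16) = κ₂ * X / 32 := by
        field_simp
        ring
      have e2 : κ₂ * X / T / 2 * (T / 16) ≤ κ₂ * X / T / 2 * g Y :=
        mul_le_mul_of_nonneg_left g1 (by positivity)
      have e3 : κ₂ * Y ≤ κ₂ * (2 * X) := mul_le_mul_of_nonneg_left hY2 hκ₂0.le
      linarith
    · refine hu2.trans ?_
      rw [hh₀, le_div_iff₀ (by positivity)]
      have e1 : 2 * (κ₂ * X / T) * (2 * g Y) ≤ 2 * (κ₂ * X / T) * (2 * (2 * T)) :=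
        mul_le_mul_of_nonneg_left (by linarith) (by positivity)
      have e2 : 2 * (κ₂ * X / T) * (2 * (2 * T)) = 8 * (κ₂ * X) := by
        field_simp
        ring
      have e3 := mul_le_mul_of_nonneg_right hκ₂a hX0.le
      linarith
  have hMS : MSc (2 * C * g X) X := msc_of_sb C hC g hg hS X hX0
  have hgX1 := hg.one_le X
  have hR := herr B X h₀ η (2 * C * g X) hB.le hX1 hh0 hh160 hLW (by positivity) hMS hη0 hη1
  -- the difference bound
  set q := Real.sqrt X with hq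
  have hqq : q ^ 2 = X := Real.sq_sqrt hX0.le
  set Q := 2 * (CS * η ^ 2) + CL * η ^ (-(1 / 4) : ℝ) * (2 / 5 * (1 / T)) + 2 * η ^ 2 with hQ
  have hδ1 : 1 / T ≤ 1 / 40 := one_div_le_one_div_of_le (by norm_num) hT40
  have hδ0 : 0 < 1 / T := by positivity
  have hD : ∀ x : ℝ, 2 / 5 * X ≤ x → x ≤ 4 / 5 * X →
      |SM η (x + 1 / T * (2 / 5 * X) / 2) - SM η (x - 1 / T * (2 / 5 * X) / 2)| ≤ 2 * CJ + q * Q := by
    intro x hx1 hx2
    have hs1 : 0 ≤ 1 / T * (2 / 5 * X) / 2 := by positivity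
    have hs' : 1 / T * (2 / 5 * X) / 2 ≤ X / 100 := final_sh (1 / T) X hX0 hδ1
    have e1 : x + 1 / T * (2 / 5 * X) / 2 = X * ((x + 1 / T * (2 / 5 * X) / 2) / X) := by
      field_simp
    have e2 : x - 1 / T * (2 / 5 * X) / 2 = X * ((x - 1 / T * (2 / 5 * X) / 2) / X) := by
      field_simp
    have hd := wdiff_bound C' hC' hWB η τ ((x + 1 / T * (2 / 5 * X) / 2) / X)
      ((x - 1 / T * (2 / 5 * X) / 2) / X) (η ^ 2) (CS * η ^ 2) (CL * η ^ (-(1 / 4) : ℝ)) CJ hη0 hτ0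
      (by rw [le_div_iff₀ hX0]; linarith) (by rw [div_le_iff₀ hX0]; linarith)
      (by rw [le_div_iff₀ hX0]; linarith) (by rw [div_le_iff₀ hX0]; linarith)
      (fun y hy1 hy2 => hCS η y hη0 hη1 hy1 hy2)
      (fun x y h1 h2 h3 h4 => hCL η x y hη0 hη1 h1 h2 h3 h4)
      (fun x hx => hCJ η x hη0 hη1 hx) hrecT
    rw [← hX, ← e1, ← e2] at hd
    have e3 : |(x + 1 / T * (2 / 5 * X) / 2) / X - (x - 1 / T * (2 / 5 * X) / 2) / X| =
        2 / 5 * (1 / T) := by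
      have : (x + 1 / T * (2 / 5 * X) / 2) / X - (x - 1 / T * (2 / 5 * X) / 2) / X =
          2 / 5 * (1 / T) := by
        field_simp
        ring
      rw [this, abs_of_nonneg (by positivity)]
    rw [e3] at hd
    exact hd
  have hvar := var_bound η X (1 / T) _ _ hη0 hX0 hδ0 (by linarith) hR hD
  -- the lower bound
  have hX25 : 0 < 2 / 5 * X := by positivity
  have hgX' : T / 8 ≤ g (2 / 5 * X) ∧ g (2 / 5 * X) ≤ T := by
    have e1 : X / 4 ≤ 2 / 5 * X := by linarith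
    have e2 := hg.mono e1
    have e3 := hg.dbl (X / 4)
    have e4 := hg.dbl (2 * (X / 4))
    have e5 : 2 * (2 * (X / 4)) = X := by ring
    rw [e5] at e4
    have e6 := hg.mono (show 2 / 5 * X ≤ X by linarith)
    constructor
    · linarith
    · linarith
  have hg0' : 0 < g (2 / 5 * X) := by linarith [hgX'.1]
  have hlow := (hyp (2 / 5 * X) (1 / T * (2 / 5 * X)) (by linarith [le_max_left X₀ 1]) (by
      rw [div_le_iff₀ hg0']
      have e1 : 1 / T * (2 / 5 * X) * (T / 8) ≤ 1 / T * (2 / 5 * X) * g (2 / 5 * X) :=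
        mul_le_mul_of_nonneg_left hgX'.1 (by positivity)
      have e2 : 1 / T * (2 / 5 * X) * (T / 8) = X / 20 := by
        field_simp
        ring
      have e3 := mul_le_mul_of_nonneg_right hκ₂a hX0.le
      linarith) (by
      rw [le_div_iff₀ hg0']
      have e1 : 1 / T * (2 / 5 * X) * g (2 / 5 * X) ≤ 1 / T * (2 / 5 * X) * T :=
        mul_le_mul_of_nonneg_left hgX'.2 (by positivity)
      have e2 : 1 / T * (2 / 5 * X) * T = 2 / 5 * X := by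
        field_simp
      linarith)).1
  -- numerical contradiction
  have hQsq : Q ^ 2 ≤ c / (120 * T) := final_Qy c CS CL ε T hc hCS0 hCL0 hε0 hε4 hT40 hM₂
  have hfirst : 15 * (A₁ * (B * (h₀ / X + η ^ 2 * X / h₀) + (2 * C * g X) * η ^ 2) * X ^ 2) / X ≤
      c * X / (10 * T) :=
    final_Ry B c A₁ C κ₂ ε T X (g X) hB hA₁ hC hκ₂0 hκ₂b hT40 hX0 hg2 hM₁
  have hCJX : 480 * CJ ^ 2 * T ≤ c * X := by
    have e1 := hX₂ X hXX₂
    have e2 : 960 * CJ ^ 2 / c * (T / 2) ≤ 960 * CJ ^ 2 / c * g X :=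
      mul_le_mul_of_nonneg_left hg1 (by positivity)
    have e3 : 960 * CJ ^ 2 / c * (T / 2) ≤ X := e2.trans e1
    have e4 : 960 * CJ ^ 2 / c * (T / 2) = 480 * CJ ^ 2 * T / c := by
      ring
    rw [e4, div_le_iff₀ hc] at e3
    linarith
  have hDm : 3 * (2 * CJ + q * Q) ^ 2 ≤ c * X / (10 * T) := by
    have f1 : (2 * CJ + q * Q) ^ 2 ≤ 8 * CJ ^ 2 + 2 * (X * Q ^ 2) := by
      have g1 : (q * Q) ^ 2 = X * Q ^ 2 := by
        rw [mul_pow, hqq]
      have g2 : (2 * CJ + q * Q) ^ 2 = 8 * CJ ^ 2 + 2 * (q * Q) ^ 2 - (2 * CJ - q * Q) ^ 2 := by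
        ring
      have g3 := sq_nonneg (2 * CJ - q * Q)
      rw [g2, g1]
      linarith
    have f2 : X * Q ^ 2 ≤ X * (c / (120 * T)) := mul_le_mul_of_nonneg_left hQsq hX0.le
    have f3 : 24 * CJ ^ 2 ≤ c * X / (20 * T) := by
      rw [le_div_iff₀ (by positivity)]
      linarith
    have f4 : c * X / (10 * T) = c * X / (20 * T) + 6 * (X * (c / (120 * T))) := by
      field_simp
      ring
    rw [f4]
    linarith
  have hcd2 : c * (1 / T * (2 / 5 * X)) = 4 * (c * X / (10 * T)) := by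
    field_simp
    ring
  have hpos : 0 < c * X / (10 * T) := by positivity
  linarith

end Pool.Agent.H82.GY
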