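import Pool.Agent.H82.GY.WEner
import Pool.Agent.H56.GX.Chg

/-!
GY module WChg: the change of variables. Copy `chg` (and the private lemmas `Chg_one`, `Chg_int2`) of `GX/Chg.lean` (341 lines) with
`v₀ = 1/80` and the energy bound `wener` instead of `ener2`:
`∫_0^{v₀} gk η v ∫_{(7/20)X}^{X} (Mz x - Mz (x e^{-v}))² dx dv ≤ (6/X) ∫_0^{X v₀} gk η (u/X) 100 B X (h₀ + u²/h₀) du
 = 600 B X ∫_0^{v₀} gk η w (h₀ + X² w²/h₀) dw ≤ 600 B X (h₀ + C₂ η² X²/h₀)` (`gk_integral`, `gk_moment 2`)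
`= 600 B (h₀/X + C₂ η² X/h₀) X²`.
-/

set_option autoImplicit false

namespace Pool.Agent.H82.GY

open MeasureTheory Set Complex Filter Topology
open Pool.Agent.H56.GX

private theorem WChg_int2 (f : ℝ → ℝ → ℝ) (hf : Measurable (Function.uncurry f)) (a b c d C : ℝ)
    (hb : ∀ x ∈ Ioc a b, ∀ y ∈ Ioc c d, |f x y| ≤ C) :
    Integrable (Function.uncurry f)
      ((volume.restrict (Ioc a b)).prod (volume.restrict (Ioc c d))) := by
  refine Integrable.of_bound hf.aestronglyMeasurable C ?_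
  rw [Measure.prod_restrict]
  refine (ae_restrict_iff' (measurableSet_Ioc.prod measurableSet_Ioc)).2
    (Filter.Eventually.of_forall ?_)
  rintro ⟨x, y⟩ ⟨hx, hy⟩
  exact hb x hx y hy

private theorem WChg_one (η X x v₀ : ℝ) (hη : 0 < η) (hX : 1 ≤ X) (hx1 : 7 / 20 * X ≤ x)
    (hx2 : x ≤ X) (hv : 0 < v₀) (hv' : v₀ ≤ 1 / 80) :
    ∫ v in Ioc 0 v₀, gk η v * (Mz x - Mz (x * Real.exp (-v))) ^ 2 ≤
      (6 / X) * ∫ u in Ioc 0 (X * v₀), gk η (u / X) * (Mz x - Mz (x - u)) ^ 2 := by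
  have hX0 : 0 < X := by linarith
  have hx0 : 0 < x := by nlinarith
  have hgk0 : ∀ w, 0 ≤ gk η w := fun w => (gk_pos η hη w).le
  have hgkb : ∀ w, gk η w ≤ gk η 0 := fun w => gk_anti η hη 0 w (by simp)
  have hmeas2 : Measurable (fun u : ℝ => gk η (u / X) * (Mz x - Mz (x - u)) ^ 2) := by
    have h1 : Measurable (fun u : ℝ => gk η (u / X)) :=
      (gk_continuous η).measurable.comp (measurable_id.div_const X)
    have h2 : Measurable (fun u : ℝ => Mz (x - u)) :=
      Mz_measurable.comp (measurable_const.sub measurable_id)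
    exact h1.mul ((measurable_const.sub h2).pow_const 2)
  have hmeas1 : Measurable (fun v : ℝ => gk η v * (Mz x - Mz (x * Real.exp (-v))) ^ 2) := by
    have h2 : Measurable (fun v : ℝ => Mz (x * Real.exp (-v))) :=
      Mz_measurable.comp (measurable_const.mul (Real.measurable_exp.comp measurable_neg))
    exact (gk_continuous η).measurable.mul ((measurable_const.sub h2).pow_const 2)
  have hMb : ∀ y z : ℝ, |y| ≤ X → |z| ≤ X → (Mz y - Mz z) ^ 2 ≤ (2 * X) ^ 2 := by
    intro y z hy hz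
    have h1 := Mz_abs_le' y
    have h2 := Mz_abs_le' z
    rw [← sq_abs]
    refine pow_le_pow_left₀ (abs_nonneg _) ?_ 2
    refine (abs_sub _ _).trans ?_
    linarith
  have hint2 : IntegrableOn (fun u : ℝ => gk η (u / X) * (Mz x - Mz (x - u)) ^ 2)
      (Ioc 0 (X * v₀)) := by
    refine Measure.integrableOn_of_bounded (M := gk η 0 * (2 * X) ^ 2) (by simp)
      hmeas2.aestronglyMeasurable ?_
    refine (ae_restrict_iff' measurableSet_Ioc).2 (Filter.Eventually.of_forall ?_)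
    intro u hu
    rw [Real.norm_of_nonneg (mul_nonneg (hgk0 _) (sq_nonneg _))]
    have h1 : |x| ≤ X := by rw [abs_of_pos hx0]; exact hx2
    have h2 : |x - u| ≤ X := by
      have : X * v₀ ≤ X := mul_le_of_le_one_right hX0.le (by linarith)
      rw [abs_le]; constructor
      · linarith [hu.1, hu.2]
      · linarith [hu.1]
    exact mul_le_mul (hgkb _) (hMb _ _ h1 h2) (sq_nonneg _) (hgk0 _)
  have hint1 : IntegrableOn (fun v : ℝ => gk η v * (Mz x - Mz (x * Real.exp (-v))) ^ 2)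
      (Ioc 0 v₀) := by
    refine Measure.integrableOn_of_bounded (M := gk η 0 * (2 * X) ^ 2) (by simp)
      hmeas1.aestronglyMeasurable ?_
    refine (ae_restrict_iff' measurableSet_Ioc).2 (Filter.Eventually.of_forall ?_)
    intro v hv1
    rw [Real.norm_of_nonneg (mul_nonneg (hgk0 _) (sq_nonneg _))]
    have h1 : |x| ≤ X := by rw [abs_of_pos hx0]; exact hx2
    have h2 : |x * Real.exp (-v)| ≤ X := by
      have h3 : Real.exp (-v) ≤ 1 := Real.exp_le_one_iff.2 (by linarith [hv1.1])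
      have h4 := Real.exp_pos (-v)
      rw [abs_of_nonneg (by positivity)]
      nlinarith
    exact mul_le_mul (hgkb _) (hMb _ _ h1 h2) (sq_nonneg _) (hgk0 _)
  -- change of variables
  have hder : ∀ v ∈ Ioc 0 v₀, HasDerivWithinAt (fun v : ℝ => x * (1 - Real.exp (-v)))
      (x * Real.exp (-v)) (Ioc 0 v₀) v := by
    intro v _
    have h1 : HasDerivAt (fun v : ℝ => x * (1 - Real.exp (-v)))
        (x * (0 - Real.exp (-v) * (-1))) v := by
      refine HasDerivAt.const_mul x ?_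
      refine (hasDerivAt_const v (1 : ℝ)).sub ?_
      exact (hasDerivAt_neg v).exp
    have h2 : x * (0 - Real.exp (-v) * (-1)) = x * Real.exp (-v) := by ring
    rw [h2] at h1
    exact h1.hasDerivWithinAt
  have hinj : InjOn (fun v : ℝ => x * (1 - Real.exp (-v))) (Ioc 0 v₀) := by
    intro a _ b _ hab
    simp only at hab
    have h1 := mul_left_cancel₀ hx0.ne' hab
    have h2 : Real.exp (-a) = Real.exp (-b) := by linarith
    have h3 := Real.exp_injective h2
    linarith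
  have hcv := integral_image_eq_integral_abs_deriv_smul measurableSet_Ioc hder hinj
    (fun u : ℝ => gk η (u / X) * (Mz x - Mz (x - u)) ^ 2)
  have himg : (fun v : ℝ => x * (1 - Real.exp (-v))) '' Ioc 0 v₀ ⊆ Ioc 0 (X * v₀) := by
    rintro _ ⟨v, hv1, rfl⟩
    have h3 : Real.exp (-v) < 1 := by rw [Real.exp_lt_one_iff]; linarith [hv1.1]
    have h4 : -v + 1 ≤ Real.exp (-v) := Real.add_one_le_exp _
    constructor
    · simp only; nlinarith
    · simp only
      have h5 : 1 - Real.exp (-v) ≤ v₀ := by linarith [hv1.2]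
      exact mul_le_mul hx2 h5 (by linarith) hX0.le
  have hmono : ∫ u in (fun v : ℝ => x * (1 - Real.exp (-v))) '' Ioc 0 v₀,
      gk η (u / X) * (Mz x - Mz (x - u)) ^ 2 ≤
      ∫ u in Ioc 0 (X * v₀), gk η (u / X) * (Mz x - Mz (x - u)) ^ 2 := by
    refine setIntegral_mono_set hint2 ?_ (LE.le.eventuallyLE himg)
    exact Filter.Eventually.of_forall (fun u => mul_nonneg (hgk0 _) (sq_nonneg _))
  rw [hcv] at hmono
  have hint3 : IntegrableOn (fun v : ℝ => |x * Real.exp (-v)| •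
      (fun u : ℝ => gk η (u / X) * (Mz x - Mz (x - u)) ^ 2) (x * (1 - Real.exp (-v))))
      (Ioc 0 v₀) := by
    refine (integrableOn_image_iff_integrableOn_abs_deriv_smul measurableSet_Ioc hder hinj
      (fun u : ℝ => gk η (u / X) * (Mz x - Mz (x - u)) ^ 2)).1 ?_
    exact hint2.mono_set himg
  have hpt : ∫ v in Ioc 0 v₀, gk η v * (Mz x - Mz (x * Real.exp (-v))) ^ 2 ≤
      ∫ v in Ioc 0 v₀, (6 / X) * (|x * Real.exp (-v)| •
      (fun u : ℝ => gk η (u / X) * (Mz x - Mz (x - u)) ^ 2) (x * (1 - Real.exp (-v)))) := by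
    refine setIntegral_mono_on hint1 (hint3.const_mul _) measurableSet_Ioc ?_
    intro v hv1
    have h3 : Real.exp (-v) < 1 := by rw [Real.exp_lt_one_iff]; linarith [hv1.1]
    have h4 : -v + 1 ≤ Real.exp (-v) := Real.add_one_le_exp _
    have h5 : x - x * (1 - Real.exp (-v)) = x * Real.exp (-v) := by ring
    simp only [smul_eq_mul]
    rw [h5, abs_of_nonneg (by positivity)]
    have h6 : gk η v ≤ gk η (x * (1 - Real.exp (-v)) / X) := by
      refine gk_anti η hη _ _ ?_
      rw [abs_of_nonneg (by apply div_nonneg (mul_nonneg hx0.le (by linarith)) hX0.le),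
        abs_of_nonneg hv1.1.le, div_le_iff₀ hX0]
      have : 1 - Real.exp (-v) ≤ v := by linarith
      have h7 : x * (1 - Real.exp (-v)) ≤ X * v := mul_le_mul hx2 this (by linarith) hX0.le
      linarith
    have h7 : 1 ≤ 6 / X * (x * Real.exp (-v)) := by
      have h8 : 79 / 80 ≤ Real.exp (-v) := by linarith [hv1.2]
      have h9 : X / 6 ≤ x * Real.exp (-v) := by nlinarith
      rw [div_mul_eq_mul_div, le_div_iff₀ hX0]
      linarith
    have h10 : 6 / X * (x * Real.exp (-v) * (gk η (x * (1 - Real.exp (-v)) / X) *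
        (Mz x - Mz (x * Real.exp (-v))) ^ 2)) = (6 / X * (x * Real.exp (-v))) *
        (gk η (x * (1 - Real.exp (-v)) / X) * (Mz x - Mz (x * Real.exp (-v))) ^ 2) := by ring
    rw [h10]
    have h11 : gk η v * (Mz x - Mz (x * Real.exp (-v))) ^ 2 ≤
        gk η (x * (1 - Real.exp (-v)) / X) * (Mz x - Mz (x * Real.exp (-v))) ^ 2 :=
      mul_le_mul_of_nonneg_right h6 (sq_nonneg _)
    have h12 : 0 ≤ gk η (x * (1 - Real.exp (-v)) / X) * (Mz x - Mz (x * Real.exp (-v))) ^ 2 :=
      mul_nonneg (hgk0 _) (sq_nonneg _)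
    nlinarith
  refine hpt.trans ?_
  rw [integral_const_mul]
  exact mul_le_mul_of_nonneg_left hmono (by positivity)

theorem wchg : ∃ A : ℝ, 0 < A ∧ ∀ B X h₀ η : ℝ, 0 ≤ B → 1 ≤ X → 0 < h₀ → h₀ ≤ X / 160 → LW B X h₀ →
    0 < η → η ≤ 1 → ∫ v in (0 : ℝ)..(1 / 80), gk η v *
      (∫ x in (7 / 20 * X)..X, (Mz x - Mz (x * Real.exp (-v))) ^ 2) ≤
        A * B * (h₀ / X + η ^ 2 * X / h₀) * X ^ 2 := by
  obtain ⟨C₂, hC₂, hmom⟩ := gk_moment 2
  refine ⟨600 * (C₂ + 1), by positivity, ?_⟩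
  intro B X h₀ η hB hX1 hh hh' hLW hη hη1
  have hX0 : 0 < X := by linarith
  have hgk0 : ∀ w, 0 ≤ gk η w := fun w => (gk_pos η hη w).le
  have hgkb : ∀ w, gk η w ≤ gk η 0 := fun w => gk_anti η hη 0 w (by simp)
  obtain ⟨v₀, hv₀⟩ : ∃ v₀ : ℝ, v₀ = 1 / 80 := ⟨_, rfl⟩
  rw [← hv₀]
  have hv0 : 0 < v₀ := by rw [hv₀]; norm_num
  have hv1 : v₀ ≤ 1 / 80 := hv₀.le
  have hMb : ∀ y z : ℝ, |y| ≤ X → |z| ≤ X → (Mz y - Mz z) ^ 2 ≤ (2 * X) ^ 2 := by
    intro y z hy hz
    have h1 := Mz_abs_le' y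
    have h2 := Mz_abs_le' z
    rw [← sq_abs]
    refine pow_le_pow_left₀ (abs_nonneg _) ?_ 2
    refine (abs_sub _ _).trans ?_
    linarith
  have h7X : 7 / 20 * X ≤ X := by linarith
  -- the two product functions
  let f1 : ℝ → ℝ → ℝ := fun v x => gk η v * (Mz x - Mz (x * Real.exp (-v))) ^ 2
  let f2 : ℝ → ℝ → ℝ := fun u x => gk η (u / X) * (Mz x - Mz (x - u)) ^ 2
  have hm1 : Measurable (Function.uncurry f1) := by
    have e1 : Measurable (fun p : ℝ × ℝ => gk η p.1) :=
      (gk_continuous η).measurable.comp measurable_fst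
    have e2 : Measurable (fun p : ℝ × ℝ => Mz p.2) := Mz_measurable.comp measurable_snd
    have e3 : Measurable (fun p : ℝ × ℝ => Mz (p.2 * Real.exp (-p.1))) :=
      Mz_measurable.comp (measurable_snd.mul (Real.measurable_exp.comp measurable_fst.neg))
    exact e1.mul ((e2.sub e3).pow_const 2)
  have hm2 : Measurable (Function.uncurry f2) := by
    have e1 : Measurable (fun p : ℝ × ℝ => gk η (p.1 / X)) :=
      (gk_continuous η).measurable.comp (measurable_fst.div_const X)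
    have e2 : Measurable (fun p : ℝ × ℝ => Mz p.2) := Mz_measurable.comp measurable_snd
    have e3 : Measurable (fun p : ℝ × ℝ => Mz (p.2 - p.1)) :=
      Mz_measurable.comp (measurable_snd.sub measurable_fst)
    exact e1.mul ((e2.sub e3).pow_const 2)
  have hI1 := WChg_int2 f1 hm1 0 v₀ (7 / 20 * X) X (gk η 0 * (2 * X) ^ 2) (by
    intro v hv x hx
    simp only [f1]
    rw [abs_of_nonneg (mul_nonneg (hgk0 _) (sq_nonneg _))]
    have hx0 : 0 < x := by linarith [hx.1]
    have e1 : |x| ≤ X := by rw [abs_of_pos hx0]; exact hx.2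
    have e2 : |x * Real.exp (-v)| ≤ X := by
      have h3 : Real.exp (-v) ≤ 1 := Real.exp_le_one_iff.2 (by linarith [hv.1])
      have h4 := Real.exp_pos (-v)
      rw [abs_of_nonneg (by positivity)]
      nlinarith [hx.2]
    exact mul_le_mul (hgkb _) (hMb _ _ e1 e2) (sq_nonneg _) (hgk0 _))
  have hI2 := WChg_int2 f2 hm2 0 (X * v₀) (7 / 20 * X) X (gk η 0 * (2 * X) ^ 2) (by
    intro u hu x hx
    simp only [f2]
    rw [abs_of_nonneg (mul_nonneg (hgk0 _) (sq_nonneg _))]
    have hx0 : 0 < x := by linarith [hx.1]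
    have e1 : |x| ≤ X := by rw [abs_of_pos hx0]; exact hx.2
    have e2 : |x - u| ≤ X := by
      have : X * v₀ ≤ X := mul_le_of_le_one_right hX0.le (by linarith)
      rw [abs_le]; constructor
      · linarith [hu.1, hu.2]
      · linarith [hu.1, hx.2]
    exact mul_le_mul (hgkb _) (hMb _ _ e1 e2) (sq_nonneg _) (hgk0 _))
  have step1 : ∫ v in (0 : ℝ)..v₀, gk η v *
        (∫ x in (7 / 20 * X)..X, (Mz x - Mz (x * Real.exp (-v))) ^ 2)
      = ∫ v in Ioc 0 v₀, ∫ x in Ioc (7 / 20 * X) X, f1 v x := by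
    rw [intervalIntegral.integral_of_le hv0.le]
    refine integral_congr_ae (Filter.Eventually.of_forall (fun v => ?_))
    simp only [f1]
    rw [intervalIntegral.integral_of_le h7X, integral_const_mul]
  have step2 : ∫ v in Ioc 0 v₀, ∫ x in Ioc (7 / 20 * X) X, f1 v x
      = ∫ x in Ioc (7 / 20 * X) X, ∫ v in Ioc 0 v₀, f1 v x := integral_integral_swap hI1
  have step3 : ∫ x in Ioc (7 / 20 * X) X, ∫ v in Ioc 0 v₀, f1 v x ≤
      ∫ x in Ioc (7 / 20 * X) X, (6 / X) * ∫ u in Ioc 0 (X * v₀), f2 u x := by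
    refine setIntegral_mono_on ?_ ?_ measurableSet_Ioc ?_
    · exact hI1.integral_prod_right
    · exact (hI2.integral_prod_right).const_mul _
    · intro x hx
      exact WChg_one η X x v₀ hη hX1 hx.1.le hx.2 hv0 hv1
  have step4 : ∫ x in Ioc (7 / 20 * X) X, (6 / X) * ∫ u in Ioc 0 (X * v₀), f2 u x
      = (6 / X) * ∫ u in Ioc 0 (X * v₀), ∫ x in Ioc (7 / 20 * X) X, f2 u x := by
    rw [integral_const_mul, integral_integral_swap hI2]
  have step5 : ∫ u in Ioc 0 (X * v₀), ∫ x in Ioc (7 / 20 * X) X, f2 u x ≤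
      ∫ u in Ioc 0 (X * v₀), gk η (u / X) * (100 * B * X * (h₀ + u ^ 2 / h₀)) := by
    refine setIntegral_mono_on ?_ ?_ measurableSet_Ioc ?_
    · exact hI2.integral_prod_left
    · have hc : Continuous (fun u : ℝ => gk η (u / X) * (100 * B * X * (h₀ + u ^ 2 / h₀))) := by
        have := (gk_continuous η).comp (continuous_id.div_const X)
        exact this.mul (by fun_prop)
      exact (hc.integrableOn_Icc).mono_set Ioc_subset_Icc_self
    · intro u hu
      have e1 : ∫ x in Ioc (7 / 20 * X) X, f2 u x =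
          gk η (u / X) * ∫ x in (7 / 20 * X)..X, (Mz x - Mz (x - u)) ^ 2 := by
        rw [intervalIntegral.integral_of_le h7X, ← integral_const_mul]
      rw [e1]
      refine mul_le_mul_of_nonneg_left ?_ (hgk0 _)
      refine wener B X h₀ hB hX1 hh hh' hLW u hu.1.le ?_
      have := hu.2
      rw [hv₀] at this
      linarith
  have step6 : ∫ u in Ioc 0 (X * v₀), gk η (u / X) * (100 * B * X * (h₀ + u ^ 2 / h₀))
      = 100 * B * X ^ 2 * ∫ w in Ioc 0 v₀, gk η w * (h₀ + X ^ 2 / h₀ * w ^ 2) := by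
    rw [← intervalIntegral.integral_of_le (by positivity),
      ← intervalIntegral.integral_of_le hv0.le]
    have e1 : ∀ u : ℝ, gk η (u / X) * (100 * B * X * (h₀ + u ^ 2 / h₀)) =
        (100 * B * X) * (fun w : ℝ => gk η w * (h₀ + X ^ 2 / h₀ * w ^ 2)) (u / X) := by
      intro u
      simp only
      have : u ^ 2 = X ^ 2 * (u / X) ^ 2 := by field_simp
      rw [this]
      ring
    simp_rw [e1]
    rw [intervalIntegral.integral_const_mul]
    rw [intervalIntegral.integral_comp_div (fun w : ℝ => gk η w * (h₀ + X ^ 2 / h₀ * w ^ 2)) hX0.ne']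
    have e2 : X * v₀ / X = v₀ := by field_simp
    rw [zero_div, e2, smul_eq_mul]
    ring
  have step7 : ∫ w in Ioc 0 v₀, gk η w * (h₀ + X ^ 2 / h₀ * w ^ 2) ≤
      X ^ 2 / h₀ * (C₂ * η ^ 2) + h₀ := by
    obtain ⟨g1, g2⟩ := hmom η hη hη1
    have g3 := gk_integrable η hη
    have g4 := gk_integral η hη
    have hq0 : 0 ≤ X ^ 2 / h₀ := by positivity
    have e1 : ∫ w in Ioc 0 v₀, gk η w * (h₀ + X ^ 2 / h₀ * w ^ 2) ≤
        ∫ w in Ioc 0 v₀, (X ^ 2 / h₀ * (|w| ^ 2 * Real.exp (2 * |w|) * gk η w) +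
          h₀ * gk η w) := by
      refine setIntegral_mono_on ?_ ?_ measurableSet_Ioc ?_
      · have hc : Continuous (fun w : ℝ => gk η w * (h₀ + X ^ 2 / h₀ * w ^ 2)) :=
          (gk_continuous η).mul (by fun_prop)
        exact (hc.integrableOn_Icc).mono_set Ioc_subset_Icc_self
      · exact ((g1.const_mul _).add (g3.const_mul h₀)).integrableOn
      · intro w hw
        have e2 : w ^ 2 ≤ |w| ^ 2 * Real.exp (2 * |w|) := by
          have e3 : 1 ≤ Real.exp (2 * |w|) := Real.one_le_exp (by positivity)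
          rw [sq_abs]
          exact le_mul_of_one_le_right (sq_nonneg w) e3
        have e6 := hgk0 w
        have e7 : X ^ 2 / h₀ * w ^ 2 * gk η w ≤
            X ^ 2 / h₀ * (|w| ^ 2 * Real.exp (2 * |w|)) * gk η w :=
          mul_le_mul_of_nonneg_right (mul_le_mul_of_nonneg_left e2 hq0) e6
        calc gk η w * (h₀ + X ^ 2 / h₀ * w ^ 2) = X ^ 2 / h₀ * w ^ 2 * gk η w + h₀ * gk η w := by
              ring
          _ ≤ X ^ 2 / h₀ * (|w| ^ 2 * Real.exp (2 * |w|)) * gk η w + h₀ * gk η w :=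
              by linarith
          _ = _ := by ring
    refine e1.trans ?_
    have e2 : ∫ w in Ioc 0 v₀, (X ^ 2 / h₀ * (|w| ^ 2 * Real.exp (2 * |w|) * gk η w) +
          h₀ * gk η w) ≤
        ∫ w : ℝ, (X ^ 2 / h₀ * (|w| ^ 2 * Real.exp (2 * |w|) * gk η w) + h₀ * gk η w) := by
      refine setIntegral_le_integral ((g1.const_mul _).add (g3.const_mul h₀)) ?_
      refine Filter.Eventually.of_forall (fun w => ?_)
      have e6 := hgk0 w
      simp only [Pi.zero_apply]
      positivity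
    refine e2.trans ?_
    rw [integral_add (g1.const_mul _) (g3.const_mul h₀), integral_const_mul, integral_const_mul, g4]
    have e3 := mul_le_mul_of_nonneg_left g2 hq0
    linarith
  have hfin : ∫ v in (0 : ℝ)..v₀, gk η v *
        (∫ x in (7 / 20 * X)..X, (Mz x - Mz (x * Real.exp (-v))) ^ 2)
      ≤ (6 / X) * (100 * B * X ^ 2 * (X ^ 2 / h₀ * (C₂ * η ^ 2) + h₀)) := by
    rw [step1, step2]
    refine step3.trans ?_
    rw [step4]
    refine mul_le_mul_of_nonneg_left ?_ (by positivity)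
    refine step5.trans ?_
    rw [step6]
    exact mul_le_mul_of_nonneg_left step7 (by positivity)
  refine hfin.trans ?_
  have e1 : (6 / X) * (100 * B * X ^ 2 * (X ^ 2 / h₀ * (C₂ * η ^ 2) + h₀)) =
      600 * B * (h₀ / X) * X ^ 2 + 600 * C₂ * B * (η ^ 2 * X / h₀) * X ^ 2 := by
    field_simp
    ring
  rw [e1]
  have e2 : 0 ≤ C₂ * (B * (h₀ / X) * X ^ 2) := by positivity
  have e3 : 0 ≤ B * (η ^ 2 * X / h₀) * X ^ 2 := by positivity
  nlinarith

end Pool.Agent.H82.GY
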