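import Pool.Agent.H82.GY.Defs
import Pool.Agent.H56.GX.MzB

/-!
GY module WEner: window energies at the scale `X` for all `u ∈ [0, X/80]`, from windows of length about `h₀`.
(Compare `GX/Ener.lean`, 133 lines.)

For `k ∈ [h₀/2, 2h₀]` and `[p, q] ⊂ [X/4, X]`: `∫_p^q (Mz (y+k) - Mz y)² dy ≤ 2B(X/4)k + 2B(X/2)k = (3/2) B X k`
(`LW` for `Y = X/4` and `Y = X/2`).                                                              (E)
Substitute `x = y + u`: the integral is `∫_{(7/20)X-u}^{X-u} (Mz (y+u) - Mz y)² dy`.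
Case `u ≤ h₀`: `(Mz (y+u) - Mz y)² ≤ 2 (Mz (y+u+h₀) - Mz y)² + 2 (Mz (y+u+h₀) - Mz (y+u))²`. The first has window
`u+h₀ ∈ [h₀, 2h₀]` and `y ∈ [(7/20)X-u, X-u] ⊂ [X/4, X]`: `≤ (3/2) B X 2 h₀`; the second, with `y' = y+u ∈ [(7/20)X, X]`, window
`h₀`: `≤ (3/2) B X h₀`. Total `≤ 9 B X h₀`.
Case `u > h₀`: `m = ⌈u/h₀⌉₊`, `k = u/m`, so `m ≤ 2u/h₀` and `h₀/2 ≤ k ≤ h₀`.
`Mz (y+u) - Mz y = ∑_{j<m} (Mz (y+(j+1)k) - Mz (y+jk))`, Cauchy-Schwarz, and (E) for `y + jk ∈ [X/4, X]`:
`≤ m² (3/2) B X k = (3/2) B X m u ≤ 3 B X u²/h₀`.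
-/

set_option autoImplicit false

namespace Pool.Agent.H82.GY

open MeasureTheory Set Complex Filter Topology
open Pool.Agent.H56.GX

/-- the integrand is integrable -/
private theorem WEner_int (a b p q : ℝ) :
    IntervalIntegrable (fun x => (Mz (x + p) - Mz (x + q)) ^ 2) volume a b :=
  Mz_diff_sq_intervalIntegrable a b p q

private theorem WEner_int0 (a b p : ℝ) :
    IntervalIntegrable (fun x => (Mz (x + p) - Mz x) ^ 2) volume a b := by
  simpa using Mz_diff_sq_intervalIntegrable a b p 0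

/-- (E) of the header -/
private theorem WEner_E (B X h₀ : ℝ) (hX : 1 ≤ X) (h : LW B X h₀) (k p q : ℝ)
    (hk : h₀ / 2 ≤ k) (hk' : k ≤ 2 * h₀) (hp : X / 4 ≤ p) (hpq : p ≤ q) (hq : q ≤ X) :
    ∫ y in p..q, (Mz (y + k) - Mz y) ^ 2 ≤ 3 / 2 * B * X * k := by
  have e2 : ∫ x in p..q, (Mz (x + k) - Mz x) ^ 2
      ≤ ∫ x in (X / 4)..X, (Mz (x + k) - Mz x) ^ 2 := by
    apply intervalIntegral.integral_mono_interval hp hpq hq
    · exact Filter.Eventually.of_forall fun x => by positivity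
    · exact WEner_int0 _ _ _
  have e3 : ∫ x in (X / 4)..X, (Mz (x + k) - Mz x) ^ 2
      = (∫ x in (X / 4)..(2 * (X / 4)), (Mz (x + k) - Mz x) ^ 2)
        + ∫ x in (X / 2)..(2 * (X / 2)), (Mz (x + k) - Mz x) ^ 2 := by
    rw [show 2 * (X / 4) = X / 2 by ring, show 2 * (X / 2) = X by ring]
    exact (intervalIntegral.integral_add_adjacent_intervals (WEner_int0 _ _ _)
      (WEner_int0 _ _ _)).symm
  have h3 := h (X / 4) k (by linarith) (by linarith) hk hk'
  have h4 := h (X / 2) k (by linarith) (by linarith) hk hk'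
  refine e2.trans ?_
  rw [e3]
  refine (add_le_add h3 h4).trans (le_of_eq ?_)
  ring

/-- (E) after a shift -/
private theorem WEner_S (B X h₀ : ℝ) (hX : 1 ≤ X) (h : LW B X h₀) (k a p q : ℝ)
    (hk : h₀ / 2 ≤ k) (hk' : k ≤ 2 * h₀) (hp : X / 4 ≤ p + a) (hpq : p ≤ q) (hq : q + a ≤ X) :
    ∫ y in p..q, (Mz (y + (a + k)) - Mz (y + a)) ^ 2 ≤ 3 / 2 * B * X * k := by
  have e1 : ∫ y in p..q, (Mz (y + (a + k)) - Mz (y + a)) ^ 2
      = ∫ x in (p + a)..(q + a), (Mz (x + k) - Mz x) ^ 2 := by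
    rw [← intervalIntegral.integral_comp_add_right (fun x => (Mz (x + k) - Mz x) ^ 2) a]
    simp only [add_assoc]
  rw [e1]
  exact WEner_E B X h₀ hX h k _ _ hk hk' hp (by linarith) hq

theorem wener (B X h₀ : ℝ) (hB : 0 ≤ B) (hX : 1 ≤ X) (hh : 0 < h₀) (hh' : h₀ ≤ X / 160)
    (h : LW B X h₀) (u : ℝ) (hu : 0 ≤ u) (hu' : u ≤ X / 80) :
    ∫ x in (7 / 20 * X)..X, (Mz x - Mz (x - u)) ^ 2 ≤ 100 * B * X * (h₀ + u ^ 2 / h₀) := by
  have hBX : 0 ≤ B * X := by positivity
  have e1 : ∫ x in (7 / 20 * X)..X, (Mz x - Mz (x - u)) ^ 2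
      = ∫ x in (7 / 20 * X - u)..(X - u), (Mz (x + u) - Mz x) ^ 2 := by
    rw [← intervalIntegral.integral_comp_sub_right (fun x => (Mz (x + u) - Mz x) ^ 2) u]
    simp
  rw [e1]
  rcases le_or_gt u h₀ with hc | hc
  · -- short shifts
    have hA := WEner_S B X h₀ hX h (u + h₀) 0 (7 / 20 * X - u) (X - u) (by linarith) (by linarith)
      (by linarith) (by linarith) (by linarith)
    have hC := WEner_S B X h₀ hX h h₀ u (7 / 20 * X - u) (X - u) (by linarith) (by linarith)
      (by linarith) (by linarith) (by linarith)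
    have hint1 := WEner_int (7 / 20 * X - u) (X - u) (0 + (u + h₀)) 0
    have hint2 := WEner_int (7 / 20 * X - u) (X - u) (u + h₀) u
    have hD : ∫ x in (7 / 20 * X - u)..(X - u), (Mz (x + u) - Mz x) ^ 2 ≤
        ∫ x in (7 / 20 * X - u)..(X - u), (2 * (Mz (x + (0 + (u + h₀))) - Mz (x + 0)) ^ 2 +
          2 * (Mz (x + (u + h₀)) - Mz (x + u)) ^ 2) := by
      apply intervalIntegral.integral_mono_on (by linarith) (WEner_int0 _ _ _)
      · exact (hint1.const_mul 2).add (hint2.const_mul 2)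
      · intro x _
        rw [zero_add, add_zero]
        nlinarith [sq_nonneg ((Mz (x + (u + h₀)) - Mz x) + (Mz (x + (u + h₀)) - Mz (x + u)))]
    rw [intervalIntegral.integral_add (hint1.const_mul 2) (hint2.const_mul 2),
      intervalIntegral.integral_const_mul, intervalIntegral.integral_const_mul] at hD
    have h1 : 0 ≤ B * X * h₀ := by positivity
    have h2 : B * X * u ≤ B * X * h₀ := mul_le_mul_of_nonneg_left hc hBX
    have h3 : 0 ≤ B * X * (u ^ 2 / h₀) := by positivity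
    have e4 : 100 * B * X * (h₀ + u ^ 2 / h₀) = 100 * (B * X * h₀) + 100 * (B * X * (u ^ 2 / h₀)) := by
      ring
    rw [e4]
    have e5 : 3 / 2 * B * X * (u + h₀) = 3 / 2 * (B * X * u) + 3 / 2 * (B * X * h₀) := by ring
    have e6 : 3 / 2 * B * X * h₀ = 3 / 2 * (B * X * h₀) := by ring
    rw [e5] at hA
    rw [e6] at hC
    linarith
  · -- long shifts
    have hupos : 0 < u := hh.trans hc
    set m : ℕ := ⌈u / h₀⌉₊ with hm
    have hm1 : u / h₀ ≤ m := Nat.le_ceil _
    have hm2 : (m : ℝ) < u / h₀ + 1 := Nat.ceil_lt_add_one (by positivity)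
    have huh : 1 < u / h₀ := by rw [lt_div_iff₀ hh]; linarith
    have hmpos : (0 : ℝ) < m := by linarith
    have hm3 : (m : ℝ) ≤ 2 * (u / h₀) := by linarith
    set k : ℝ := u / m with hk
    have hmk : (m : ℝ) * k = u := by rw [hk]; field_simp
    have hkpos : 0 < k := by positivity
    have hk1 : k ≤ h₀ := by
      rw [hk, div_le_iff₀ hmpos]
      rw [div_le_iff₀ hh] at hm1
      linarith
    have hk2 : h₀ / 2 ≤ k := by
      rw [hk, le_div_iff₀ hmpos]
      calc h₀ / 2 * m ≤ h₀ / 2 * (2 * (u / h₀)) := by gcongr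
        _ = u := by field_simp
    have hjk : ∀ j ∈ Finset.range m, (j : ℝ) * k + k ≤ u := by
      intro j hj
      rw [Finset.mem_range] at hj
      have h1 : ((j + 1 : ℕ) : ℝ) ≤ m := by exact_mod_cast hj
      push_cast at h1
      calc (j : ℝ) * k + k = ((j : ℝ) + 1) * k := by ring
        _ ≤ m * k := by gcongr
        _ = u := hmk
    have hD : ∫ x in (7 / 20 * X - u)..(X - u), (Mz (x + u) - Mz x) ^ 2 ≤
        ∫ x in (7 / 20 * X - u)..(X - u), (m : ℝ) * ∑ j ∈ Finset.range m,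
          (Mz (x + ((j : ℝ) * k + k)) - Mz (x + (j : ℝ) * k)) ^ 2 := by
      apply intervalIntegral.integral_mono_on (by linarith) (WEner_int0 _ _ _)
      · refine IntervalIntegrable.const_mul ?_ _
        have := IntervalIntegrable.sum (Finset.range m) (fun j _ => WEner_int (7 / 20 * X - u)
          (X - u) ((j : ℝ) * k + k) ((j : ℝ) * k))
        refine this.congr ?_
        intro x _
        simp
      · intro x _
        have hs : Mz (x + u) - Mz x = ∑ j ∈ Finset.range m,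
            (Mz (x + ((j : ℝ) * k + k)) - Mz (x + (j : ℝ) * k)) := by
          have h1 := Finset.sum_range_sub (fun j : ℕ => Mz (x + (j : ℝ) * k)) m
          simp only [Nat.cast_zero, zero_mul, add_zero] at h1
          rw [hmk] at h1
          rw [← h1]
          refine Finset.sum_congr rfl fun j _ => ?_
          push_cast
          rw [show ((j : ℝ) + 1) * k = (j : ℝ) * k + k by ring]
        rw [hs]
        have h2 := sq_sum_le_card_mul_sum_sq (s := Finset.range m)
          (f := fun j : ℕ => Mz (x + ((j : ℝ) * k + k)) - Mz (x + (j : ℝ) * k))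
        rwa [Finset.card_range] at h2
    refine hD.trans ?_
    rw [intervalIntegral.integral_const_mul, intervalIntegral.integral_finsetSum
      (fun j _ => WEner_int _ _ _ _)]
    have hsum : ∑ j ∈ Finset.range m, ∫ x in (7 / 20 * X - u)..(X - u),
        (Mz (x + ((j : ℝ) * k + k)) - Mz (x + (j : ℝ) * k)) ^ 2 ≤ m * (3 / 2 * B * X * k) := by
      calc _ ≤ ∑ _j ∈ Finset.range m, 3 / 2 * B * X * k := by
            refine Finset.sum_le_sum fun j hj => ?_
            have h1 := hjk j hj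
            have h2 : 0 ≤ (j : ℝ) * k := by positivity
            exact WEner_S B X h₀ hX h k ((j : ℝ) * k) _ _ hk2 (by linarith) (by linarith)
              (by linarith) (by linarith)
        _ = m * (3 / 2 * B * X * k) := by rw [Finset.sum_const, Finset.card_range, nsmul_eq_mul]
    have h1 : 0 ≤ B * X * h₀ := by positivity
    have h3 : 0 ≤ B * X * (u ^ 2 / h₀) := by positivity
    calc (m : ℝ) * ∑ j ∈ Finset.range m, ∫ x in (7 / 20 * X - u)..(X - u),
        (Mz (x + ((j : ℝ) * k + k)) - Mz (x + (j : ℝ) * k)) ^ 2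
        ≤ m * (m * (3 / 2 * B * X * k)) := by gcongr
      _ = 3 / 2 * (B * X) * m * (m * k) := by ring
      _ = 3 / 2 * (B * X) * m * u := by rw [hmk]
      _ ≤ 3 / 2 * (B * X) * (2 * (u / h₀)) * u := by gcongr
      _ = 3 * (B * X * (u ^ 2 / h₀)) := by ring
      _ ≤ 100 * B * X * (h₀ + u ^ 2 / h₀) := by
          have e4 : 100 * B * X * (h₀ + u ^ 2 / h₀) =
            100 * (B * X * h₀) + 100 * (B * X * (u ^ 2 / h₀)) := by ring
          rw [e4]
          linarith

end Pool.Agent.H82.GY
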