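import Pool.Agent.H82.GY.WLow
import Pool.Agent.H56.GX.FEq

/-!
GY module WF: under `WB`, `F` is holomorphic in `Re s > 1/2`, `‖F s‖ ≤ C₁ (Re s - 1/2)^(-3/2)`, and
`s ζ(s) F(s) = 1` for `s ≠ 1`. Copy `GX/FHol.lean` and `GX/FId.lean` (in them replace `tail_abs` by `wtail_abs`, i.e.
only integrability and the new bound are used); the private lemmas there can be copied too.
-/

set_option autoImplicit false

namespace Pool.Agent.H82.GY

open MeasureTheory Set Complex Filter Topology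
open Pool.Agent.H56.GX

private theorem WF_norm (s : ℂ) {x : ℝ} (hx : 0 < x) :
    ‖(Mz x : ℂ) * (x : ℂ) ^ (-s - 1)‖ = |Mz x| * x ^ (-s.re - 1) := by
  rw [norm_mul, Complex.norm_real, Real.norm_eq_abs, Complex.norm_cpow_eq_rpow_re_of_pos hx]
  simp

private theorem WF_meas (s : ℂ) :
    Measurable fun x : ℝ => (Mz x : ℂ) * (x : ℂ) ^ (-s - 1) :=
  (Complex.measurable_ofReal.comp Mz_measurable).mul (Complex.measurable_ofReal.pow_const _)

private theorem WF_int {s : ℂ} {σ : ℝ} (hσ : σ ≤ s.re - 1 / 2)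
    (hi : IntegrableOn (fun x : ℝ => |Mz x| * x ^ (-(3 / 2) - σ)) (Ioi 1)) :
    IntegrableOn (fun x : ℝ => (Mz x : ℂ) * (x : ℂ) ^ (-s - 1)) (Ioi 1) := by
  refine Integrable.mono' hi (WF_meas s).aestronglyMeasurable ?_
  filter_upwards [ae_restrict_mem measurableSet_Ioi] with x hx
  have hx1 : (1 : ℝ) < x := hx
  rw [WF_norm s (by linarith)]
  apply mul_le_mul_of_nonneg_left _ (abs_nonneg _)
  apply Real.rpow_le_rpow_of_exponent_le hx1.le
  linarith

theorem wF_diff (C : ℝ) (hC : 1 ≤ C) (h : WB C) :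
    DifferentiableOn ℂ F {s : ℂ | 1 / 2 < s.re} := by
  obtain ⟨C', hC', ht⟩ := wtail_abs C hC h
  intro s₀ hs₀
  have hs : 1 / 2 < s₀.re := hs₀
  apply DifferentiableAt.differentiableWithinAt
  set σ : ℝ := min (s₀.re - 1 / 2) 3 with hσ
  have hσ0 : 0 < σ := lt_min (by linarith) (by norm_num)
  have hσ3 : σ ≤ 3 := min_le_right _ _
  have hσs : σ ≤ s₀.re - 1 / 2 := min_le_left _ _
  have hi0 := (ht σ hσ0 hσ3).1
  have hi4 := (ht (σ / 4) (by linarith) (by linarith)).1
  have hball : Metric.ball s₀ (σ / 2) ∈ 𝓝 s₀ := Metric.ball_mem_nhds s₀ (by linarith)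
  have key := hasDerivAt_integral_of_dominated_loc_of_deriv_le (μ := volume.restrict (Ioi (1 : ℝ)))
    (F := fun (s : ℂ) (x : ℝ) => (Mz x : ℂ) * (x : ℂ) ^ (-s - 1))
    (F' := fun (s : ℂ) (x : ℝ) => (Mz x : ℂ) * ((x : ℂ) ^ (-s - 1) * Complex.log x * (-1)))
    (x₀ := s₀) (bound := fun x : ℝ => (4 / σ) * (|Mz x| * x ^ (-(3 / 2) - σ / 4)))
    hball (Eventually.of_forall fun s => (WF_meas s).aestronglyMeasurable)
    (WF_int hσs hi0)
    (((Complex.measurable_ofReal.comp Mz_measurable).mul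
      (((Complex.measurable_ofReal.pow_const _).mul
        (Complex.measurable_log.comp Complex.measurable_ofReal)).mul_const _)).aestronglyMeasurable)
    ?_ (hi4.const_mul _) ?_
  · exact key.2.differentiableAt
  · filter_upwards [ae_restrict_mem measurableSet_Ioi] with x hx s hsb
    have hx1 : (1 : ℝ) < x := hx
    have hx0 : 0 < x := by linarith
    have hre : s₀.re - σ / 2 < s.re := by
      have h1 : |(s - s₀).re| ≤ ‖s - s₀‖ := Complex.abs_re_le_norm _
      have h2 : ‖s - s₀‖ < σ / 2 := by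
        rw [← dist_eq_norm]
        exact hsb
      have h3 := (abs_le.1 h1).1
      rw [Complex.sub_re] at h3
      linarith
    have hlog : ‖Complex.log (x : ℂ)‖ = Real.log x := by
      rw [← Complex.ofReal_log hx0.le, Complex.norm_real,
        Real.norm_of_nonneg (Real.log_nonneg hx1.le)]
    have hn : ‖(Mz x : ℂ) * ((x : ℂ) ^ (-s - 1) * Complex.log x * (-1))‖ =
        |Mz x| * (x ^ (-s.re - 1) * Real.log x) := by
      rw [norm_mul, norm_mul, norm_mul, hlog, Complex.norm_real, Real.norm_eq_abs,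
        Complex.norm_cpow_eq_rpow_re_of_pos hx0, norm_neg, norm_one, mul_one]
      simp
    rw [hn]
    have h4 : x ^ (-s.re - 1) ≤ x ^ (-(3 / 2) - σ / 2) := by
      apply Real.rpow_le_rpow_of_exponent_le hx1.le
      linarith
    have h5 : Real.log x ≤ x ^ (σ / 4) / (σ / 4) := Real.log_le_rpow_div hx0.le (by linarith)
    have h6 : x ^ (-s.re - 1) * Real.log x ≤ x ^ (-(3 / 2) - σ / 2) * (x ^ (σ / 4) / (σ / 4)) :=
      mul_le_mul h4 h5 (Real.log_nonneg hx1.le) (Real.rpow_nonneg hx0.le _)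
    have h7 : x ^ (-(3 / 2) - σ / 2) * x ^ (σ / 4) = x ^ (-(3 / 2) - σ / 4) := by
      rw [← Real.rpow_add hx0]
      congr 1
      ring
    calc |Mz x| * (x ^ (-s.re - 1) * Real.log x)
        ≤ |Mz x| * (x ^ (-(3 / 2) - σ / 2) * (x ^ (σ / 4) / (σ / 4))) :=
          mul_le_mul_of_nonneg_left h6 (abs_nonneg _)
      _ = (4 / σ) * (|Mz x| * (x ^ (-(3 / 2) - σ / 2) * x ^ (σ / 4))) := by
          field_simp
      _ = (4 / σ) * (|Mz x| * x ^ (-(3 / 2) - σ / 4)) := by rw [h7]
  · filter_upwards [ae_restrict_mem measurableSet_Ioi] with x hx s _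
    have hx1 : (1 : ℝ) < x := hx
    have hx0 : (x : ℂ) ≠ 0 := by
      have : x ≠ 0 := by linarith
      exact_mod_cast this
    have hd : HasDerivAt (fun s : ℂ => -s - 1) (-1) s := ((hasDerivAt_id s).neg).sub_const 1
    exact (hd.const_cpow (Or.inl hx0)).const_mul _

theorem wF_norm (C : ℝ) (hC : 1 ≤ C) (h : WB C) : ∃ C₁ : ℝ, 0 < C₁ ∧
    ∀ s : ℂ, 1 / 2 < s.re → s.re ≤ 7 / 2 → ‖F s‖ ≤ C₁ * (s.re - 1 / 2) ^ (-(3 / 2) : ℝ) := by
  obtain ⟨C', hC', ht⟩ := wtail_abs C hC h
  refine ⟨C', hC', fun s hs hs2 => ?_⟩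
  obtain ⟨hi, hb⟩ := ht (s.re - 1 / 2) (by linarith) (by linarith)
  refine le_trans ?_ hb
  rw [F]
  refine (norm_integral_le_integral_norm _).trans (le_of_eq ?_)
  apply setIntegral_congr_fun measurableSet_Ioi
  intro x hx
  have hx1 : (1 : ℝ) < x := hx
  have hx0 : 0 < x := by linarith
  change ‖(Mz x : ℂ) * (x : ℂ) ^ (-s - 1)‖ = |Mz x| * x ^ (-(3 / 2) - (s.re - 1 / 2))
  rw [WF_norm s hx0]
  congr 2
  ring


/-- The domain. -/
private def WF_U : Set ℂ := {s : ℂ | 1 / 2 < s.re ∧ s ≠ 1}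

private theorem WF_isOpen : IsOpen WF_U :=
  (isOpen_lt continuous_const Complex.continuous_re).inter isOpen_ne

private theorem WF_preconnected : IsPreconnected WF_U := by
  set A : Set ℂ := {s | 1 / 2 < s.re} ∩ {s | 0 < s.im} with hA
  set B : Set ℂ := {s | 1 < s.re} with hB
  set C : Set ℂ := {s | 1 / 2 < s.re} ∩ {s | s.im < 0} with hC
  set D : Set ℂ := {s | 1 / 2 < s.re} ∩ {s | s.re < 1} with hD
  have pA : IsPreconnected A :=
    ((convex_halfSpace_re_gt _).inter (convex_halfSpace_im_gt _)).isPreconnected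
  have pB : IsPreconnected B := (convex_halfSpace_re_gt _).isPreconnected
  have pC : IsPreconnected C :=
    ((convex_halfSpace_re_gt _).inter (convex_halfSpace_im_lt _)).isPreconnected
  have pD : IsPreconnected D :=
    ((convex_halfSpace_re_gt _).inter (convex_halfSpace_re_lt _)).isPreconnected
  have h1 : IsPreconnected (A ∪ B) := by
    refine pA.union (⟨2, 1⟩ : ℂ) ?_ ?_ pB
    · constructor
      · simp; norm_num
      · simp
    · simp [hB]
  have h2 : IsPreconnected ((A ∪ B) ∪ C) := by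
    refine h1.union (⟨2, -1⟩ : ℂ) ?_ ?_ pC
    · right; simp [hB]
    · constructor
      · simp; norm_num
      · simp
  have h3 : IsPreconnected (((A ∪ B) ∪ C) ∪ D) := by
    refine h2.union (⟨3 / 4, 1⟩ : ℂ) ?_ ?_ pD
    · left; left
      constructor
      · change (1 / 2 : ℝ) < 3 / 4
        norm_num
      · change (0 : ℝ) < 1
        norm_num
    · constructor
      · change (1 / 2 : ℝ) < 3 / 4
        norm_num
      · change (3 / 4 : ℝ) < 1
        norm_num
  have h4 : ((A ∪ B) ∪ C) ∪ D = WF_U := by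
    ext s
    simp only [hA, hB, hC, hD, WF_U, mem_union, mem_inter_iff, mem_ofPred_eq]
    constructor
    · rintro (((⟨h1, h2⟩ | h) | ⟨h1, h2⟩) | ⟨h1, h2⟩)
      · exact ⟨h1, by rintro rfl; simp at h2⟩
      · exact ⟨by linarith, by rintro rfl; simp at h⟩
      · exact ⟨h1, by rintro rfl; simp at h2⟩
      · exact ⟨h1, by rintro rfl; simp at h2⟩
    · rintro ⟨h1, h2⟩
      by_cases him : s.im = 0
      · rcases lt_trichotomy s.re 1 with h | h | h
        · exact Or.inr ⟨h1, h⟩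
        · exact absurd (Complex.ext h (by simpa using him)) h2
        · exact Or.inl (Or.inl (Or.inr h))
      · rcases lt_or_gt_of_ne him with h | h
        · exact Or.inl (Or.inr ⟨h1, h⟩)
        · exact Or.inl (Or.inl (Or.inl ⟨h1, h⟩))
  rw [← h4]
  exact h3

theorem wF_ident (C : ℝ) (hC : 1 ≤ C) (h : WB C) (s : ℂ) (hs : 1 / 2 < s.re) (hs1 : s ≠ 1) :
    s * riemannZeta s * F s = 1 := by
  have hf : AnalyticOnNhd ℂ (fun s => s * riemannZeta s * F s) WF_U := by
    apply DifferentiableOn.analyticOnNhd _ WF_isOpen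
    intro z hz
    have hF : DifferentiableAt ℂ F z :=
      (wF_diff C hC h).differentiableAt
        ((isOpen_lt continuous_const Complex.continuous_re).mem_nhds hz.1)
    exact ((differentiableAt_id.mul (differentiableAt_riemannZeta hz.2)).mul
      hF).differentiableWithinAt
  have hg : AnalyticOnNhd ℂ (fun _ : ℂ => (1 : ℂ)) WF_U := fun z _ => analyticAt_const
  have heq := hf.eqOn_of_preconnected_of_eventuallyEq hg WF_preconnected
    (z₀ := 2) ⟨by norm_num, by norm_num⟩ (by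
      have : {s : ℂ | 1 < s.re} ∈ nhds (2 : ℂ) :=
        (isOpen_lt continuous_const Complex.continuous_re).mem_nhds (by simp)
      filter_upwards [this] with z hz
      exact F_eq z hz)
  exact heq ⟨hs, hs1⟩

theorem wF_inv (C : ℝ) (hC : 1 ≤ C) (h : WB C) (s : ℂ) (hs : 1 / 2 < s.re) (hs1 : s ≠ 1) :
    riemannZeta s ≠ 0 ∧ F s = (s * riemannZeta s)⁻¹ := by
  have h1 := wF_ident C hC h s hs hs1
  refine ⟨?_, ?_⟩
  · intro h0
    rw [h0] at h1
    simp at h1
  · exact eq_inv_of_mul_eq_one_right h1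

end Pool.Agent.H82.GY
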