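import Pool.Agent.H82.GY.WLow
import Pool.Agent.H56.GX.FL2

/-!
GY module WL2: under `WB`, `∫_ℝ ‖F(1/2 + σ + it)‖² dt ≤ C₂ σ^(-3/2)` for `0 < σ ≤ 3`. Copy the proof of `F_L2` at the end of
`GX/FL2.lean` (its tools `FL2_main`, `FL2_f`, `FL2_g`, `FL2_cov_int`, `FL2_cov_real` are imported), with `tail_sq`,
`tail_abs` replaced by `wtail_sq`, `wtail_abs`.
-/

set_option autoImplicit false

namespace Pool.Agent.H82.GY

open MeasureTheory Set Complex Filter Topology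
open Pool.Agent.H56.GX

theorem wF_L2 (C : ℝ) (hC : 1 ≤ C) (h : WB C) : ∃ C₂ : ℝ, 0 < C₂ ∧ ∀ σ : ℝ, 0 < σ → σ ≤ 3 →
    Integrable (fun t : ℝ => ‖F (1 / 2 + σ + t * I)‖ ^ 2) ∧
      ∫ t : ℝ, ‖F (1 / 2 + σ + t * I)‖ ^ 2 ≤ C₂ * σ ^ (-(3 / 2) : ℝ) := by
  obtain ⟨C₁, hC₁, hsq⟩ := wtail_sq C hC h
  obtain ⟨C₃, hC₃, habs⟩ := wtail_abs C hC h
  refine ⟨2 * Real.pi * C₁, by positivity, fun σ hσ hσ3 => ?_⟩
  obtain ⟨hs1, hs2⟩ := hsq σ hσ hσ3
  obtain ⟨ha1, _⟩ := habs σ hσ hσ3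
  have hexp : ∀ (u c : ℝ), (Real.exp u) ^ c = Real.exp (c * u) := by
    intro u c
    rw [← Real.exp_mul, mul_comm]
  -- integrability
  have hmeas : Measurable fun u : ℝ => Mz (Real.exp u) * Real.exp (-(1 / 2 + σ) * u) :=
    (Mz_measurable.comp Real.measurable_exp).mul (by fun_prop)
  have hf : Integrable (FL2_f σ) := by
    unfold FL2_f
    rw [integrable_indicator_iff measurableSet_Ioi]
    have h1 := (FL2_cov_real _).1.1 ha1
    refine Integrable.mono' h1 hmeas.aestronglyMeasurable (Eventually.of_forall fun u => ?_)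
    rw [hexp, norm_mul, Real.norm_eq_abs, Real.norm_of_nonneg (Real.exp_pos _).le, mul_left_comm,
      ← Real.exp_add]
    refine le_of_eq ?_
    congr 2
    ring
  have hsqeq : ∀ u : ℝ, (FL2_f σ u) ^ 2 = (Ioi (0 : ℝ)).indicator
      (fun u => Real.exp u * ((Mz (Real.exp u)) ^ 2 * (Real.exp u) ^ (-2 - 2 * σ))) u := by
    intro u
    unfold FL2_f
    by_cases hu : u ∈ Ioi (0 : ℝ)
    · rw [indicator_of_mem hu, indicator_of_mem hu, hexp, mul_left_comm, ← Real.exp_add, mul_pow,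
        ← Real.exp_nat_mul]
      congr 2
      push_cast
      ring
    · rw [indicator_of_notMem hu, indicator_of_notMem hu]
      ring
  have hf2 : Integrable fun u => FL2_f σ u ^ 2 := by
    simp_rw [hsqeq]
    rw [integrable_indicator_iff measurableSet_Ioi]
    exact (FL2_cov_real _).1.1 hs1
  have hint : ∫ u : ℝ, FL2_f σ u ^ 2 ≤ C₁ * σ ^ (-(3 / 2) : ℝ) := by
    simp_rw [hsqeq]
    rw [integral_indicator measurableSet_Ioi]
    rw [(FL2_cov_real (fun x : ℝ => (Mz x) ^ 2 * x ^ (-2 - 2 * σ))).2] at hs2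
    exact hs2
  have hFg : ∀ t : ℝ, F (1 / 2 + σ + t * I) = FL2_g (FL2_f σ) t := by
    intro t
    unfold F FL2_g
    rw [FL2_cov_int, ← integral_indicator measurableSet_Ioi]
    refine integral_congr_ae (Eventually.of_forall fun u => ?_)
    unfold FL2_f
    by_cases hu : u ∈ Ioi (0 : ℝ)
    · simp only [indicator_of_mem hu]
      have h1 : ((Real.exp u : ℝ) : ℂ) ^ (-(1 / 2 + (σ : ℂ) + t * I) - 1) =
          Complex.exp (u * (-(1 / 2 + (σ : ℂ) + t * I) - 1)) := by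
        rw [Complex.cpow_def_of_ne_zero (by exact_mod_cast (Real.exp_pos u).ne'),
          ← Complex.ofReal_log (Real.exp_pos u).le, Real.log_exp]
      rw [h1]
      push_cast
      have h2 : Complex.exp u * ((Mz (Real.exp u) : ℂ) *
          Complex.exp (u * (-(1 / 2 + (σ : ℂ) + t * I) - 1))) =
          (Mz (Real.exp u) : ℂ) * (Complex.exp u *
            Complex.exp (u * (-(1 / 2 + (σ : ℂ) + t * I) - 1))) := by ring
      rw [h2, ← Complex.exp_add, mul_assoc, ← Complex.exp_add]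
      congr 2
      ring
    · simp only [indicator_of_notMem hu]
      simp
  obtain ⟨hm1, hm2⟩ := FL2_main hf hf2
  simp_rw [hFg]
  refine ⟨hm1, le_trans hm2 ?_⟩
  have := mul_le_mul_of_nonneg_left hint (show 0 ≤ 2 * Real.pi by positivity)
  calc 2 * Real.pi * ∫ u : ℝ, FL2_f σ u ^ 2 ≤ 2 * Real.pi * (C₁ * σ ^ (-(3 / 2) : ℝ)) := this
    _ = 2 * Real.pi * C₁ * σ ^ (-(3 / 2) : ℝ) := by ring

end Pool.Agent.H82.GY
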