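import Pool.Agent.H82.GY.Defs
import Pool.Agent.H56.GX.MzB

/-!
GY module WLow: integrals of `Mz²` and `|Mz|` against powers, from `WB`. (Adapt `GX/Low.lean`, `tail_sq` and `tail_abs`.)

(1) General lemma: let `G : ℝ → ℝ` be nonnegative, interval integrable on every interval, and `∫_X^{2X} G ≤ D X²` for
`X ≥ 1`. Then for `0 < s ≤ 3`: `x ↦ G x · x^(-2-2s)` is integrable on `(1,∞)` with integral `≤ 4 D / s`. The proof is
word for word that of `tail_sq` in `GX/Low.lean` (only there `G = Mz²`).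
(2) `wtail_sq`: for `0 < σ ≤ 3` apply (1) with `G x = Mz x² · x^(-σ)` (on `x ≥ 1`; put `G x = Mz x² · (max x 1)^(-σ)` to
have it defined and integrable everywhere) and `s = σ / 2`: `∫_X^{2X} G ≤ X^(-σ) ∫_X^{2X} Mz² ≤ C X² X^(-σ) √(1 + log X)`,
and `√(1 + log X) ≤ 2 σ^(-1/2) X^(σ/2)` because `σ (1 + log X) ≤ 3 + σ log X ≤ 3 + X^σ ≤ 4 X^σ` (`log y ≤ y`). So
`D = 2 C σ^(-1/2)` and the integral is `≤ 8 D / σ = 16 C σ^(-3/2)`.
(3) `wtail_abs`: `|Mz| x^(-3/2-σ) ≤ (Mz² x^(-2-σ) + x^(-1-σ)) / 2` (AM-GM) as in `GX/Low.lean`; use (2) with `σ/2` and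
`1/σ ≤ 2 σ^(-3/2)` (`σ ≤ 3`, `√3 ≤ 2`).
-/

set_option autoImplicit false

namespace Pool.Agent.H82.GY

open MeasureTheory Set Complex Filter Topology
open Pool.Agent.H56.GX

private theorem WLow_tail_int (σ a b : ℝ) (ha : 1 ≤ a) (hab : a ≤ b) :
    IntervalIntegrable (fun x : ℝ => (Mz x) ^ 2 * x ^ (-2 - 2 * σ)) volume a b := by
  apply (Mz_sq_intervalIntegrable a b).mul_continuousOn
  apply ContinuousOn.rpow_const continuousOn_id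
  intro x hx
  left
  rw [uIcc_of_le hab] at hx
  have := hx.1
  simp only [id_eq]
  intro h0
  linarith

private theorem WLow_geom (σ : ℝ) (hσ : 0 < σ) (hσ3 : σ ≤ 3) (n : ℕ) :
    ∑ k ∈ Finset.range n, ((4 : ℝ) ^ (-σ)) ^ k ≤ 4 / σ := by
  have hq0 : 0 ≤ (4 : ℝ) ^ (-σ) := Real.rpow_nonneg (by norm_num) _
  have hq1 : (4 : ℝ) ^ (-σ) < 1 := Real.rpow_lt_one_of_one_lt_of_neg (by norm_num) (by linarith)
  have h1 : ∑ k ∈ Finset.range n, ((4 : ℝ) ^ (-σ)) ^ k ≤ (1 - (4 : ℝ) ^ (-σ))⁻¹ := by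
    have hs := summable_geometric_of_lt_one hq0 hq1
    have := hs.sum_le_tsum (Finset.range n) (fun k _ => pow_nonneg hq0 k)
    rwa [tsum_geometric_of_lt_one hq0 hq1] at this
  refine h1.trans ?_
  have h2 : 1 + σ ≤ (4 : ℝ) ^ σ := by
    have h3 : (4 : ℝ) ^ σ = Real.exp (Real.log 4 * σ) := Real.rpow_def_of_pos (by norm_num) σ
    have h4 : (1 : ℝ) ≤ Real.log 4 := by
      rw [Real.le_log_iff_exp_le (by norm_num)]
      have := Real.exp_one_lt_d9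
      linarith
    rw [h3]
    have h5 := Real.add_one_le_exp (Real.log 4 * σ)
    nlinarith
  have h6 : (4 : ℝ) ^ (-σ) ≤ 1 / (1 + σ) := by
    rw [Real.rpow_neg (by norm_num), ← one_div]
    exact one_div_le_one_div_of_le (by linarith) h2
  have h7 : σ / 4 ≤ 1 - (4 : ℝ) ^ (-σ) := by
    have h8 : 1 - 1 / (1 + σ) = σ / (1 + σ) := by
      field_simp
      ring
    have h9 : σ / 4 ≤ σ / (1 + σ) := by
      apply div_le_div_of_nonneg_left hσ.le (by linarith) (by linarith)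
    linarith
  have h10 : (1 - (4 : ℝ) ^ (-σ))⁻¹ ≤ (σ / 4)⁻¹ := by
    apply inv_anti₀ (by positivity) h7
  rwa [inv_div] at h10

private theorem WLow_sqrt (X σ : ℝ) (hX : 1 ≤ X) (hσ : 0 < σ) (hσ3 : σ ≤ 3) :
    Real.sqrt (1 + Real.log X) ≤ 2 * σ ^ (-(1 / 2) : ℝ) * X ^ σ := by
  have hX0 : (0 : ℝ) < X := by linarith
  have h1 : (1 : ℝ) ≤ X ^ σ := Real.one_le_rpow hX hσ.le
  have h2 : σ * Real.log X ≤ X ^ σ - 1 := by
    rw [← Real.log_rpow hX0]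
    exact Real.log_le_sub_one_of_pos (by positivity)
  have h3 : (0 : ℝ) ≤ 2 * σ ^ (-(1 / 2) : ℝ) * X ^ σ := by positivity
  rw [Real.sqrt_le_left h3]
  have h4 : (σ ^ (-(1 / 2) : ℝ)) ^ 2 = σ⁻¹ := by
    rw [← Real.rpow_natCast, ← Real.rpow_mul hσ.le]
    norm_num
    rw [Real.rpow_neg_one]
  have h5 : (2 * σ ^ (-(1 / 2) : ℝ) * X ^ σ) ^ 2 = σ⁻¹ * (4 * (X ^ σ) ^ 2) := by
    rw [mul_pow, mul_pow, h4]
    ring
  rw [h5]
  have h6 : σ * (1 + Real.log X) ≤ 4 * (X ^ σ) ^ 2 := by nlinarith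
  calc 1 + Real.log X = σ⁻¹ * (σ * (1 + Real.log X)) := by field_simp
    _ ≤ σ⁻¹ * (4 * (X ^ σ) ^ 2) := mul_le_mul_of_nonneg_left h6 (by positivity)

private theorem WLow_tail_bound (C : ℝ) (hC : 1 ≤ C) (h : WB C) (σ : ℝ) (hσ : 0 < σ)
    (hσ3 : σ ≤ 3) (n : ℕ) : ∫ x in (1 : ℝ)..2 ^ n, (Mz x) ^ 2 * x ^ (-2 - 2 * σ) ≤
      (2 * C * σ ^ (-(1 / 2) : ℝ)) * ∑ k ∈ Finset.range n, ((4 : ℝ) ^ (-(σ / 2))) ^ k := by
  induction n with
  | zero => simp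
  | succ n ih =>
    have hp1 : (1 : ℝ) ≤ 2 ^ n := one_le_pow₀ (by norm_num)
    have hp2 : (2 : ℝ) ^ n ≤ 2 ^ (n + 1) := by
      rw [pow_succ]
      linarith
    have h1 : ∫ x in (1 : ℝ)..2 ^ (n + 1), (Mz x) ^ 2 * x ^ (-2 - 2 * σ) =
        (∫ x in (1 : ℝ)..2 ^ n, (Mz x) ^ 2 * x ^ (-2 - 2 * σ)) +
          ∫ x in (2 : ℝ) ^ n..2 ^ (n + 1), (Mz x) ^ 2 * x ^ (-2 - 2 * σ) :=
      (intervalIntegral.integral_add_adjacent_intervals (WLow_tail_int σ _ _ le_rfl hp1)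
        (WLow_tail_int σ _ _ hp1 hp2)).symm
    have h2 : ∫ x in (2 : ℝ) ^ n..2 ^ (n + 1), (Mz x) ^ 2 * x ^ (-2 - 2 * σ) ≤
        ∫ x in (2 : ℝ) ^ n..2 ^ (n + 1), (Mz x) ^ 2 * ((2 : ℝ) ^ n) ^ (-2 - 2 * σ) := by
      apply intervalIntegral.integral_mono_on hp2 (WLow_tail_int σ _ _ hp1 hp2)
      · exact (Mz_sq_intervalIntegrable _ _).mul_const _
      · intro x hx
        apply mul_le_mul_of_nonneg_left _ (sq_nonneg _)
        apply Real.rpow_le_rpow_of_nonpos (by linarith) hx.1 (by linarith)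
    have h3 : ∫ x in (2 : ℝ) ^ n..2 ^ (n + 1), (Mz x) ^ 2 * ((2 : ℝ) ^ n) ^ (-2 - 2 * σ) =
        (∫ x in (2 : ℝ) ^ n..2 * 2 ^ n, (Mz x) ^ 2) * ((2 : ℝ) ^ n) ^ (-2 - 2 * σ) := by
      rw [intervalIntegral.integral_mul_const, pow_succ, mul_comm (2 ^ n : ℝ) 2]
    have h4 : ∫ x in (2 : ℝ) ^ n..2 * 2 ^ n, (Mz x) ^ 2 ≤
        (C * ((2 : ℝ) ^ n) ^ 2) * (2 * σ ^ (-(1 / 2) : ℝ) * ((2 : ℝ) ^ n) ^ σ) :=
      (h (2 ^ n) hp1).trans
        (mul_le_mul_of_nonneg_left (WLow_sqrt _ σ hp1 hσ hσ3) (by positivity))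
    have h5 : ((C * ((2 : ℝ) ^ n) ^ 2) * (2 * σ ^ (-(1 / 2) : ℝ) * ((2 : ℝ) ^ n) ^ σ)) *
        ((2 : ℝ) ^ n) ^ (-2 - 2 * σ) =
          (2 * C * σ ^ (-(1 / 2) : ℝ)) * ((4 : ℝ) ^ (-(σ / 2))) ^ n := by
      have hpos : (0 : ℝ) < 2 ^ n := by positivity
      have e1 : ((2 : ℝ) ^ n) ^ σ * ((2 : ℝ) ^ n) ^ (-2 - 2 * σ) =
          (((2 : ℝ) ^ n) ^ 2)⁻¹ * ((4 : ℝ) ^ (-(σ / 2))) ^ n := by
        rw [← Real.rpow_add hpos]
        have e2 : (σ + (-2 - 2 * σ) : ℝ) = -((2 : ℕ) : ℝ) + (2 * -(σ / 2)) := by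
          push_cast
          ring
        rw [e2, Real.rpow_add hpos, Real.rpow_neg hpos.le, Real.rpow_natCast]
        congr 1
        rw [← Real.rpow_natCast 2 n, ← Real.rpow_mul (by norm_num),
          ← Real.rpow_natCast ((4 : ℝ) ^ (-(σ / 2))) n, ← Real.rpow_mul (by norm_num)]
        have e3 : (4 : ℝ) = (2 : ℝ) ^ (2 : ℝ) := by norm_num
        rw [e3, ← Real.rpow_mul (by norm_num)]
        congr 1
        ring
      calc ((C * ((2 : ℝ) ^ n) ^ 2) * (2 * σ ^ (-(1 / 2) : ℝ) * ((2 : ℝ) ^ n) ^ σ)) *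
          ((2 : ℝ) ^ n) ^ (-2 - 2 * σ) =
            (2 * C * σ ^ (-(1 / 2) : ℝ)) * (((2 : ℝ) ^ n) ^ 2 *
              (((2 : ℝ) ^ n) ^ σ * ((2 : ℝ) ^ n) ^ (-2 - 2 * σ))) := by ring
        _ = _ := by
          rw [e1]
          field_simp
    have h6 : (∫ x in (2 : ℝ) ^ n..2 * 2 ^ n, (Mz x) ^ 2) * ((2 : ℝ) ^ n) ^ (-2 - 2 * σ) ≤
        ((C * ((2 : ℝ) ^ n) ^ 2) * (2 * σ ^ (-(1 / 2) : ℝ) * ((2 : ℝ) ^ n) ^ σ)) *
          ((2 : ℝ) ^ n) ^ (-2 - 2 * σ) :=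
      mul_le_mul_of_nonneg_right h4 (Real.rpow_nonneg (by positivity) _)
    rw [h1, Finset.sum_range_succ, mul_add]
    rw [h5] at h6
    rw [h3] at h2
    exact add_le_add ih (h2.trans h6)

private theorem WLow_pow (σ : ℝ) (hσ : 0 < σ) :
    σ ^ (-(1 / 2) : ℝ) * σ⁻¹ = σ ^ (-(3 / 2) : ℝ) := by
  rw [← Real.rpow_neg_one, ← Real.rpow_add hσ]
  norm_num

theorem wtail_sq (C : ℝ) (hC : 1 ≤ C) (h : WB C) : ∃ C' : ℝ, 0 < C' ∧ ∀ σ : ℝ, 0 < σ → σ ≤ 3 →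
    IntegrableOn (fun x : ℝ => (Mz x) ^ 2 * x ^ (-2 - 2 * σ)) (Ioi 1) ∧
      ∫ x in Ioi (1 : ℝ), (Mz x) ^ 2 * x ^ (-2 - 2 * σ) ≤ C' * σ ^ (-(3 / 2) : ℝ) := by
  refine ⟨16 * C, by positivity, fun σ hσ hσ3 => ?_⟩
  have hb : Tendsto (fun n : ℕ => (2 : ℝ) ^ n) atTop atTop :=
    tendsto_pow_atTop_atTop_of_one_lt (by norm_num)
  have hp1 : ∀ n : ℕ, (1 : ℝ) ≤ 2 ^ n := fun n => one_le_pow₀ (by norm_num)
  have hbound : ∀ n : ℕ, ∫ x in (1 : ℝ)..2 ^ n, (Mz x) ^ 2 * x ^ (-2 - 2 * σ) ≤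
      16 * C * σ ^ (-(3 / 2) : ℝ) := by
    intro n
    refine (WLow_tail_bound C hC h σ hσ hσ3 n).trans ?_
    have h1 := mul_le_mul_of_nonneg_left (WLow_geom (σ / 2) (by linarith) (by linarith) n)
      (by positivity : (0 : ℝ) ≤ 2 * C * σ ^ (-(1 / 2) : ℝ))
    refine h1.trans (le_of_eq ?_)
    rw [← WLow_pow σ hσ]
    field_simp
    ring
  have hint : IntegrableOn (fun x : ℝ => (Mz x) ^ 2 * x ^ (-2 - 2 * σ)) (Ioi 1) := by
    apply integrableOn_Ioi_of_intervalIntegral_norm_bounded (l := atTop)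
      (16 * C * σ ^ (-(3 / 2) : ℝ)) 1 (b := fun n : ℕ => (2 : ℝ) ^ n)
    · intro n
      exact (WLow_tail_int σ 1 (2 ^ n) le_rfl (hp1 n)).1
    · exact hb
    · apply Filter.Eventually.of_forall
      intro n
      refine le_trans (le_of_eq ?_) (hbound n)
      apply intervalIntegral.integral_congr
      intro x hx
      rw [uIcc_of_le (hp1 n)] at hx
      have hx0 : (0 : ℝ) < x := by linarith [hx.1]
      exact Real.norm_of_nonneg (by positivity)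
  refine ⟨hint, ?_⟩
  have ht := intervalIntegral_tendsto_integral_Ioi 1 hint hb
  exact le_of_tendsto ht (Filter.Eventually.of_forall hbound)

theorem wtail_abs (C : ℝ) (hC : 1 ≤ C) (h : WB C) : ∃ C' : ℝ, 0 < C' ∧ ∀ σ : ℝ, 0 < σ → σ ≤ 3 →
    IntegrableOn (fun x : ℝ => |Mz x| * x ^ (-(3 / 2) - σ)) (Ioi 1) ∧
      ∫ x in Ioi (1 : ℝ), |Mz x| * x ^ (-(3 / 2) - σ) ≤ C' * σ ^ (-(3 / 2) : ℝ) := by
  obtain ⟨C', hC', hC''⟩ := wtail_sq C hC h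
  refine ⟨2 * C' + 1, by positivity, fun σ hσ hσ3 => ?_⟩
  obtain ⟨hi1, hb1⟩ := hC'' (σ / 2) (by linarith) (by linarith)
  have hi2 : IntegrableOn (fun x : ℝ => x ^ (-1 - σ)) (Ioi 1) :=
    integrableOn_Ioi_rpow_of_lt (by linarith) one_pos
  have hb2 : ∫ x in Ioi (1 : ℝ), x ^ (-1 - σ) = 1 / σ := by
    rw [integral_Ioi_rpow_of_lt (by linarith) one_pos, Real.one_rpow]
    have : -1 - σ + 1 = -σ := by ring
    rw [this, neg_div_neg_eq]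
  set g : ℝ → ℝ := fun x => ((Mz x) ^ 2 * x ^ (-2 - 2 * (σ / 2)) + x ^ (-1 - σ)) / 2 with hg
  have hgi : IntegrableOn g (Ioi 1) := (hi1.add hi2).div_const 2
  have hle : ∀ x : ℝ, x ∈ Ioi (1 : ℝ) → |Mz x| * x ^ (-(3 / 2) - σ) ≤ g x := by
    intro x hx
    have hx0 : (0 : ℝ) < x := lt_trans one_pos hx
    have e1 : x ^ (-(3 / 2) - σ) = x ^ (-1 - σ / 2) * x ^ (-(1 / 2) - σ / 2) := by
      rw [← Real.rpow_add hx0]
      congr 1
      ring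
    have e2 : x ^ (-2 - 2 * (σ / 2)) = x ^ (-1 - σ / 2) * x ^ (-1 - σ / 2) := by
      rw [← Real.rpow_add hx0]
      congr 1
      ring
    have e3 : x ^ (-1 - σ) = x ^ (-(1 / 2) - σ / 2) * x ^ (-(1 / 2) - σ / 2) := by
      rw [← Real.rpow_add hx0]
      congr 1
      ring
    rw [hg]
    simp only
    rw [e1, e2, e3, ← sq_abs (Mz x)]
    nlinarith [sq_nonneg (|Mz x| * x ^ (-1 - σ / 2) - x ^ (-(1 / 2) - σ / 2))]
  have hmeas : AEStronglyMeasurable (fun x : ℝ => |Mz x| * x ^ (-(3 / 2) - σ))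
      (volume.restrict (Ioi (1 : ℝ))) := by
    apply Measurable.aestronglyMeasurable
    exact (Mz_measurable.abs).mul (measurable_id.pow_const _)
  have hint : IntegrableOn (fun x : ℝ => |Mz x| * x ^ (-(3 / 2) - σ)) (Ioi 1) := by
    refine Integrable.mono' hgi hmeas ?_
    rw [ae_restrict_iff' measurableSet_Ioi]
    apply Filter.Eventually.of_forall
    intro x hx
    have hx0 : (0 : ℝ) < x := lt_trans one_pos hx
    rw [Real.norm_of_nonneg (by positivity)]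
    exact hle x hx
  refine ⟨hint, ?_⟩
  have h1 : ∫ x in Ioi (1 : ℝ), |Mz x| * x ^ (-(3 / 2) - σ) ≤ ∫ x in Ioi (1 : ℝ), g x :=
    setIntegral_mono_on hint hgi measurableSet_Ioi hle
  have h2 : ∫ x in Ioi (1 : ℝ), g x =
      ((∫ x in Ioi (1 : ℝ), (Mz x) ^ 2 * x ^ (-2 - 2 * (σ / 2))) +
        ∫ x in Ioi (1 : ℝ), x ^ (-1 - σ)) / 2 := by
    rw [hg, integral_div, integral_add hi1 hi2]
  rw [h2, hb2] at h1
  refine h1.trans ?_
  have h3 : (σ / 2) ^ (-(3 / 2) : ℝ) ≤ 4 * σ ^ (-(3 / 2) : ℝ) := by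
    rw [Real.div_rpow hσ.le (by norm_num)]
    have h5 : (1 / 4 : ℝ) ≤ (2 : ℝ) ^ (-(3 / 2) : ℝ) := by
      have h6 : (1 / 4 : ℝ) = (2 : ℝ) ^ (-2 : ℝ) := by
        rw [Real.rpow_neg (by norm_num)]
        norm_num
      rw [h6]
      exact Real.rpow_le_rpow_of_exponent_le (by norm_num) (show (-2 : ℝ) ≤ -(3 / 2) by norm_num)
    rw [div_le_iff₀ (by positivity)]
    have h7 : 0 ≤ σ ^ (-(3 / 2) : ℝ) := by positivity
    nlinarith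
  have h4 : 1 / σ ≤ 2 * σ ^ (-(3 / 2) : ℝ) := by
    rw [← WLow_pow σ hσ, one_div]
    have h5 : (1 / 2 : ℝ) ≤ σ ^ (-(1 / 2) : ℝ) := by
      have h6 : (1 / 2 : ℝ) = (4 : ℝ) ^ (-(1 / 2) : ℝ) := by
        rw [Real.rpow_neg (by norm_num), ← Real.sqrt_eq_rpow]
        have h8 : (4 : ℝ) = 2 ^ 2 := by norm_num
        rw [h8, Real.sqrt_sq (by norm_num)]
        norm_num
      exact h6.le.trans
        (Real.rpow_le_rpow_of_nonpos hσ (show σ ≤ 4 by linarith) (by norm_num))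
    have h7 : 0 < σ⁻¹ := by positivity
    nlinarith
  have h5 : C' * (σ / 2) ^ (-(3 / 2) : ℝ) ≤ C' * (4 * σ ^ (-(3 / 2) : ℝ)) :=
    mul_le_mul_of_nonneg_left h3 hC'.le
  have h6 := hb1.trans h5
  linarith

end Pool.Agent.H82.GY
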