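import Pool.Agent.H82.GY.WF
import Pool.Agent.H95.GC.ZetaForm

/-!
GY module WRes: under `WB` the zeros on the critical line are simple, with residues of polynomial size.

Main estimate. Let `γ ∈ Zr`, `ρ = 1/2 + iγ`, `0 < δ ≤ 1/8`. By `wF_ident` and `wF_norm` at `s = ρ + δ`:
`1 = ‖s‖ ‖ζ(s)‖ ‖F s‖ ≤ (2 + |γ|) ‖ζ(ρ+δ)‖ C₁ δ^(-3/2)`, so `‖ζ(ρ+δ)‖ ≥ δ^(3/2) / (C₁ (2 + |γ|))`.     (*)
(1) `wzeta_simple`: if `ζ'(ρ) = 0` then `‖ζ(ρ+δ)‖ ≤ M δ²` for small `δ > 0` with some `M` (`ζ` is analytic at `ρ`; e.g.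
`(hasFPowerSeries...).isBigO`, or: `D = dslope ζ ρ` is differentiable near `ρ` with `D ρ = ζ'(ρ) = 0`, so
`‖D(ρ+δ)‖ ≤ M δ`, and `ζ(ρ+δ) = δ D(ρ+δ)`). With (*): `δ^(3/2)/(C₁(2+|γ|)) ≤ M δ²` for all small `δ`: false.
(2) `wres_poly`: for `|γ| ≥ 2`: `D = dslope ζ ρ` is holomorphic on a neighbourhood of the closed ball `B(ρ, 1/2)`
(`1` is not in it), with `‖D‖ ≤ 2 · 8 (1+|γ|)²` on the sphere (`‖ζ‖ ≤ 8 (1+|γ|)²` on the ball: see `zder_large` in `GX/ZDer.lean`, from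
`Pool.Agent.H95.GC.zeta_growth`), hence on the ball (maximum principle), so by Schwarz
(`Complex.dist_le_div_mul_dist_of_mapsTo_ball`) or Cauchy: `‖D(ρ+δ) - D(ρ)‖ ≤ 128 (1+|γ|)² δ` for `δ ≤ 1/8` (any absolute
constant is fine). As `ζ(ρ+δ) = δ D(ρ+δ)` and `D(ρ) = ζ'(ρ)`, (*) gives
`‖ζ'(ρ)‖ ≥ δ^(1/2)/(C₁(2+|γ|)) - 128 (1+|γ|)² δ`. Choose `δ^(1/2) = c₀ / (1+|γ|)^3` with a small constant `c₀ > 0`: then
`‖ζ'(ρ)‖ ≥ c₁ / (1+|γ|)^4`, and `‖r γ‖ = ‖ρ ζ'(ρ)‖⁻¹ ≤ (2/c₁) (1+|γ|)^4`.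
For `|γ| < 2` there are finitely many `γ ∈ Zr` (`zr_finite` is in `GX/Contour.lean`; prove it directly from
`IsCompact.inter_riemannZetaZeros_finite`, or use compactness): take the maximum. `k = 4` works; the statement is existential.
-/

set_option autoImplicit false

namespace Pool.Agent.H82.GY

open MeasureTheory Set Complex Filter Topology
open Pool.Agent.H56.GX

private theorem wRes_ne (γ : ℝ) : (1 / 2 + γ * I : ℂ) ≠ 1 := by
  intro h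
  have := congrArg Complex.re h
  norm_num at this

private theorem wRes_star (C₁ : ℝ) (hF : ∀ s : ℂ, 1 / 2 < s.re → s.re ≤ 7 / 2 →
    ‖F s‖ ≤ C₁ * (s.re - 1 / 2) ^ (-(3 / 2) : ℝ))
    (hid : ∀ s : ℂ, 1 / 2 < s.re → s ≠ 1 → s * riemannZeta s * F s = 1)
    (γ x : ℝ) (hx : 0 < x) (hx3 : x ≤ 1 / 3) :
    x ^ 3 ≤ C₁ * (2 + |γ|) * ‖riemannZeta (1 / 2 + γ * I + ((x ^ 2 : ℝ) : ℂ))‖ := by
  set s : ℂ := 1 / 2 + γ * I + ((x ^ 2 : ℝ) : ℂ) with hs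
  have hx2 : 0 < x ^ 2 := by positivity
  have hx9 : x ^ 2 ≤ 1 / 9 := by nlinarith
  have hre : s.re = 1 / 2 + x ^ 2 := by
    rw [hs, add_re, add_re, ofReal_re, mul_re, ofReal_re, ofReal_im, I_re, I_im]
    norm_num
  have hs1 : s ≠ 1 := by
    intro h
    rw [h, one_re] at hre
    linarith
  have h1 := hid s (by rw [hre]; linarith) hs1
  have h2 := hF s (by rw [hre]; linarith) (by rw [hre]; linarith)
  have hpow : (s.re - 1 / 2) ^ (-(3 / 2) : ℝ) = (x ^ 3)⁻¹ := by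
    rw [hre, add_sub_cancel_left, ← Real.rpow_natCast x 2, ← Real.rpow_mul hx.le]
    have e : ((2 : ℕ) : ℝ) * (-(3 / 2)) = -((3 : ℕ) : ℝ) := by norm_num
    rw [e, Real.rpow_neg hx.le, Real.rpow_natCast]
  rw [hpow] at h2
  have hnorm : ‖s‖ ≤ 2 + |γ| := by
    rw [hs]
    refine (norm_add_le _ _).trans ?_
    have e1 : ‖(1 / 2 + γ * I : ℂ)‖ ≤ 1 / 2 + |γ| := by
      refine (norm_add_le _ _).trans ?_
      rw [norm_mul, Complex.norm_I, mul_one, Complex.norm_real, Real.norm_eq_abs]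
      norm_num
    have e2 : ‖((x ^ 2 : ℝ) : ℂ)‖ = x ^ 2 := by
      rw [Complex.norm_real, Real.norm_eq_abs, abs_of_pos hx2]
    rw [e2]
    linarith
  have h3 : ‖s‖ * ‖riemannZeta s‖ * ‖F s‖ = 1 := by
    rw [← norm_mul, ← norm_mul, h1, norm_one]
  have h4 : (1 : ℝ) ≤ (2 + |γ|) * ‖riemannZeta s‖ * (C₁ * (x ^ 3)⁻¹) := by
    rw [← h3]
    refine mul_le_mul (mul_le_mul_of_nonneg_right hnorm (norm_nonneg _)) h2 (norm_nonneg _) ?_
    have := abs_nonneg γ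
    positivity
  have hx30 : 0 < x ^ 3 := by positivity
  calc x ^ 3 = 1 * x ^ 3 := (one_mul _).symm
    _ ≤ ((2 + |γ|) * ‖riemannZeta s‖ * (C₁ * (x ^ 3)⁻¹)) * x ^ 3 :=
        mul_le_mul_of_nonneg_right h4 hx30.le
    _ = C₁ * (2 + |γ|) * ‖riemannZeta s‖ := by
        field_simp

private theorem wRes_dslope (γ x : ℝ) (hγ : riemannZeta (1 / 2 + γ * I) = 0) :
    riemannZeta (1 / 2 + γ * I + ((x ^ 2 : ℝ) : ℂ)) =
      ((x ^ 2 : ℝ) : ℂ) * dslope riemannZeta (1 / 2 + γ * I)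
        (1 / 2 + γ * I + ((x ^ 2 : ℝ) : ℂ)) := by
  have h := sub_smul_dslope riemannZeta (1 / 2 + γ * I : ℂ) (1 / 2 + γ * I + ((x ^ 2 : ℝ) : ℂ))
  rw [hγ, sub_zero, add_sub_cancel_left, smul_eq_mul] at h
  exact h.symm

private theorem wRes_diff (c : ℂ) (hc : c ≠ 1) (U : Set ℂ) (hU : U ∈ 𝓝 c) (h1 : (1 : ℂ) ∉ U) :
    DifferentiableOn ℂ (dslope riemannZeta c) U := by
  rw [Complex.differentiableOn_dslope hU]
  intro z hz
  refine (differentiableAt_riemannZeta ?_).differentiableWithinAt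
  rintro rfl
  exact h1 hz

theorem wzeta_simple (C : ℝ) (hC : 1 ≤ C) (h : WB C) (γ : ℝ) (hγ : γ ∈ Zr) :
    deriv riemannZeta (1 / 2 + γ * I) ≠ 0 := by
  intro h0
  obtain ⟨C₁, hC₁, hF⟩ := wF_norm C hC h
  have hstar := wRes_star C₁ hF (wF_ident C hC h) γ
  have hz : riemannZeta (1 / 2 + γ * I) = 0 := hγ
  set ρ : ℂ := 1 / 2 + γ * I with hρ
  have hρ1 : ρ ≠ 1 := wRes_ne γ
  have hd : DifferentiableAt ℂ (dslope riemannZeta ρ) ρ :=
    (wRes_diff ρ hρ1 ({1}ᶜ) (isOpen_compl_singleton.mem_nhds hρ1) (by simp)).differentiableAt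
      (isOpen_compl_singleton.mem_nhds hρ1)
  have hO := hd.isBigO_sub
  rw [dslope_same, h0] at hO
  obtain ⟨M, hM⟩ := hO.bound
  have htend : Tendsto (fun x : ℝ => ρ + ((x ^ 2 : ℝ) : ℂ)) (𝓝[>] 0) (𝓝 ρ) := by
    have hc : Continuous fun x : ℝ => ρ + ((x ^ 2 : ℝ) : ℂ) := by fun_prop
    have := hc.tendsto 0
    simp only [ne_eq, OfNat.ofNat_ne_zero, not_false_eq_true, zero_pow, ofReal_zero,
      add_zero] at this
    exact this.mono_left nhdsWithin_le_nhds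
  have hev := htend.eventually hM
  have hB : 0 < C₁ * (2 + |γ|) * (|M| + 1) := by
    have := abs_nonneg γ
    have := abs_nonneg M
    positivity
  have hsmall : ∀ᶠ x : ℝ in 𝓝[>] 0, x < min (1 / 3) (1 / (C₁ * (2 + |γ|) * (|M| + 1))) :=
    Filter.Eventually.filter_mono nhdsWithin_le_nhds (Iio_mem_nhds (lt_min (by norm_num)
      (by positivity)))
  obtain ⟨x, ⟨hx1, hx2⟩, hx0⟩ := ((hev.and hsmall).and self_mem_nhdsWithin).exists
  have hx0' : (0 : ℝ) < x := hx0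
  have k1 := hstar x hx0' ((hx2.le).trans (min_le_left _ _))
  rw [wRes_dslope γ x hz, norm_mul] at k1
  rw [sub_zero, add_sub_cancel_left] at hx1
  have e2 : ‖((x ^ 2 : ℝ) : ℂ)‖ = x ^ 2 := by
    rw [Complex.norm_real, Real.norm_eq_abs, abs_of_pos (by positivity)]
  rw [e2] at hx1 k1
  have k2 : ‖dslope riemannZeta ρ (ρ + ((x ^ 2 : ℝ) : ℂ))‖ ≤ (|M| + 1) * x ^ 2 := by
    refine hx1.trans (mul_le_mul_of_nonneg_right ?_ (by positivity))
    linarith [le_abs_self M]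
  have k3 : x ^ 3 ≤ (C₁ * (2 + |γ|) * (|M| + 1) * x) * x ^ 3 := by
    refine k1.trans ?_
    have h1 : x ^ 2 * ‖dslope riemannZeta ρ (ρ + ((x ^ 2 : ℝ) : ℂ))‖ ≤
        x ^ 2 * ((|M| + 1) * x ^ 2) := mul_le_mul_of_nonneg_left k2 (by positivity)
    have h2 : 0 ≤ C₁ * (2 + |γ|) := by
      have := abs_nonneg γ
      positivity
    calc C₁ * (2 + |γ|) * (x ^ 2 * ‖dslope riemannZeta ρ (ρ + ((x ^ 2 : ℝ) : ℂ))‖)
        ≤ C₁ * (2 + |γ|) * (x ^ 2 * ((|M| + 1) * x ^ 2)) := mul_le_mul_of_nonneg_left h1 h2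
      _ = (C₁ * (2 + |γ|) * (|M| + 1) * x) * x ^ 3 := by ring
  have k4 : C₁ * (2 + |γ|) * (|M| + 1) * x < 1 := by
    have := lt_of_lt_of_le hx2 (min_le_right _ _)
    rw [lt_div_iff₀ hB] at this
    linarith
  have hx3 : 0 < x ^ 3 := by positivity
  have := mul_lt_mul_of_pos_right k4 hx3
  linarith

private theorem wRes_ball (γ : ℝ) (hγ : 2 ≤ |γ|) (z : ℂ)
    (hz : z ∈ Metric.closedBall (1 / 2 + γ * I : ℂ) (1 / 2)) :
    0 ≤ z.re ∧ 1 ≤ |z.im| ∧ ‖z‖ ≤ 1 + |γ| := by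
  rw [Metric.mem_closedBall, dist_eq_norm] at hz
  have h1 := (Complex.abs_re_le_norm (z - (1 / 2 + γ * I))).trans hz
  have h2 := (Complex.abs_im_le_norm (z - (1 / 2 + γ * I))).trans hz
  have e1 : (z - (1 / 2 + γ * I)).re = z.re - 1 / 2 := by simp
  have e2 : (z - (1 / 2 + γ * I)).im = z.im - γ := by simp
  rw [e1] at h1
  rw [e2] at h2
  refine ⟨by linarith [(abs_le.1 h1).1], ?_, ?_⟩
  · have h3 : |γ| ≤ |z.im| + |z.im - γ| := by
      have := abs_sub_abs_le_abs_sub γ z.im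
      rw [abs_sub_comm] at this
      linarith
    linarith
  · have h4 : ‖z‖ ≤ ‖z - (1 / 2 + γ * I)‖ + ‖(1 / 2 + γ * I : ℂ)‖ := by
      have := norm_add_le (z - (1 / 2 + γ * I)) (1 / 2 + γ * I : ℂ)
      rwa [sub_add_cancel] at this
    have h5 : ‖(1 / 2 + γ * I : ℂ)‖ ≤ 1 / 2 + |γ| := by
      refine (norm_add_le _ _).trans ?_
      rw [norm_mul, Complex.norm_I, mul_one, Complex.norm_real, Real.norm_eq_abs]
      norm_num
    linarith

private theorem wRes_lip (γ : ℝ) (hγ : 2 ≤ |γ|) (hz : riemannZeta (1 / 2 + γ * I) = 0)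
    (z : ℂ) (hzb : z ∈ Metric.ball (1 / 2 + γ * I : ℂ) (1 / 2)) :
    ‖dslope riemannZeta (1 / 2 + γ * I) z - deriv riemannZeta (1 / 2 + γ * I)‖ ≤
      64 * (1 + |γ|) ^ 2 * ‖z - (1 / 2 + γ * I)‖ := by
  set ρ : ℂ := 1 / 2 + γ * I with hρ
  have hγ0 := abs_nonneg γ
  have hρ1 : ρ ≠ 1 := wRes_ne γ
  have h1 : (1 : ℂ) ∉ Metric.closedBall ρ (1 / 2) := by
    intro h
    have := (wRes_ball γ hγ 1 h).2.1
    simp at this
    linarith
  have hdc : DifferentiableOn ℂ (dslope riemannZeta ρ) (Metric.closedBall ρ (1 / 2)) :=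
    wRes_diff ρ hρ1 _ (Metric.closedBall_mem_nhds ρ (by norm_num)) h1
  have hdcc : DiffContOnCl ℂ (dslope riemannZeta ρ) (Metric.ball ρ (1 / 2)) := by
    apply DifferentiableOn.diffContOnCl
    rw [closure_ball _ (by norm_num)]
    exact hdc
  have hfr : ∀ w ∈ frontier (Metric.ball ρ (1 / 2)), ‖dslope riemannZeta ρ w‖ ≤
      16 * (1 + |γ|) ^ 2 := by
    intro w hw
    rw [frontier_ball _ (by norm_num)] at hw
    obtain ⟨g1, g2, g3⟩ := wRes_ball γ hγ w (Metric.sphere_subset_closedBall hw)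
    have h4 := Pool.Agent.H95.GC.zeta_growth w (by linarith) g2
    have h5 : (1 + ‖w‖) ^ 2 ≤ (2 * (1 + |γ|)) ^ 2 :=
      pow_le_pow_left₀ (by positivity) (by linarith) 2
    have h6 : ‖w - ρ‖ = 1 / 2 := by
      rwa [mem_sphere_iff_norm] at hw
    have h7 := congrArg norm (sub_smul_dslope riemannZeta ρ w)
    rw [norm_smul, h6, hz, sub_zero] at h7
    have h8 : ‖dslope riemannZeta ρ w‖ = 2 * ‖riemannZeta w‖ := by linarith
    rw [h8]
    nlinarith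
  have hmax : ∀ w ∈ Metric.closedBall ρ (1 / 2), ‖dslope riemannZeta ρ w‖ ≤
      16 * (1 + |γ|) ^ 2 := by
    intro w hw
    refine Complex.norm_le_of_forall_mem_frontier_norm_le Metric.isBounded_ball hdcc hfr ?_
    rwa [closure_ball _ (by norm_num)]
  have hmaps : MapsTo (dslope riemannZeta ρ) (Metric.ball ρ (1 / 2))
      (Metric.closedBall (dslope riemannZeta ρ ρ) (32 * (1 + |γ|) ^ 2)) := by
    intro w hw
    rw [Metric.mem_closedBall, dist_eq_norm]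
    refine (norm_sub_le _ _).trans ?_
    have a1 := hmax w (Metric.ball_subset_closedBall hw)
    have a2 := hmax ρ (Metric.mem_closedBall_self (by norm_num))
    linarith
  have hfin := Complex.dist_le_div_mul_dist_of_mapsTo_ball
    (hdc.mono Metric.ball_subset_closedBall) hmaps hzb
  rw [dist_eq_norm, dist_eq_norm, dslope_same] at hfin
  refine hfin.trans (le_of_eq ?_)
  ring

private theorem wRes_large (C₁ : ℝ) (hC₁ : 0 < C₁)
    (hF : ∀ s : ℂ, 1 / 2 < s.re → s.re ≤ 7 / 2 →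
      ‖F s‖ ≤ C₁ * (s.re - 1 / 2) ^ (-(3 / 2) : ℝ))
    (hid : ∀ s : ℂ, 1 / 2 < s.re → s ≠ 1 → s * riemannZeta s * F s = 1)
    (c₀ : ℝ) (hc₀ : 0 < c₀) (hc1 : c₀ ≤ 1 / 3) (hc2 : 256 * C₁ * c₀ ≤ 1)
    (γ : ℝ) (hγ : 2 ≤ |γ|) (hz : riemannZeta (1 / 2 + γ * I) = 0) :
    ‖r γ‖ ≤ 8 * C₁ / c₀ * (1 + |γ|) ^ 4 := by
  have hγ0 := abs_nonneg γ
  set g : ℝ := 1 + |γ| with hg
  have hg1 : 1 ≤ g := by linarith
  have hg0 : 0 < g := by linarith
  set x : ℝ := c₀ / g ^ 3 with hx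
  have hx0 : 0 < x := by positivity
  have hg3 : 1 ≤ g ^ 3 := one_le_pow₀ hg1
  have hxc : x ≤ c₀ := div_le_self hc₀.le hg3
  have hx13 : x ≤ 1 / 3 := hxc.trans hc1
  have k1 := wRes_star C₁ hF hid γ x hx0 hx13
  rw [wRes_dslope γ x hz, norm_mul] at k1
  have e2 : ‖((x ^ 2 : ℝ) : ℂ)‖ = x ^ 2 := by
    rw [Complex.norm_real, Real.norm_eq_abs, abs_of_pos (by positivity)]
  have hx9 : x ^ 2 < 1 / 2 := by nlinarith
  have hmem : (1 / 2 + γ * I + ((x ^ 2 : ℝ) : ℂ)) ∈ Metric.ball (1 / 2 + γ * I : ℂ) (1 / 2) := by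
    rw [Metric.mem_ball, dist_eq_norm, add_sub_cancel_left, e2]
    exact hx9
  have k2 := wRes_lip γ hγ hz _ hmem
  rw [add_sub_cancel_left, e2, ← hg] at k2
  rw [e2] at k1
  set D := dslope riemannZeta (1 / 2 + γ * I) (1 / 2 + γ * I + ((x ^ 2 : ℝ) : ℂ)) with hD
  set Z := deriv riemannZeta (1 / 2 + γ * I) with hZ
  have k3 : ‖D‖ ≤ ‖Z‖ + 64 * g ^ 2 * x ^ 2 := by
    have := norm_le_norm_add_norm_sub' D Z
    linarith
  have hx2 : 0 < x ^ 2 := by positivity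
  have k4 : x ≤ 2 * C₁ * g * ‖D‖ := by
    have h1 : x ^ 2 * x ≤ x ^ 2 * (2 * C₁ * g * ‖D‖) := by
      calc x ^ 2 * x = x ^ 3 := by ring
        _ ≤ C₁ * (2 + |γ|) * (x ^ 2 * ‖D‖) := k1
        _ ≤ C₁ * (2 * g) * (x ^ 2 * ‖D‖) := by
            refine mul_le_mul_of_nonneg_right (mul_le_mul_of_nonneg_left ?_ hC₁.le)
              (by positivity)
            linarith
        _ = x ^ 2 * (2 * C₁ * g * ‖D‖) := by ring
    exact le_of_mul_le_mul_left h1 hx2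
  have k5 : 2 * C₁ * g * (64 * g ^ 2 * x ^ 2) ≤ x / 2 := by
    have hgx : g ^ 3 * x = c₀ := by
      rw [hx]
      field_simp
    calc 2 * C₁ * g * (64 * g ^ 2 * x ^ 2) = 128 * C₁ * (g ^ 3 * x) * x := by ring
      _ = (256 * C₁ * c₀) * (x / 2) := by rw [hgx]; ring
      _ ≤ 1 * (x / 2) := mul_le_mul_of_nonneg_right hc2 (by positivity)
      _ = x / 2 := one_mul _
  have k6 : x ≤ 4 * C₁ * g * ‖Z‖ := by
    have : 2 * C₁ * g * ‖D‖ ≤ 2 * C₁ * g * (‖Z‖ + 64 * g ^ 2 * x ^ 2) :=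
      mul_le_mul_of_nonneg_left k3 (by positivity)
    linarith
  have hZ0 : 0 < ‖Z‖ := by
    by_contra hcon
    have hZz : ‖Z‖ = 0 := le_antisymm (not_lt.1 hcon) (norm_nonneg _)
    rw [hZz, mul_zero] at k6
    linarith
  have hρ : (1 : ℝ) / 2 ≤ ‖(1 / 2 + γ * I : ℂ)‖ := by
    have := Complex.abs_re_le_norm (1 / 2 + γ * I : ℂ)
    have e : (1 / 2 + γ * I : ℂ).re = 1 / 2 := by simp
    rw [e] at this
    refine le_trans ?_ this
    rw [abs_of_pos (by norm_num)]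
  unfold r
  rw [← hZ, norm_inv, norm_mul]
  have hpos : 0 < ‖(1 / 2 + γ * I : ℂ)‖ * ‖Z‖ := by positivity
  rw [inv_le_comm₀ hpos (by positivity)]
  have k7 : (8 * C₁ / c₀ * g ^ 4)⁻¹ = (1 / 2) * (x / (4 * C₁ * g)) := by
    rw [hx]
    field_simp
    norm_num
  rw [k7]
  refine mul_le_mul hρ ?_ (by positivity) (norm_nonneg _)
  rw [div_le_iff₀ (by positivity)]
  linarith

private theorem wRes_finite (T : ℝ) : {γ : ℝ | γ ∈ Zr ∧ |γ| < T}.Finite := by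
  have hinj : Function.Injective (fun γ : ℝ => (1 / 2 : ℂ) + γ * I) := by
    intro γ γ' h
    have := congrArg Complex.im h
    simpa using this
  have hc : IsCompact (Metric.closedBall (0 : ℂ) (1 + |T|)) := isCompact_closedBall _ _
  have hf := hc.inter_riemannZetaZeros_finite
  refine Set.Finite.of_finite_image (f := fun γ : ℝ => (1 / 2 : ℂ) + γ * I) (hf.subset ?_)
    hinj.injOn
  rintro _ ⟨γ, ⟨h1, h2⟩, rfl⟩
  refine ⟨?_, h1⟩
  rw [mem_closedBall_zero_iff]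
  refine (norm_add_le _ _).trans ?_
  have e1 : ‖(1 / 2 : ℂ)‖ = 1 / 2 := by norm_num
  have e2 : ‖(γ : ℂ) * I‖ = |γ| := by simp
  rw [e1, e2]
  have := le_abs_self T
  linarith

theorem wres_poly (C : ℝ) (hC : 1 ≤ C) (h : WB C) : ∃ (A : ℝ) (k : ℕ), 0 < A ∧
    ∀ γ ∈ Zr, ‖r γ‖ ≤ A * (1 + |γ|) ^ k := by
  obtain ⟨C₁, hC₁, hF⟩ := wF_norm C hC h
  obtain ⟨M, hM⟩ := ((wRes_finite 2).image (fun γ => ‖r γ‖)).bddAbove
  set c₀ : ℝ := min (1 / 3) (1 / (256 * C₁)) with hc₀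
  have h1 : 0 < c₀ := lt_min (by norm_num) (by positivity)
  have h2 : c₀ ≤ 1 / 3 := min_le_left _ _
  have h3 : 256 * C₁ * c₀ ≤ 1 := by
    have : c₀ ≤ 1 / (256 * C₁) := min_le_right _ _
    rw [le_div_iff₀ (by positivity)] at this
    linarith
  refine ⟨max M 0 + 8 * C₁ / c₀, 4, by positivity, fun γ hγ => ?_⟩
  have hγ0 := abs_nonneg γ
  have h4 : (1 : ℝ) ≤ (1 + |γ|) ^ 4 := one_le_pow₀ (by linarith)
  have h5 : 0 ≤ max M 0 := le_max_right _ _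
  have h6 : 0 < 8 * C₁ / c₀ := by positivity
  rcases le_or_gt 2 |γ| with hg | hg
  · refine (wRes_large C₁ hC₁ hF (wF_ident C hC h) c₀ h1 h2 h3 γ hg hγ).trans ?_
    refine mul_le_mul_of_nonneg_right ?_ (by positivity)
    linarith
  · have h7 : ‖r γ‖ ≤ M := hM ⟨γ, ⟨hγ, hg⟩, rfl⟩
    have h8 : ‖r γ‖ ≤ max M 0 + 8 * C₁ / c₀ := by
      have := le_max_left M 0
      linarith
    refine h8.trans ?_
    exact le_mul_of_one_le_right (by positivity) h4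

end Pool.Agent.H82.GY
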