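import Pool.Agent.H82.GY.Defs
import Pool.Agent.H56.GX.VEq
import Pool.Agent.H56.GX.MzB

/-!
GY module WinY: from the hypothesis to the window energies. (Adapt `GX/WinHyp.lean`, 59 lines.)

Let `Y ≥ max X₀ 1` and `2 κ Y / g Y ≤ k ≤ Y / (2 g Y)`; so `0 < k ≤ Y / 2` (`g ≥ 1`). Put `X = Y + k / 2`, so
`Y ≤ X ≤ 2 Y` and `g Y ≤ g X ≤ g (2 Y) ≤ 2 g Y`. Then `κ X / g X ≤ 2 κ Y / g Y ≤ k` and
`X / g X ≥ Y / (2 g Y) ≥ k`. So `V X k ≤ B k`, and as in `GX/WinHyp.lean` (`V_eq`, substitution `x' = x + k/2`,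
`[Y+k/2, 2Y+k/2] ⊂ [X, 2X]`): `∫_Y^{2Y} (Mz (x+k) - Mz x)² ≤ X V(X;k) ≤ X B k ≤ 2 Y B k`.
-/

set_option autoImplicit false

namespace Pool.Agent.H82.GY

open MeasureTheory Set Complex Filter Topology
open Pool.Agent.H56.GX

theorem win_of_hyp (c B κ X₀ : ℝ) (g : ℝ → ℝ) (hg : Reg g) (hB : 0 ≤ B) (hκ : 0 < κ)
    (h : Hyp c B κ X₀ g) : WinG B κ (max X₀ 1) g := by
  intro Y k hY hk1 hk2
  have hY1 : 1 ≤ Y := (le_max_right _ _).trans hY
  have hYX : X₀ ≤ Y := (le_max_left _ _).trans hY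
  have hg1 : 1 ≤ g Y := hg.one_le Y
  have hg0 : 0 < g Y := by linarith
  have hk0 : 0 < k := lt_of_lt_of_le (by positivity) hk1
  have hkY : k ≤ Y / 2 := by
    refine hk2.trans ?_
    apply div_le_div_of_nonneg_left (by linarith) (by norm_num)
    linarith
  have hgX1 : g Y ≤ g (Y + k / 2) := hg.mono (by linarith)
  have hgX2 : g (Y + k / 2) ≤ 2 * g Y := (hg.mono (by linarith)).trans (hg.dbl Y)
  have hgX0 : 0 < g (Y + k / 2) := by linarith
  have e1 : κ * (Y + k / 2) / g (Y + k / 2) ≤ k := by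
    refine le_trans ?_ hk1
    apply div_le_div₀ (by positivity) _ hg0 hgX1
    nlinarith
  have e2 : k ≤ (Y + k / 2) / g (Y + k / 2) := by
    refine hk2.trans ?_
    apply div_le_div₀ (by linarith) (by linarith) hgX0 hgX2
  have hV := (h (Y + k / 2) k (by linarith) e1 e2).2
  rw [V_eq (Y + k / 2) k (by linarith) hk0 (by linarith)] at hV
  have hX0 : 0 < Y + k / 2 := by linarith
  have h3 : ∫ x in (Y + k / 2)..2 * (Y + k / 2), (Mz (x + k / 2) - Mz (x - k / 2)) ^ 2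
      ≤ (Y + k / 2) * (B * k) := by
    rw [one_div, inv_mul_le_iff₀ hX0] at hV
    exact hV
  have h4 : ∫ x in Y..2 * Y, (Mz (x + k) - Mz x) ^ 2
      = ∫ x in (Y + k / 2)..(2 * Y + k / 2), (Mz (x + k / 2) - Mz (x - k / 2)) ^ 2 := by
    rw [← intervalIntegral.integral_comp_add_right
      (fun x => (Mz (x + k / 2) - Mz (x - k / 2)) ^ 2) (k / 2)]
    apply intervalIntegral.integral_congr
    intro x _
    show (Mz (x + k) - Mz x) ^ 2 = (Mz (x + k / 2 + k / 2) - Mz (x + k / 2 - k / 2)) ^ 2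
    rw [show x + k / 2 + k / 2 = x + k by ring, show x + k / 2 - k / 2 = x by ring]
  rw [h4]
  have hint := Mz_diff_sq_intervalIntegrable (Y + k / 2) (2 * (Y + k / 2)) (k / 2) (-(k / 2))
  have h5 : ∫ x in (Y + k / 2)..(2 * Y + k / 2), (Mz (x + k / 2) - Mz (x - k / 2)) ^ 2
      ≤ ∫ x in (Y + k / 2)..2 * (Y + k / 2), (Mz (x + k / 2) - Mz (x - k / 2)) ^ 2 := by
    apply intervalIntegral.integral_mono_interval le_rfl (by linarith) (by linarith)
    · exact Filter.Eventually.of_forall (fun x => sq_nonneg _)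
    · simpa [sub_eq_add_neg] using hint
  refine h5.trans (h3.trans ?_)
  have h6 : 0 ≤ B * k := mul_nonneg hB hk0.le
  nlinarith

end Pool.Agent.H82.GY
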