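import Pool.Agent.H82.GY.Defs
import Pool.Agent.H95.GC.ZetaForm

/-!
GY module ZCount: the number of zeros of `ζ` on the critical line up to height `U` is `O(U log U)`.

(1) `zeros_disc`. Let `f` be holomorphic on (a neighbourhood of) the closed ball `B(c, R)`, `‖f‖ ≤ M` there, and let `S` be a finite
set of zeros of `f` in `B(c, ρ)`, `ρ < R`. Then `‖f c‖ ≤ M (ρ/(R-ρ))^|S|`. Induction on `S`: for `w ∈ S` let
`f₁ = dslope f w`: holomorphic on the same set, `f z = (z - w) f₁ z`, `‖f₁‖ ≤ M/(R-ρ)` on the sphere and hence on the ball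
(`Complex.norm_le_of_forall_mem_frontier_norm_le`), `f₁` vanishes on `S \ {w}`, and `‖f c‖ = ‖c - w‖ ‖f₁ c‖ ≤ ρ ‖f₁ c‖`.
(2) `zcount_local`. For `|t| ≥ 4` take `c = 6/5 + it`, `R = 8/5`, `ρ = 3/4`: for `γ ∈ Zr`, `|γ - t| ≤ 1/10`:
`|c - (1/2 + iγ)|² ≤ 49/100 + 1/100 ≤ (3/4)²`; `ρ/(R-ρ) = (3/4)/(17/20) = 15/17 < 1`. On `B(c, R)`: `Re ≥ -2/5 ≥ -1/2`, `|Im| ≥ 2`,
so `Pool.Agent.H95.GC.zeta_growth : ‖ζ(s)‖ ≤ 2 (1 + ‖s‖)^2` gives `M ≤ 2 (5 + |t|)²`, and
`‖ζ(6/5 + it)‖ ≥ c₀ > 0` with `c₀` independent of `t`: `‖ζ(s)⁻¹‖ = ‖∑ μ(n) n^{-s}‖ ≤ ∑ n^{-6/5} < ∞` (see `ZLeft_zeta` in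
`GX/ZLeft.lean`, the same with `3/2` instead of `6/5`). So `(17/15)^|S| ≤ M / c₀` and `|S| ≤ A log (2 + |t|)`.
For `|t| ≤ 4` the set `{γ ∈ Zr : |γ| ≤ 5}` is finite (`IsCompact.inter_riemannZetaZeros_finite`).
(3) `zcount`: cover `[-U, U]` by at most `10 U + 2` intervals `[t - 1/10, t + 1/10]`, `t = j/5`.
-/

set_option autoImplicit false

namespace Pool.Agent.H82.GY

open MeasureTheory Set Complex Filter Topology
open Pool.Agent.H56.GX

theorem zeros_disc (f : ℂ → ℂ) (c : ℂ) (R ρ M : ℝ) (hρ : 0 ≤ ρ) (hR : ρ < R) (U : Set ℂ) (hU : IsOpen U)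
    (hUc : Metric.closedBall c R ⊆ U) (hf : DifferentiableOn ℂ f U)
    (hM : ∀ z ∈ Metric.closedBall c R, ‖f z‖ ≤ M) (S : Finset ℂ)
    (hS : ∀ w ∈ S, dist w c ≤ ρ ∧ f w = 0) : ‖f c‖ ≤ M * (ρ / (R - ρ)) ^ S.card := by
  classical
  have hR0 : 0 < R := lt_of_le_of_lt hρ hR
  have hRρ : 0 < R - ρ := by linarith
  induction S using Finset.induction_on generalizing f M with
  | empty =>
    simpa using hM c (Metric.mem_closedBall_self hR0.le)
  | insert w S hw ih =>
    have hwS := hS w (Finset.mem_insert_self w S)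
    have hwc : w ∈ Metric.closedBall c R := by
      rw [Metric.mem_closedBall]; linarith [hwS.1]
    have hnhd : U ∈ 𝓝 w := hU.mem_nhds (hUc hwc)
    have hf1 : DifferentiableOn ℂ (dslope f w) U := (Complex.differentiableOn_dslope hnhd).mpr hf
    have hM1 : ∀ z ∈ Metric.closedBall c R, ‖dslope f w z‖ ≤ M / (R - ρ) := by
      intro z hz
      have hd : DiffContOnCl ℂ (dslope f w) (Metric.ball c R) := hf1.diffContOnCl_ball hUc
      refine Complex.norm_le_of_forall_mem_frontier_norm_le (U := Metric.ball c R)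
        Metric.isBounded_ball hd ?_ ?_
      · intro y hy
        rw [frontier_ball c hR0.ne', Metric.mem_sphere] at hy
        have hyw : y ≠ w := by
          rintro rfl
          linarith [hwS.1]
        have hyw' : R - ρ ≤ ‖y - w‖ := by
          have h1 : dist y c ≤ dist y w + dist w c := dist_triangle _ _ _
          rw [← dist_eq_norm]
          linarith [hwS.1]
        rw [dslope_of_ne _ hyw, slope_def_field, hwS.2, sub_zero, norm_div]
        have h2 := hM y (by rw [Metric.mem_closedBall, hy])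
        have h3 : 0 ≤ M := (norm_nonneg _).trans h2
        gcongr
      · rw [closure_ball c hR0.ne']
        exact hz
    have hS1 : ∀ v ∈ S, dist v c ≤ ρ ∧ dslope f w v = 0 := by
      intro v hv
      have hv1 := hS v (Finset.mem_insert_of_mem hv)
      refine ⟨hv1.1, ?_⟩
      have hvw : v ≠ w := by
        rintro rfl
        exact hw hv
      rw [dslope_of_ne _ hvw, slope_def_field, hwS.2, hv1.2]
      simp
    have h := ih (dslope f w) (M / (R - ρ)) hf1 hM1 hS1
    have e : f c = (c - w) * dslope f w c := by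
      have h1 := sub_smul_dslope f w c
      rw [hwS.2, sub_zero, smul_eq_mul] at h1
      exact h1.symm
    rw [e, norm_mul, Finset.card_insert_of_notMem hw, pow_succ]
    have hcw : ‖c - w‖ ≤ ρ := by
      rw [← dist_eq_norm, dist_comm]; exact hwS.1
    calc ‖c - w‖ * ‖dslope f w c‖ ≤ ρ * (M / (R - ρ) * (ρ / (R - ρ)) ^ S.card) :=
          mul_le_mul hcw h (norm_nonneg _) hρ
      _ = M * ((ρ / (R - ρ)) ^ S.card * (ρ / (R - ρ))) := by ring

/-- A uniform lower bound for `ζ` on the line `Re s = 6/5`. -/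
private lemma ZCount_zeta : ∃ c : ℝ, 0 < c ∧ ∀ t : ℝ, c ≤ ‖riemannZeta (6 / 5 + t * I)‖ := by
  have hre : ∀ t : ℝ, ((6 / 5 : ℂ) + t * I).re = 6 / 5 := by
    intro t; simp
  have hsum : Summable (fun n : ℕ => ‖LSeries.term (1 : ℕ → ℂ) ((6 / 5 : ℝ) : ℂ) n‖) := by
    have h := (LSeriesSummable_one_iff (s := ((6 / 5 : ℝ) : ℂ))).mpr (by
      rw [Complex.ofReal_re]; norm_num)
    exact h.norm
  set B : ℝ := ∑' n : ℕ, ‖LSeries.term (1 : ℕ → ℂ) ((6 / 5 : ℝ) : ℂ) n‖ with hB
  have hterm : ∀ (t : ℝ) (n : ℕ),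
      ‖LSeries.term (fun n : ℕ => ((ArithmeticFunction.moebius n : ℤ) : ℂ)) (6 / 5 + t * I) n‖
        ≤ ‖LSeries.term (1 : ℕ → ℂ) ((6 / 5 : ℝ) : ℂ) n‖ := by
    intro t n
    refine (LSeries.norm_term_le (g := (1 : ℕ → ℂ)) _ ?_).trans ?_
    · have h1 : |ArithmeticFunction.moebius n| ≤ 1 := ArithmeticFunction.abs_moebius_le_one
      have h2 : ‖((ArithmeticFunction.moebius n : ℤ) : ℂ)‖ ≤ 1 := by
        rw [Complex.norm_intCast]; exact_mod_cast h1
      simpa using h2
    · refine LSeries.norm_term_le_of_re_le_re _ ?_ n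
      rw [hre, Complex.ofReal_re]
  have hB1 : ∀ t : ℝ,
      ‖LSeries (fun n : ℕ => ((ArithmeticFunction.moebius n : ℤ) : ℂ)) (6 / 5 + t * I)‖ ≤ B := by
    intro t
    rw [LSeries]
    exact (norm_tsum_le_tsum_norm
      (Summable.of_nonneg_of_le (fun n => norm_nonneg _) (hterm t) hsum)).trans
      ((Summable.of_nonneg_of_le (fun n => norm_nonneg _) (hterm t) hsum).tsum_le_tsum
        (hterm t) hsum)
  have hprod : ∀ t : ℝ, riemannZeta (6 / 5 + t * I)
      * LSeries (fun n : ℕ => ((ArithmeticFunction.moebius n : ℤ) : ℂ)) (6 / 5 + t * I) = 1 := by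
    intro t
    have h1 : 1 < ((6 / 5 : ℂ) + t * I).re := by rw [hre]; norm_num
    rw [← ArithmeticFunction.LSeries_zeta_eq_riemannZeta h1]
    exact ArithmeticFunction.LSeries_zeta_mul_Lseries_moebius h1
  have hBpos : 0 < B := by
    have h := hprod 0
    rcases lt_or_ge 0 B with h1 | h1
    · exact h1
    · exfalso
      have h2 := (hB1 0).trans h1
      have h3 := norm_le_zero_iff.mp h2
      rw [h3, mul_zero] at h
      exact zero_ne_one h
  refine ⟨1 / B, by positivity, fun t => ?_⟩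
  have h := congrArg norm (hprod t)
  rw [norm_mul, norm_one] at h
  rw [div_le_iff₀ hBpos]
  calc (1 : ℝ) = _ := h.symm
    _ ≤ ‖riemannZeta (6 / 5 + t * I)‖ * B :=
      mul_le_mul_of_nonneg_left (hB1 t) (norm_nonneg _)

private lemma ZCount_inj : Function.Injective (fun γ : ℝ => (1 / 2 + (γ : ℂ) * I : ℂ)) := by
  intro a b h
  have h1 := congrArg Complex.im h
  simpa using h1

private lemma ZCount_fin : ({γ : ℝ | γ ∈ Zr ∧ |γ| ≤ 5}).Finite := by
  have h := IsCompact.inter_riemannZetaZeros_finite (isCompact_closedBall (0 : ℂ) 6)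
  refine Set.Finite.subset (h.preimage (ZCount_inj.injOn)) ?_
  rintro γ ⟨h1, h2⟩
  rw [mem_preimage]
  refine ⟨?_, h1⟩
  rw [Metric.mem_closedBall, dist_zero_right]
  refine (norm_add_le _ _).trans ?_
  rw [norm_mul, Complex.norm_I, mul_one, Complex.norm_real, Real.norm_eq_abs]
  have : ‖(1 / 2 : ℂ)‖ = 1 / 2 := by
    rw [norm_div, norm_one, Complex.norm_ofNat]
  linarith

private lemma ZCount_large : ∃ A : ℝ, 0 < A ∧ ∀ (t : ℝ) (S : Finset ℝ), 4 ≤ |t| →
    (∀ γ ∈ S, γ ∈ Zr ∧ |γ - t| ≤ 1 / 10) → (S.card : ℝ) ≤ A * Real.log (2 + |t|) := by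
  classical
  obtain ⟨c0, hc0, hz⟩ := ZCount_zeta
  have hl17 : 0 < Real.log (17 / 15) := Real.log_pos (by norm_num)
  refine ⟨(|Real.log (2 / c0)| + 4) / Real.log (17 / 15), by positivity, ?_⟩
  intro t S ht hS
  set c : ℂ := 6 / 5 + t * I with hc
  have hcre : c.re = 6 / 5 := by simp [hc]
  have hcim : c.im = t := by simp [hc]
  have hball : ∀ z ∈ Metric.closedBall c (8 / 5), -1 / 2 ≤ z.re ∧ 1 ≤ |z.im| ∧
      ‖z‖ ≤ |t| + 14 / 5 := by
    intro z hz
    rw [Metric.mem_closedBall, dist_eq_norm] at hz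
    have h1 := (Complex.abs_re_le_norm (z - c)).trans hz
    have h2 := (Complex.abs_im_le_norm (z - c)).trans hz
    rw [Complex.sub_re, hcre] at h1
    rw [Complex.sub_im, hcim] at h2
    refine ⟨?_, ?_, ?_⟩
    · have := (abs_le.mp h1).1
      linarith
    · have h3 : |t| ≤ |z.im| + |z.im - t| := by
        have := abs_add_le z.im (t - z.im)
        rw [add_sub_cancel, abs_sub_comm t z.im] at this
        exact this
      linarith
    · have h4 : ‖c‖ ≤ 6 / 5 + |t| := by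
        refine (norm_add_le _ _).trans ?_
        rw [norm_mul, Complex.norm_I, mul_one, Complex.norm_real, Real.norm_eq_abs, norm_div,
          Complex.norm_ofNat, Complex.norm_ofNat]
      have h5 : ‖z‖ ≤ ‖z - c‖ + ‖c‖ := by
        have := norm_add_le (z - c) c
        rwa [sub_add_cancel] at this
      linarith
  have hdisc := zeros_disc riemannZeta c (8 / 5) (3 / 4) (2 * (5 + |t|) ^ 2) (by norm_num)
    (by norm_num) {z : ℂ | z ≠ 1} isOpen_ne (by
      intro z hz h1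
      have h1' : z = 1 := h1
      have := (hball z hz).2.1
      rw [h1'] at this
      simp at this
      linarith)
    (fun z hz => (differentiableAt_riemannZeta hz).differentiableWithinAt)
    (by
      intro z hz
      obtain ⟨g1, g2, g3⟩ := hball z hz
      refine (Pool.Agent.H95.GC.zeta_growth z g1 g2).trans ?_
      have h0 := norm_nonneg z
      have : 1 + ‖z‖ ≤ 5 + |t| := by linarith
      gcongr)
    (S.image (fun γ : ℝ => (1 / 2 + (γ : ℂ) * I : ℂ)))
    (by
      intro w hw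
      rw [Finset.mem_image] at hw
      obtain ⟨γ, hγ, rfl⟩ := hw
      refine ⟨?_, (hS γ hγ).1⟩
      have h1 := (hS γ hγ).2
      rw [dist_eq_norm]
      have h2 : ‖(1 / 2 + (γ : ℂ) * I : ℂ) - c‖ ^ 2 ≤ (3 / 4) ^ 2 := by
        rw [← Complex.normSq_eq_norm_sq, Complex.normSq_apply]
        have e1 : ((1 / 2 + (γ : ℂ) * I : ℂ) - c).re = -(7 / 10) := by
          rw [Complex.sub_re, hcre]; simp; norm_num
        have e2 : ((1 / 2 + (γ : ℂ) * I : ℂ) - c).im = γ - t := by
          rw [Complex.sub_im, hcim]; simp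
        rw [e1, e2]
        have h3 := abs_le.mp h1
        nlinarith
      exact (pow_le_pow_iff_left₀ (norm_nonneg _) (by norm_num) two_ne_zero).mp h2)
  rw [Finset.card_image_of_injective _ ZCount_inj] at hdisc
  have h1 : c0 ≤ 2 * (5 + |t|) ^ 2 * ((3 / 4) / (8 / 5 - 3 / 4)) ^ S.card := (hz t).trans hdisc
  have e1 : ((3 / 4) / (8 / 5 - 3 / 4) : ℝ) = (17 / 15)⁻¹ := by norm_num
  rw [e1, inv_pow] at h1
  have hpw : (0 : ℝ) < (17 / 15) ^ S.card := by positivity
  have h2 : (17 / 15 : ℝ) ^ S.card ≤ 2 / c0 * (5 + |t|) ^ 2 := by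
    have h3 : c0 * (17 / 15) ^ S.card ≤ 2 * (5 + |t|) ^ 2 := by
      calc c0 * (17 / 15) ^ S.card ≤ (2 * (5 + |t|) ^ 2 * ((17 / 15) ^ S.card)⁻¹) * (17 / 15) ^ S.card := by
            gcongr
        _ = 2 * (5 + |t|) ^ 2 := by field_simp
    calc (17 / 15 : ℝ) ^ S.card = (c0 * (17 / 15) ^ S.card) / c0 := by field_simp
      _ ≤ (2 * (5 + |t|) ^ 2) / c0 := by gcongr
      _ = 2 / c0 * (5 + |t|) ^ 2 := by ring
  have h3 := Real.log_le_log hpw h2
  have ht0 : 0 ≤ |t| := abs_nonneg t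
  rw [Real.log_pow, Real.log_mul (by positivity) (by positivity), Real.log_pow] at h3
  push_cast at h3
  have h4 : Real.log (5 + |t|) ≤ 2 * Real.log (2 + |t|) := by
    have : Real.log (5 + |t|) ≤ Real.log ((2 + |t|) ^ 2) := by
      refine Real.log_le_log (by positivity) ?_
      nlinarith
    rw [Real.log_pow] at this
    push_cast at this
    exact this
  have h5 : 1 ≤ Real.log (2 + |t|) := by
    have h6 : Real.exp 1 ≤ 2 + |t| := by
      have := Real.exp_one_lt_d9
      linarith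
    have h7 := Real.log_le_log (Real.exp_pos 1) h6
    rwa [Real.log_exp] at h7
  have h6 : Real.log (2 / c0) ≤ |Real.log (2 / c0)| * Real.log (2 + |t|) := by
    calc Real.log (2 / c0) ≤ |Real.log (2 / c0)| * 1 := by rw [mul_one]; exact le_abs_self _
      _ ≤ |Real.log (2 / c0)| * Real.log (2 + |t|) := by gcongr
  rw [div_mul_eq_mul_div, le_div_iff₀ hl17]
  nlinarith

theorem zcount_local : ∃ A : ℝ, 0 < A ∧ ∀ (t : ℝ) (S : Finset ℝ),
    (∀ γ ∈ S, γ ∈ Zr ∧ |γ - t| ≤ 1 / 10) → (S.card : ℝ) ≤ A * Real.log (2 + |t|) := by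
  classical
  obtain ⟨A, hA, h⟩ := ZCount_large
  have hfin := ZCount_fin
  set N : ℕ := hfin.toFinset.card with hN
  have hl2 : 0 < Real.log 2 := Real.log_pos (by norm_num)
  refine ⟨A + (N + 1) / Real.log 2, by positivity, ?_⟩
  intro t S hS
  have hlt : Real.log 2 ≤ Real.log (2 + |t|) :=
    Real.log_le_log (by norm_num) (by linarith [abs_nonneg t])
  have hlt0 : 0 ≤ Real.log (2 + |t|) := hl2.le.trans hlt
  rcases le_or_gt 4 |t| with h4 | h4
  · refine (h t S h4 hS).trans ?_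
    refine mul_le_mul_of_nonneg_right ?_ hlt0
    have : 0 ≤ ((N : ℝ) + 1) / Real.log 2 := by positivity
    linarith
  · have hsub : S ⊆ hfin.toFinset := by
      intro γ hγ
      rw [Set.Finite.mem_toFinset]
      obtain ⟨h1, h2⟩ := hS γ hγ
      refine ⟨h1, ?_⟩
      have h3 : |γ| ≤ |γ - t| + |t| := by
        have := abs_add_le (γ - t) t
        rwa [sub_add_cancel] at this
      linarith
    have hc : (S.card : ℝ) ≤ N := by
      rw [hN]
      exact_mod_cast Finset.card_le_card hsub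
    calc (S.card : ℝ) ≤ N := hc
      _ ≤ (N + 1) / Real.log 2 * Real.log 2 := by
          rw [div_mul_cancel₀ _ hl2.ne']; linarith
      _ ≤ (N + 1) / Real.log 2 * Real.log (2 + |t|) := by gcongr
      _ ≤ (A + (N + 1) / Real.log 2) * Real.log (2 + |t|) := by
          refine mul_le_mul_of_nonneg_right ?_ hlt0
          linarith

theorem zcount : ∃ A : ℝ, 0 < A ∧ ∀ (U : ℝ) (S : Finset ℝ), 1 ≤ U →
    (∀ γ ∈ S, γ ∈ Zr ∧ |γ| ≤ U) → (S.card : ℝ) ≤ A * U * Real.log (2 + U) := by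
  classical
  obtain ⟨A, hA, h⟩ := zcount_local
  refine ⟨26 * A, by positivity, ?_⟩
  intro U S hU hS
  set f : ℝ → ℤ := fun γ => round (5 * γ) with hf
  have hfr : ∀ γ : ℝ, |γ - (f γ : ℝ) / 5| ≤ 1 / 10 := by
    intro γ
    have h1 := abs_sub_round (5 * γ)
    have e : γ - (f γ : ℝ) / 5 = (5 * γ - (round (5 * γ) : ℝ)) / 5 := by
      simp only [hf]; ring
    rw [e, abs_div, abs_of_pos (by norm_num : (0 : ℝ) < 5)]
    linarith
  have hcard : (S.card : ℝ) = ∑ j ∈ S.image f, ((S.filter (fun γ => f γ = j)).card : ℝ) := by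
    rw [Finset.card_eq_sum_card_image f S]
    push_cast
    rfl
  have hlU : 0 ≤ Real.log (2 + U) := Real.log_nonneg (by linarith)
  have hb : ∀ j ∈ S.image f, ((S.filter (fun γ => f γ = j)).card : ℝ) ≤
      2 * A * Real.log (2 + U) := by
    intro j hj
    rw [Finset.mem_image] at hj
    obtain ⟨γ, hγ, rfl⟩ := hj
    have h1 := h ((f γ : ℝ) / 5) (S.filter (fun γ' => f γ' = f γ)) (by
      intro γ' hγ'
      rw [Finset.mem_filter] at hγ'
      refine ⟨(hS γ' hγ'.1).1, ?_⟩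
      rw [← hγ'.2]
      exact hfr γ')
    refine h1.trans ?_
    have h2 : |(f γ : ℝ) / 5| ≤ U + 1 / 10 := by
      have h3 := hfr γ
      have h4 := (hS γ hγ).2
      have h5 : |(f γ : ℝ) / 5| ≤ |γ| + |γ - (f γ : ℝ) / 5| := by
        have := abs_sub γ (γ - (f γ : ℝ) / 5)
        rwa [sub_sub_cancel] at this
      linarith
    have h3 : Real.log (2 + |(f γ : ℝ) / 5|) ≤ 2 * Real.log (2 + U) := by
      have h4 : Real.log (2 + |(f γ : ℝ) / 5|) ≤ Real.log ((2 + U) ^ 2) := by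
        refine Real.log_le_log (by positivity) ?_
        nlinarith
      rw [Real.log_pow] at h4
      push_cast at h4
      exact h4
    calc A * Real.log (2 + |(f γ : ℝ) / 5|) ≤ A * (2 * Real.log (2 + U)) := by gcongr
      _ = 2 * A * Real.log (2 + U) := by ring
  have himg : ((S.image f).card : ℝ) ≤ 13 * U := by
    have hsub : S.image f ⊆ Finset.Icc (-⌊5 * U + 1⌋) ⌊5 * U + 1⌋ := by
      intro j hj
      rw [Finset.mem_image] at hj
      obtain ⟨γ, hγ, rfl⟩ := hj
      have h3 := hfr γ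
      have h4 := (hS γ hγ).2
      have h5 := abs_le.mp h3
      have h6 := abs_le.mp h4
      rw [Finset.mem_Icc]
      constructor
      · rw [neg_le, Int.le_floor]
        push_cast
        linarith [h5.1, h5.2, h6.1, h6.2]
      · rw [Int.le_floor]
        linarith [h5.1, h5.2, h6.1, h6.2]
    have h1 : ((S.image f).card : ℝ) ≤ ((Finset.Icc (-⌊5 * U + 1⌋) ⌊5 * U + 1⌋).card : ℝ) := by
      exact_mod_cast Finset.card_le_card hsub
    rw [Int.card_Icc] at h1
    have h2 : 0 ≤ ⌊5 * U + 1⌋ := Int.floor_nonneg.mpr (by linarith)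
    have h3 : (((⌊5 * U + 1⌋ + 1 - -⌊5 * U + 1⌋).toNat : ℕ) : ℝ) = 2 * (⌊5 * U + 1⌋ : ℝ) + 1 := by
      have h4 : (((⌊5 * U + 1⌋ + 1 - -⌊5 * U + 1⌋).toNat : ℕ) : ℤ) = 2 * ⌊5 * U + 1⌋ + 1 := by
        rw [Int.toNat_of_nonneg (by omega)]; ring
      exact_mod_cast h4
    rw [h3] at h1
    have h5 := Int.floor_le (5 * U + 1)
    linarith
  rw [hcard]
  calc ∑ j ∈ S.image f, ((S.filter (fun γ => f γ = j)).card : ℝ)
      ≤ ∑ _j ∈ S.image f, 2 * A * Real.log (2 + U) := Finset.sum_le_sum hb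
    _ = ((S.image f).card : ℝ) * (2 * A * Real.log (2 + U)) := by
        rw [Finset.sum_const, nsmul_eq_mul]
    _ ≤ 13 * U * (2 * A * Real.log (2 + U)) := by
        refine mul_le_mul_of_nonneg_right himg ?_
        positivity
    _ = 26 * A * U * Real.log (2 + U) := by ring

end Pool.Agent.H82.GY
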